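import Pool.Agent.PCy.Defs
import Pool.Agent.PCx.AeX

/-!
# Almost every parameter: windows

Copy and adapt `Pool/Agent/PCx/AeX.lean` (with its private lemmas; take `j0 ≥ n, l, c` in `pat`).  The only difference is the bound
`y²/(log y)²` in the second moment; `∑_k (log (r^k))^(-2) = ∑_k (k log r)^(-2) < ∞`.
-/

namespace Pool.Agent.PCy

open MeasureTheory Filter Topology Pool.Agent.PCn Pool.Agent.PCx

/-- summability of the bounds of the second moments. -/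
private lemma AeY_summable (r : ℝ) (hr : 1 < r) :
    Summable (fun j : ℕ => 1 / Real.log (r ^ j) ^ 2) := by
  have hlr : 0 < Real.log r := Real.log_pos hr
  have h1 : ∀ j : ℕ, 1 / Real.log (r ^ j) ^ 2 = (1 / Real.log r ^ 2) * (1 / (j : ℝ) ^ 2) := by
    intro j
    rw [Real.log_pow, mul_pow, one_div_mul_one_div, mul_comm]
  simp only [h1]
  exact (Real.summable_one_div_nat_pow.2 (by norm_num : 1 < 2)).mul_left _

private lemma AeY_QQ_dvd (j : ℕ) : QQ j ∣ QQ (j + 1) := by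
  have h1 : PP j ∣ PP (j + 1) := by
    rw [PP_succ]
    split_ifs
    · exact dvd_mul_right _ _
    · exact dvd_rfl
  unfold QQ
  exact (pow_dvd_pow _ (by omega : j + 1 ≤ j + 1 + 1)).trans (pow_dvd_pow_of_dvd h1 _)

/-- the choice of the pattern in each window -/
private lemma AeY_choice {Z : ℕ → ℕ} (hZ : ∀ j, 2 ^ (j + 10) * (Z j + 1) ≤ Z (j + 1)) (n l c : ℕ)
    (r u : ℝ) (hr : 1 < r) (hθ : 1 / 2 ≤ u) (hθ2 : u ≤ 2) :
    ∃ (J : ℕ) (jj ii : ℕ → ℕ), Tendsto jj atTop atTop ∧ ∀ k ≥ J, n ≤ jj k ∧ l ≤ jj k ∧ c ≤ jj k ∧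
      (Z (jj k) : ℝ) ≤ 2 ^ (jj k + 5) * r ^ k ∧ ii k ≤ n ∧
      ∀ i < n, pq Z (r ^ k * u) i = if i < ii k then QQ (jj k) else QQ (jj k + 1) := by
  classical
  let P : ℕ → ℕ → Prop := fun k m => ∃ j, max (max (max n l) c) m ≤ j ∧
    (Z j : ℝ) ≤ 2 ^ (j + 5) * r ^ k ∧ ∃ i1 ≤ n, ∀ i < n,
      pq Z (r ^ k * u) i = if i < i1 then QQ j else QQ (j + 1)
  have hP : ∀ m, ∀ᶠ k in atTop, P k m := by
    intro m
    obtain ⟨U, hU1, hU⟩ := pat hZ n (max (max (max n l) c) m)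
    have h1 : ∀ᶠ k : ℕ in atTop, 2 * U ≤ r ^ k :=
      (tendsto_pow_atTop_atTop_of_one_lt hr).eventually_ge_atTop (2 * U)
    filter_upwards [h1] with k hk
    have hrk : 0 < r ^ k := by positivity
    obtain ⟨j, hj, hjZ, i1, hi1, hp⟩ := hU (r ^ k * u) (by nlinarith)
    refine ⟨j, hj, hjZ.trans ?_, i1, hi1, hp⟩
    rw [pow_succ 2 (j + 4)]
    have h2 : (0 : ℝ) < 2 ^ (j + 4) := by positivity
    nlinarith [mul_le_mul_of_nonneg_left hθ2 (mul_pos h2 hrk).le]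
  let m : ℕ → ℕ := fun k => Nat.findGreatest (P k) k
  have hm : Tendsto m atTop atTop := by
    rw [tendsto_atTop]
    intro b
    filter_upwards [hP b, eventually_ge_atTop b] with k hk hkb
    exact Nat.le_findGreatest hkb hk
  obtain ⟨J, hJ⟩ := eventually_atTop.1 (hP 0)
  have hmk : ∀ k ≥ J, P k (m k) := by
    intro k hk
    exact Nat.findGreatest_spec (P := P k) (Nat.zero_le k) (hJ k hk)
  have hex : ∀ k, ∃ j i1, m k ≤ j ∧ (J ≤ k → n ≤ j ∧ l ≤ j ∧ c ≤ j ∧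
      (Z j : ℝ) ≤ 2 ^ (j + 5) * r ^ k ∧ i1 ≤ n ∧
      ∀ i < n, pq Z (r ^ k * u) i = if i < i1 then QQ j else QQ (j + 1)) := by
    intro k
    by_cases hk : J ≤ k
    · obtain ⟨j, hj, hjZ, i1, hi1, hp⟩ := hmk k hk
      refine ⟨j, i1, (le_max_right _ _).trans hj, fun _ => ⟨?_, ?_, ?_, hjZ, hi1, hp⟩⟩
      · exact (((le_max_left _ _).trans (le_max_left _ _)).trans (le_max_left _ _)).trans hj
      · exact (((le_max_right _ _).trans (le_max_left _ _)).trans (le_max_left _ _)).trans hj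
      · exact ((le_max_right _ _).trans (le_max_left _ _)).trans hj
    · exact ⟨m k, 0, le_rfl, fun h => absurd h hk⟩
  choose jj ii hjj hii using hex
  exact ⟨J, jj, ii, tendsto_atTop_mono hjj hm, fun k hk => hii k hk⟩

theorem aeY {θ : ℝ} {Z : ℕ → ℕ}
    (hZ : ∀ j, 2 ^ (j + 10) * (Z j + 1) ≤ Z (j + 1))
    (hthr : ∀ j n l c : ℕ, n ≤ j → 10 ≤ l → l ≤ j → c ≤ j → ∀ y : ℝ, (Z j : ℝ) ≤ 2 ^ (j + 5) * y →
      ∀ G : ℕ → ℝ, Ad c θ G → ∀ μ : ℕ → ℕ, (∀ i, μ i ∣ QQ (j + 1)) →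
      (∫ a in Cu (2 * n), (VL μ (SS G (ep θ) a) n y ((1 + 1 / (l : ℝ)) * y) -
        kapL (QQ (j + 1)) μ n * (1 / (l : ℝ) * y)) ^ 2) ≤ y ^ 2 / Real.log y ^ 2)
    (n l c : ℕ) (hl : 10 ≤ l) (u : ℝ) (hu : 1 / 2 ≤ u) (hu2 : u ≤ 2) (G : ℕ → ℝ)
    (hG : Ad c θ G) :
    ∀ᵐ a ∂(volume.restrict (Cu (2 * n))),
      Tendsto (fun k : ℕ => VL (pq Z ((1 + 1 / (l : ℝ)) ^ k * u)) (SS G (ep θ) a) n
        ((1 + 1 / (l : ℝ)) ^ k) ((1 + 1 / (l : ℝ)) ^ (k + 1)) / (1 + 1 / (l : ℝ)) ^ k) atTop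
        (𝓝 (BH n * (1 / (l : ℝ)))) := by
  classical
  set r : ℝ := 1 + 1 / (l : ℝ) with hrdef
  have hl0 : (0 : ℝ) < l := by
    have : 0 < l := by omega
    exact_mod_cast this
  have hr : 1 < r := by
    have : 0 < 1 / (l : ℝ) := by positivity
    linarith
  obtain ⟨J, jj, ii, hjj, hch⟩ := AeY_choice hZ n l c r u hr hu hu2
  set μ : ℕ → ℕ → ℕ := fun k i => if i < ii k then QQ (jj k) else QQ (jj k + 1) with hμ
  have hμd : ∀ k i, μ k i ∣ QQ (jj k + 1) := by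
    intro k i
    simp only [hμ]
    split_ifs
    · exact AeY_QQ_dvd _
    · exact dvd_rfl
  set K : ℕ → ℝ := fun k => kapL (QQ (jj k + 1)) (μ k) n with hK
  have hKlim : Tendsto K atTop (𝓝 (BH n)) := by
    rw [Metric.tendsto_atTop]
    intro δ hδ
    obtain ⟨j0, hj0⟩ := kapL_lim n (δ / 2) (by positivity)
    obtain ⟨k0, hk0⟩ := eventually_atTop.1 (hjj.eventually_ge_atTop j0)
    refine ⟨max k0 J, fun k hk => ?_⟩
    have h1 := hch k ((le_max_right _ _).trans hk)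
    have h2 := hj0 (jj k) (hk0 k ((le_max_left _ _).trans hk)) (μ k) (ii k) h1.2.2.2.2.1
      (fun i _ => rfl)
    rw [Real.dist_eq]
    exact h2.trans_lt (by linarith)
  set m : ℕ := 2 * n with hm
  have hcu : MeasurableSet (Cu m) := by
    unfold Cu
    exact measurableSet_Icc
  have : IsFiniteMeasure (volume.restrict (Cu m)) := by
    constructor
    rw [Measure.restrict_apply MeasurableSet.univ, Set.univ_inter]
    exact (isCompact_Icc (a := (0 : Fin m → ℝ)) (b := 1)).measure_lt_top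
  have hrj : ∀ j : ℕ, 0 < r ^ j := fun j => pow_pos (by linarith) j
  set V : ℕ → (Fin m → ℝ) → ℝ := fun k a => VL (μ k) (SS G (ep θ) a) n (r ^ k) (r ^ (k + 1)) with hV
  have hVm : ∀ j, Measurable (V j) := fun j => measurable_VL (μ j) G (ep θ) m n (r ^ j) (r ^ (j + 1))
  have hVb : ∀ j, ∃ B, ∀ a ∈ Cu m, |V j a| ≤ B := by
    intro j
    obtain ⟨B, hB⟩ := VL_bdd (μ j) G (ep θ) m n (r ^ j) (r ^ (j + 1))
    refine ⟨B, fun a ha => ?_⟩
    obtain ⟨h1, h2⟩ := hB a ha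
    simp only [hV]
    rw [abs_of_nonneg h1]
    exact h2
  set X : ℕ → (Fin m → ℝ) → ℝ := fun j a => (V j a / r ^ j - K j * (1 / (l : ℝ))) ^ 2 with hX
  have hXm : ∀ j, Measurable (X j) := fun j => (((hVm j).div_const _).sub_const _).pow_const 2
  have hXi : ∀ j, Integrable (X j) (volume.restrict (Cu m)) := by
    intro j
    obtain ⟨B, hB⟩ := hVb j
    refine Integrable.of_bound (hXm j).aestronglyMeasurable
      ((B / r ^ j + |K j * (1 / (l : ℝ))|) ^ 2) ?_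
    refine (ae_restrict_iff' hcu).2 (Eventually.of_forall (fun a ha => ?_))
    have h1 := hB a ha
    simp only [hX]
    rw [norm_pow, Real.norm_eq_abs]
    refine pow_le_pow_left₀ (abs_nonneg _) ?_ 2
    refine (abs_sub _ _).trans (add_le_add ?_ le_rfl)
    rw [abs_div, abs_of_pos (hrj j)]
    exact div_le_div_of_nonneg_right h1 (hrj j).le
  have hXb : ∀ j ≥ J, ∫ a in Cu m, X j a ≤ 1 / Real.log (r ^ j) ^ 2 := by
    intro j hj
    obtain ⟨hc1, hc2, hc2c, hc3, hc4, hc5⟩ := hch j hj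
    have h1 := hthr (jj j) n l c hc1 hl hc2 hc2c (r ^ j) hc3 G hG (μ j) (hμd j)
    have h2 : ∀ a, X j a = (1 / (r ^ j) ^ 2) *
        (VL (μ j) (SS G (ep θ) a) n (r ^ j) (r * r ^ j) -
          kapL (QQ (jj j + 1)) (μ j) n * (1 / (l : ℝ) * r ^ j)) ^ 2 := by
      intro a
      have h0 := (hrj j).ne'
      simp only [hX, hV, hK]
      rw [pow_succ' r j]
      field_simp
    simp only [h2]
    rw [integral_const_mul]
    calc 1 / (r ^ j) ^ 2 * (∫ a in Cu m,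
          (VL (μ j) (SS G (ep θ) a) n (r ^ j) (r * r ^ j) -
          kapL (QQ (jj j + 1)) (μ j) n * (1 / (l : ℝ) * r ^ j)) ^ 2)
        ≤ 1 / (r ^ j) ^ 2 * ((r ^ j) ^ 2 / Real.log (r ^ j) ^ 2) :=
          mul_le_mul_of_nonneg_left h1 (by positivity)
      _ = 1 / Real.log (r ^ j) ^ 2 := by
          have h0 : (r ^ j) ^ 2 ≠ 0 := pow_ne_zero _ (hrj j).ne'
          rw [div_mul_div_comm, one_mul, div_mul_cancel_left₀ h0, one_div]
  have hs : Summable (fun j : ℕ => 1 / Real.log (r ^ (j + J)) ^ 2) :=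
    (summable_nat_add_iff J).2 (AeY_summable r hr)
  have hfin : ∫⁻ a in Cu m, ∑' j : ℕ, ENNReal.ofReal (X (j + J) a) ≠ ⊤ := by
    rw [lintegral_tsum (fun j => (hXm (j + J)).ennreal_ofReal.aemeasurable)]
    refine ne_top_of_le_ne_top hs.tsum_ofReal_ne_top ?_
    refine ENNReal.tsum_le_tsum (fun j => ?_)
    rw [← ofReal_integral_eq_lintegral_ofReal (hXi (j + J))
      (Eventually.of_forall (fun a => sq_nonneg _))]
    exact ENNReal.ofReal_le_ofReal (hXb (j + J) (by omega))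
  have hae := ae_lt_top (Measurable.tsum
    (fun j => (hXm (j + J)).ennreal_ofReal)) hfin
  filter_upwards [hae] with a ha
  have h1 := ENNReal.tendsto_atTop_zero_of_tsum_ne_top ha.ne
  have h2 : Tendsto (fun j => X (j + J) a) atTop (𝓝 0) := by
    have h3 := (ENNReal.tendsto_toReal ENNReal.zero_ne_top).comp h1
    rw [ENNReal.toReal_zero] at h3
    refine h3.congr (fun j => ?_)
    simp only [Function.comp]
    exact ENNReal.toReal_ofReal (sq_nonneg _)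
  have h4 : Tendsto (fun j => X j a) atTop (𝓝 0) := (tendsto_add_atTop_iff_nat J).1 h2
  have h5 : Tendsto (fun j => |V j a / r ^ j - K j * (1 / (l : ℝ))|) atTop (𝓝 0) := by
    have h6 := (Real.continuous_sqrt.tendsto 0).comp h4
    rw [Real.sqrt_zero] at h6
    refine h6.congr (fun j => ?_)
    simp only [Function.comp, hX]
    exact Real.sqrt_sq_eq_abs _
  have h7 := (tendsto_zero_iff_abs_tendsto_zero _).2 h5
  have h8 := h7.add (hKlim.mul_const (1 / (l : ℝ)))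
  rw [zero_add] at h8
  refine h8.congr' ?_
  filter_upwards [eventually_ge_atTop J] with j hj
  obtain ⟨hc1, hc2, hc2c, hc3, hc4, hc5⟩ := hch j hj
  have h9 : VL (pq Z (r ^ j * u)) (SS G (ep θ) a) n (r ^ j) (r ^ (j + 1)) = V j a :=
    VL_mu (fun i hi => hc5 i hi) _ _
  rw [h9]
  ring

end Pool.Agent.PCy
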