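import Pool.Agent.PCy.BasY
import Pool.Agent.PCx.AvgX

/-!
# Mean values of `θ` over the motion

Adapt `Pool/Agent/PCx/AvgX.lean`.  `t = ty θ y`, `x = 2q + 1 + M z > 0`, `h = M t`.  `∫_0^t F(⌊z+s⌋) ds` differs from
`∑_{z < k ≤ z + t} F(k)` by at most `2 max |F| ≤ 2 w log(2^(n+4) y)`; the numbers `2q + 1 + M k`, `z < k ≤ z + t`, are the integers in
`(x, x + h]` congruent to `2q + 1` modulo `M`, all between `y` and `2^(n+4) y`.  Split them into the classes `b < B` modulo `B`,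
`b ≡ 2q + 1` modulo `M` (`M ∣ B`): the weight is `W b` (`W c = W (c % B)`), for `b` prime to `B` the sum of `log p` is
`RR B b h x + h/φ(B)` by definition, the other classes contain no prime `> B`.  So the sum divided by `t` is
`(M/φ(B)) ∑ W b + (1/t) ∑ W b RR B b h x`, and `(1/t) ∑_b w |RR| = w M ph B h x ≤ w B ph B h x` (`M ≤ B`, `ph ≥ 0`).  Last, `2 w log(2^(n+4) y)/t ≤ y^(-1/4)` for large `y`,
as `t ≥ y^(1/2)`; `t ≤ y/(40 B)` for large `y`.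
-/

namespace Pool.Agent.PCy

open Pool.Agent.PCn Pool.Agent.PCx
open MeasureTheory Filter Topology

private theorem AvgY_piece (G : ℤ → ℝ) (a : ℤ) :
    ∫ u in (a : ℝ)..(a + 1), G ⌊u⌋ = G a := by
  rw [intervalIntegral.integral_of_le (by linarith), MeasureTheory.integral_Ioc_eq_integral_Ioo,
    MeasureTheory.setIntegral_congr_fun (g := fun _ => G a) measurableSet_Ioo]
  · simp
  · intro u hu
    have : ⌊u⌋ = a := Int.floor_eq_iff.mpr ⟨hu.1.le, hu.2⟩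
    show G ⌊u⌋ = G a
    rw [this]

private theorem AvgY_intg (G : ℤ → ℝ) {B : ℝ} (h0 : ∀ k, 0 ≤ G k) (hB : ∀ k, G k ≤ B) (x y : ℝ) :
    IntervalIntegrable (fun u : ℝ => G ⌊u⌋) volume x y := by
  have hm : Measurable (fun u : ℝ => G ⌊u⌋) :=
    (Measurable.of_discrete (f := G)).comp Int.measurable_floor
  have hc : IntervalIntegrable (fun _ : ℝ => B) volume x y := intervalIntegrable_const
  refine hc.mono_fun hm.aestronglyMeasurable (Filter.Eventually.of_forall fun u => ?_)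
  show ‖G ⌊u⌋‖ ≤ ‖B‖
  rw [Real.norm_eq_abs, Real.norm_eq_abs, abs_of_nonneg (h0 _),
    abs_of_nonneg ((h0 ⌊u⌋).trans (hB _))]
  exact hB _

private theorem AvgY_sum (G : ℤ → ℝ) {B : ℝ} (h0 : ∀ k, 0 ≤ G k) (hB : ∀ k, G k ≤ B) (a : ℤ)
    (N : ℕ) : ∫ u in ((a : ℝ) + 1)..((a : ℝ) + N + 1), G ⌊u⌋ = ∑ k ∈ Finset.Ioc a (a + N), G k := by
  induction N with
  | zero => simp
  | succ N ih =>
    have h1 := intervalIntegral.integral_add_adjacent_intervals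
      (AvgY_intg G h0 hB ((a : ℝ) + 1) ((a : ℝ) + N + 1))
      (AvgY_intg G h0 hB ((a : ℝ) + N + 1) ((a : ℝ) + N + 1 + 1))
    have h2 := AvgY_piece G (a + N + 1)
    have h3 : Finset.Ioc a (a + ((N + 1 : ℕ) : ℤ)) = insert (a + N + 1) (Finset.Ioc a (a + N)) := by
      ext k
      simp only [Finset.mem_Ioc, Finset.mem_insert]
      push_cast
      omega
    rw [h3, Finset.sum_insert (by simp [Finset.mem_Ioc]), ← ih, add_comm (G _)]
    have h4 : ((a + N + 1 : ℤ) : ℝ) = (a : ℝ) + N + 1 := by push_cast; ring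
    rw [h4] at h2
    rw [← h2, h1]
    push_cast
    congr 1
    ring

private theorem AvgY_cmp (G : ℤ → ℝ) {B : ℝ} (h0 : ∀ k, 0 ≤ G k) (hB : ∀ k, G k ≤ B) (z t : ℝ)
    (ht : 0 ≤ t) :
    |(∫ s in (0 : ℝ)..t, G ⌊z + s⌋) - ∑ k ∈ Finset.Ioc ⌊z⌋ ⌊z + t⌋, G k| ≤ 2 * B := by
  have e1 : (∫ s in (0 : ℝ)..t, G ⌊z + s⌋) = ∫ u in z..(z + t), G ⌊u⌋ := by
    rw [intervalIntegral.integral_comp_add_left (fun u => G ⌊u⌋) z, add_zero]
  have hle : ⌊z⌋ ≤ ⌊z + t⌋ := Int.floor_le_floor (by linarith)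
  obtain ⟨N, hN⟩ := Int.eq_ofNat_of_zero_le (sub_nonneg.mpr hle)
  have hN' : ⌊z + t⌋ = ⌊z⌋ + N := by omega
  have e2 := AvgY_sum G h0 hB ⌊z⌋ N
  rw [e1, hN', ← e2]
  have i1 := AvgY_intg G h0 hB z (z + t)
  have i2 := AvgY_intg G h0 hB ((⌊z⌋ : ℝ) + 1) ((⌊z⌋ : ℝ) + N + 1)
  have i3 := AvgY_intg G h0 hB z ((⌊z⌋ : ℝ) + 1)
  rw [intervalIntegral.integral_interval_sub_interval_comm i1 i2 i3]
  have hz1 := Int.floor_le z
  have hz2 := Int.lt_floor_add_one z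
  have hw1 := Int.floor_le (z + t)
  have hw2 := Int.lt_floor_add_one (z + t)
  have hcast : ((⌊z + t⌋ : ℤ) : ℝ) = (⌊z⌋ : ℝ) + N := by rw [hN']; push_cast; ring
  rw [hcast] at hw1 hw2
  have hB0 : 0 ≤ B := (h0 0).trans (hB 0)
  have b1 : ‖∫ u in z..((⌊z⌋ : ℝ) + 1), G ⌊u⌋‖ ≤ B * |((⌊z⌋ : ℝ) + 1) - z| := by
    apply intervalIntegral.norm_integral_le_of_norm_le_const
    intro u _
    rw [Real.norm_eq_abs, abs_of_nonneg (h0 _)]
    exact hB _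
  have b2 : ‖∫ u in (z + t)..((⌊z⌋ : ℝ) + N + 1), G ⌊u⌋‖ ≤ B * |((⌊z⌋ : ℝ) + N + 1) - (z + t)| := by
    apply intervalIntegral.norm_integral_le_of_norm_le_const
    intro u _
    rw [Real.norm_eq_abs, abs_of_nonneg (h0 _)]
    exact hB _
  rw [abs_of_nonneg (by linarith)] at b1 b2
  rw [Real.norm_eq_abs] at b1 b2
  have c1 : B * (((⌊z⌋ : ℝ) + 1) - z) ≤ B := by nlinarith
  have c2 : B * (((⌊z⌋ : ℝ) + N + 1) - (z + t)) ≤ B := by nlinarith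
  refine (abs_sub _ _).trans ?_
  linarith

private theorem AvgY_th_nonneg (X : ℝ) (n : ℕ) : 0 ≤ thc X n := by
  unfold thc th
  split_ifs with h1 h2
  · exact Real.log_natCast_nonneg n
  · exact le_rfl
  · exact le_rfl

private theorem AvgY_th_le {X : ℝ} (hX : 1 ≤ X) (n : ℕ) : thc X n ≤ Real.log X := by
  have hl := Real.log_nonneg hX
  unfold thc th
  split_ifs with h1 h2
  · exact Real.log_le_log (by exact_mod_cast h2.pos) h1
  · exact hl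
  · exact hl

private theorem AvgY_bij {M : ℕ} (hM : 0 < M) (W : ℕ → ℝ) (q : ℕ) (X z t x x' : ℝ) (ht : 0 ≤ t)
    (hx : x = 2 * q + 1 + M * z) (hx' : x' = 2 * q + 1 + M * (z + t)) (hx0 : 0 ≤ x)
    (hX : x' ≤ X) :
    ∑ k ∈ Finset.Ioc ⌊z⌋ ⌊z + t⌋, thc X ((2 * (q : ℤ) + 1 + M * k).toNat) *
        W ((2 * (q : ℤ) + 1 + M * k).toNat) =
      ∑ p ∈ (Finset.Ioc ⌊x⌋₊ ⌊x'⌋₊).filter (fun p => p.Prime ∧ p ≡ (2 * q + 1) [MOD M]),
        Real.log p * W p := by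
  have hM' : (0 : ℝ) < M := by exact_mod_cast hM
  have hx'0 : 0 ≤ x' := by
    rw [hx'] ; rw [hx] at hx0
    nlinarith
  have hpos : ∀ k ∈ Finset.Ioc ⌊z⌋ ⌊z + t⌋, x < ((2 * (q : ℤ) + 1 + M * k : ℤ) : ℝ) ∧
      ((2 * (q : ℤ) + 1 + M * k : ℤ) : ℝ) ≤ x' := by
    intro k hk
    rw [Finset.mem_Ioc, Int.floor_lt, Int.le_floor] at hk
    push_cast
    rw [hx, hx']
    constructor
    · nlinarith [hk.1]
    · nlinarith [hk.2]
  have hcast : ∀ k ∈ Finset.Ioc ⌊z⌋ ⌊z + t⌋,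
      (((2 * (q : ℤ) + 1 + M * k).toNat : ℕ) : ℝ) = ((2 * (q : ℤ) + 1 + M * k : ℤ) : ℝ) := by
    intro k hk
    have h1 : (0 : ℝ) < ((2 * (q : ℤ) + 1 + M * k : ℤ) : ℝ) := lt_of_le_of_lt hx0 (hpos k hk).1
    have h2 : 0 < (2 * (q : ℤ) + 1 + M * k : ℤ) := by exact_mod_cast h1
    have h3 : (((2 * (q : ℤ) + 1 + M * k).toNat : ℕ) : ℤ) = 2 * (q : ℤ) + 1 + M * k :=
      Int.toNat_of_nonneg h2.le
    exact_mod_cast congrArg (fun i : ℤ => (i : ℝ)) h3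
  have hz : ∀ k ∈ Finset.Ioc ⌊z⌋ ⌊z + t⌋,
      (((2 * (q : ℤ) + 1 + M * k).toNat : ℕ) : ℤ) = 2 * (q : ℤ) + 1 + M * k := by
    intro k hk
    have h1 : (0 : ℝ) < ((2 * (q : ℤ) + 1 + M * k : ℤ) : ℝ) := lt_of_le_of_lt hx0 (hpos k hk).1
    have h2 : 0 < (2 * (q : ℤ) + 1 + M * k : ℤ) := by exact_mod_cast h1
    exact Int.toNat_of_nonneg h2.le
  have s1 : ∑ k ∈ Finset.Ioc ⌊z⌋ ⌊z + t⌋, thc X ((2 * (q : ℤ) + 1 + M * k).toNat) *
        W ((2 * (q : ℤ) + 1 + M * k).toNat) =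
      ∑ k ∈ (Finset.Ioc ⌊z⌋ ⌊z + t⌋).filter
        (fun k => ((2 * (q : ℤ) + 1 + M * k).toNat).Prime),
        Real.log ((2 * (q : ℤ) + 1 + M * k).toNat : ℕ) *
          W ((2 * (q : ℤ) + 1 + M * k).toNat) := by
    rw [Finset.sum_filter]
    refine Finset.sum_congr rfl (fun k hk => ?_)
    have hle : (((2 * (q : ℤ) + 1 + M * k).toNat : ℕ) : ℝ) ≤ X := by
      rw [hcast k hk]
      exact (hpos k hk).2.trans hX
    unfold thc th
    rw [if_pos hle, ite_mul, zero_mul]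
  rw [s1]
  refine Finset.sum_bij (fun k _ => (2 * (q : ℤ) + 1 + M * k).toNat) ?_ ?_ ?_ ?_
  · intro k hk
    rw [Finset.mem_filter] at hk
    rw [Finset.mem_filter, Finset.mem_Ioc, Nat.floor_lt hx0, Nat.le_floor_iff hx'0,
      hcast k hk.1]
    refine ⟨hpos k hk.1, hk.2, ?_⟩
    have h1 := hz k hk.1
    rw [← Int.natCast_modEq_iff, h1]
    push_cast
    exact (Int.modEq_iff_dvd.mpr ⟨-k, by ring⟩)
  · intro k hk k' hk' h
    rw [Finset.mem_filter] at hk hk'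
    have h1 := hz k hk.1
    have h2 := hz k' hk'.1
    have h3 : (2 * (q : ℤ) + 1 + M * k) = 2 * (q : ℤ) + 1 + M * k' := by
      rw [← h1, ← h2]
      exact_mod_cast h
    have h4 : (M : ℤ) * k = M * k' := by linarith
    exact mul_left_cancel₀ (by exact_mod_cast hM.ne') h4
  · intro p hp
    rw [Finset.mem_filter, Finset.mem_Ioc, Nat.floor_lt hx0, Nat.le_floor_iff hx'0] at hp
    obtain ⟨⟨hp1, hp2⟩, hp3, hp4⟩ := hp
    have h1 : ((2 * q + 1 : ℕ) : ℤ) ≡ (p : ℤ) [ZMOD M] := (Int.natCast_modEq_iff.mpr hp4).symm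
    obtain ⟨k, hk⟩ := Int.modEq_iff_dvd.mp h1
    push_cast at hk
    have hpk : (p : ℤ) = 2 * (q : ℤ) + 1 + M * k := by linarith
    have hpk' : (p : ℝ) = 2 * q + 1 + M * k := by exact_mod_cast hpk
    have hkk : k ∈ Finset.Ioc ⌊z⌋ ⌊z + t⌋ := by
      rw [Finset.mem_Ioc, Int.floor_lt, Int.le_floor]
      rw [hx, hpk'] at hp1
      rw [hx', hpk'] at hp2
      constructor
      · have : (M : ℝ) * z < M * k := by linarith
        exact lt_of_mul_lt_mul_left this hM'.le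
      · have : (M : ℝ) * k ≤ M * (z + t) := by linarith
        exact le_of_mul_le_mul_left this hM'
    have hpt : (2 * (q : ℤ) + 1 + M * k).toNat = p := by
      rw [← hpk]; exact Int.toNat_natCast p
    refine ⟨k, ?_, hpt⟩
    rw [Finset.mem_filter]
    exact ⟨hkk, by rw [hpt]; exact hp3⟩
  · intro k hk
    rfl

/-- splitting into the classes modulo `B` -/
private theorem AvgY_split (B : ℕ) (hB : 0 < B) {M : ℕ} (hMB : M ∣ B) (W : ℕ → ℝ)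
    (hW : ∀ c, W c = W (c % B)) {w : ℝ} (hWw : ∀ c, 0 ≤ W c ∧ W c ≤ w) (r : ℕ) {x h : ℝ}
    (hx0 : 0 ≤ x) (hBx : (B : ℝ) ≤ x) :
    |∑ p ∈ (Finset.Ioc ⌊x⌋₊ ⌊x + h⌋₊).filter (fun p => p.Prime ∧ p ≡ r [MOD M]),
        Real.log p * W p - h / B.totient *
        ∑ b ∈ (Finset.range B).filter (fun b => Nat.Coprime b B ∧ b ≡ r [MOD M]), W b| ≤
      w * ∑ b ∈ (Finset.range B).filter (fun b => Nat.Coprime b B), |RR B b h x| := by
  have hw0 : 0 ≤ w := (hWw 0).1.trans (hWw 0).2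
  obtain ⟨P, hP⟩ : ∃ P, P = (Finset.Ioc ⌊x⌋₊ ⌊x + h⌋₊).filter
    (fun p => p.Prime ∧ p ≡ r [MOD M]) := ⟨_, rfl⟩
  have h1 : ∑ p ∈ P, Real.log p * W p =
      ∑ b ∈ Finset.range B, ∑ p ∈ P.filter (fun p => p % B = b), Real.log p * W p :=
    (Finset.sum_fiberwise_of_maps_to (fun p _ => Finset.mem_range.2 (Nat.mod_lt p hB)) _).symm
  rw [← hP, h1, Finset.sum_filter, Finset.sum_filter, Finset.mul_sum, Finset.mul_sum,
    ← Finset.sum_sub_distrib]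
  refine (Finset.abs_sum_le_sum_abs _ _).trans (Finset.sum_le_sum ?_)
  intro b hb
  have hbB : b % B = b := Nat.mod_eq_of_lt (Finset.mem_range.1 hb)
  have hpos : 0 ≤ w * (if Nat.Coprime b B then |RR B b h x| else 0) := by
    refine mul_nonneg hw0 ?_
    split_ifs
    · exact abs_nonneg _
    · exact le_rfl
  by_cases hbr : b ≡ r [MOD M]
  · have h3 : P.filter (fun p => p % B = b) = (Finset.Ioc ⌊x⌋₊ ⌊x + h⌋₊).filter
        (fun p => p.Prime ∧ p ≡ b [MOD B]) := by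
      ext p
      rw [hP, Finset.mem_filter, Finset.mem_filter, Finset.mem_filter]
      constructor
      · rintro ⟨⟨h4, h5, _⟩, h6⟩
        refine ⟨h4, h5, ?_⟩
        unfold Nat.ModEq
        rw [h6, hbB]
      · rintro ⟨h4, h5, h6⟩
        refine ⟨⟨h4, h5, (h6.of_dvd hMB).trans hbr⟩, ?_⟩
        unfold Nat.ModEq at h6
        rw [h6, hbB]
    have h4 : ∑ p ∈ P.filter (fun p => p % B = b), Real.log p * W p =
        (∑ p ∈ (Finset.Ioc ⌊x⌋₊ ⌊x + h⌋₊).filter (fun p => p.Prime ∧ p ≡ b [MOD B]),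
          Real.log p) * W b := by
      rw [h3, Finset.sum_mul]
      refine Finset.sum_congr rfl fun p hp => ?_
      rw [Finset.mem_filter] at hp
      have h5 : p % B = b := by
        have h6 := hp.2.2
        unfold Nat.ModEq at h6
        rw [h6, hbB]
      rw [hW p, h5]
    rw [h4]
    by_cases hcop : Nat.Coprime b B
    · rw [if_pos ⟨hcop, hbr⟩, if_pos hcop, ← sub_mul, abs_mul, abs_of_nonneg (hWw b).1, mul_comm w]
      exact mul_le_mul_of_nonneg_left (hWw b).2 (abs_nonneg _)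
    · rw [if_neg (fun h => hcop h.1), mul_zero, sub_zero]
      have h5 : ∑ p ∈ (Finset.Ioc ⌊x⌋₊ ⌊x + h⌋₊).filter (fun p => p.Prime ∧ p ≡ b [MOD B]),
          Real.log p = 0 := by
        rw [Finset.sum_eq_zero]
        intro p hp
        exfalso
        rw [Finset.mem_filter, Finset.mem_Ioc, Nat.floor_lt hx0] at hp
        obtain ⟨⟨hp1, _⟩, hp2, hp3⟩ := hp
        have h4 : Nat.gcd p B = Nat.gcd b B := Nat.ModEq.gcd_eq hp3
        have h5 : p ∣ B := by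
          by_contra hcon
          exact hcop (by
            rw [Nat.Coprime, ← h4]
            exact (Nat.Prime.coprime_iff_not_dvd hp2).mpr hcon)
        have h6 : (p : ℝ) ≤ B := by exact_mod_cast Nat.le_of_dvd hB h5
        linarith
      rw [h5, zero_mul, abs_zero]
      exact hpos
  · have h3 : P.filter (fun p => p % B = b) = ∅ := by
      rw [Finset.filter_eq_empty_iff]
      intro p hp hpb
      rw [hP, Finset.mem_filter] at hp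
      have h4 : p ≡ b [MOD B] := by
        unfold Nat.ModEq
        rw [hpb, hbB]
      exact hbr ((h4.of_dvd hMB).symm.trans hp.2.2)
    rw [h3, Finset.sum_empty, if_neg (fun h => hbr h.2), mul_zero, sub_zero, abs_zero]
    exact hpos

/-- elementary bounds for large `y` -/
private theorem AvgY_ev (B n : ℕ) {θ : ℝ} (h : 1 / 2 < θ) (h1 : θ < 1) (w : ℝ) (hw : 0 ≤ w) :
    ∃ Y : ℝ, 3 ≤ Y ∧ ∀ y ≥ Y, 40 * (B : ℝ) ≤ y ∧ 40 ≤ y ∧ 40 * B * ty θ y ≤ y ∧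
      2 * (Real.log (2 ^ (n + 4) * y) * w) ≤ ty θ y * y ^ (-(1 / 4) : ℝ) := by
  obtain ⟨Y1, hY1, hlog⟩ := logsY n 1 (1 / 8) (by norm_num)
  have a1 : ∀ᶠ y : ℝ in atTop, 40 * (B : ℝ) ≤ y ^ (1 / 4 : ℝ) :=
    (tendsto_rpow_atTop (by norm_num)).eventually_ge_atTop _
  have a2 : ∀ᶠ y : ℝ in atTop, 2 * w ≤ y ^ (1 / 8 : ℝ) :=
    (tendsto_rpow_atTop (by norm_num)).eventually_ge_atTop _
  obtain ⟨Y2, hY2⟩ := Filter.eventually_atTop.1 (a1.and (a2.and (eventually_ge_atTop (40 : ℝ))))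
  refine ⟨max Y1 Y2, hY1.trans (le_max_left _ _), ?_⟩
  intro y hy
  obtain ⟨b1, b2, b3⟩ := hY2 y ((le_max_right _ _).trans hy)
  obtain ⟨-, -, -, c1⟩ := hlog y ((le_max_left _ _).trans hy)
  rw [pow_one] at c1
  have hy0 : 0 < y := by linarith
  have hy1 : 1 ≤ y := by linarith
  have e1 : y ^ (1 / 4 : ℝ) ≤ y := by
    calc y ^ (1 / 4 : ℝ) ≤ y ^ (1 : ℝ) := Real.rpow_le_rpow_of_exponent_le hy1 (by norm_num)
      _ = y := Real.rpow_one y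
  have e2 : ty θ y ≤ y ^ (3 / 4 : ℝ) := by
    unfold ty
    exact Real.rpow_le_rpow_of_exponent_le hy1 (by linarith)
  have e3 : y ^ (1 / 2 : ℝ) ≤ ty θ y := by
    unfold ty
    exact Real.rpow_le_rpow_of_exponent_le hy1 (by linarith)
  have e4 : y ^ (1 / 4 : ℝ) * y ^ (3 / 4 : ℝ) = y := by
    rw [← Real.rpow_add hy0]
    norm_num
  have p34 : 0 ≤ y ^ (3 / 4 : ℝ) := Real.rpow_nonneg hy0.le _
  refine ⟨b1.trans e1, b3, ?_, ?_⟩
  · calc 40 * (B : ℝ) * ty θ y ≤ 40 * (B : ℝ) * y ^ (3 / 4 : ℝ) :=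
          mul_le_mul_of_nonneg_left e2 (by positivity)
      _ ≤ y ^ (1 / 4 : ℝ) * y ^ (3 / 4 : ℝ) := mul_le_mul_of_nonneg_right b1 p34
      _ = y := e4
  · have f1 : y ^ (1 / 8 : ℝ) * y ^ (1 / 8 : ℝ) = y ^ (1 / 4 : ℝ) := by
      rw [← Real.rpow_add hy0]
      norm_num
    have f2 : y ^ (1 / 4 : ℝ) = y ^ (1 / 2 : ℝ) * y ^ (-(1 / 4) : ℝ) := by
      rw [← Real.rpow_add hy0]
      norm_num
    have p8 : 0 ≤ y ^ (1 / 8 : ℝ) := Real.rpow_nonneg hy0.le _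
    have p4 : 0 ≤ y ^ (-(1 / 4) : ℝ) := Real.rpow_nonneg hy0.le _
    calc 2 * (Real.log (2 ^ (n + 4) * y) * w) = 2 * w * Real.log (2 ^ (n + 4) * y) := by ring
      _ ≤ 2 * w * y ^ (1 / 8 : ℝ) := mul_le_mul_of_nonneg_left c1 (by positivity)
      _ ≤ y ^ (1 / 8 : ℝ) * y ^ (1 / 8 : ℝ) := mul_le_mul_of_nonneg_right b2 p8
      _ = y ^ (1 / 2 : ℝ) * y ^ (-(1 / 4) : ℝ) := by rw [f1, f2]
      _ ≤ ty θ y * y ^ (-(1 / 4) : ℝ) := mul_le_mul_of_nonneg_right e3 p4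

theorem avgY (B n : ℕ) (hB : 0 < B) {θ : ℝ} (h : 1 / 2 < θ) (h1 : θ < 1) (w : ℝ) (hw : 0 ≤ w) :
    ∃ Y : ℝ, 3 ≤ Y ∧ ∀ y ≥ Y,
    ∀ M : ℕ, M ∣ B → ∀ W : ℕ → ℝ, (∀ c, W c = W (c % B)) → (∀ c, 0 ≤ W c ∧ W c ≤ w) →
    ∀ q : ℕ, 7 / 8 * y ≤ q → (q : ℝ) ≤ 2 ^ (n + 2) * y →
    ∀ z : ℝ, |z| ≤ y / (40 * M) →
    |(1 / ty θ y) * (∫ s in (0 : ℝ)..ty θ y,
        thc (2 ^ (n + 4) * y) ((2 * (q : ℤ) + 1 + M * ⌊z + s⌋).toNat) *
        W ((2 * (q : ℤ) + 1 + M * ⌊z + s⌋).toNat)) -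
      (M : ℝ) / B.totient *
        ∑ b ∈ (Finset.range B).filter (fun b => Nat.Coprime b B ∧ b ≡ 2 * q + 1 [MOD M]), W b| ≤
      w * B * ph B (M * ty θ y) (2 * q + 1 + M * z) + y ^ (-(1 / 4) : ℝ) := by
  obtain ⟨Y, hY3, hY⟩ := AvgY_ev B n h h1 w hw
  refine ⟨Y, hY3, ?_⟩
  intro y hy M hMB W hW hWw q hq1 hq2 z hz
  obtain ⟨hyB, hy40, hty, hlw⟩ := hY y hy
  have hM : 0 < M := Nat.pos_of_dvd_of_pos hMB hB
  have hM1 : (1 : ℝ) ≤ M := by exact_mod_cast hM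
  have hB1 : (1 : ℝ) ≤ B := by exact_mod_cast hB
  have hMle : (M : ℝ) ≤ B := by exact_mod_cast Nat.le_of_dvd hB hMB
  have hy0 : 0 < y := by linarith
  have ht0 : 0 < ty θ y := ty_pos θ hy0
  obtain ⟨t, ht⟩ : ∃ t : ℝ, t = ty θ y := ⟨_, rfl⟩
  rw [← ht] at ht0 hty hlw ⊢
  have hMt : M * t ≤ y / 40 := by
    have h2 : (M : ℝ) * t ≤ B * t := mul_le_mul_of_nonneg_right hMle ht0.le
    linarith
  have hMz : |M * z| ≤ y / 40 := by
    rw [abs_mul, abs_of_pos (by linarith : (0 : ℝ) < M)]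
    rw [le_div_iff₀ (by positivity)] at hz
    linarith
  rw [abs_le] at hMz
  obtain ⟨X, hX⟩ : ∃ X : ℝ, X = 2 ^ (n + 4) * y := ⟨_, rfl⟩
  obtain ⟨x, hx⟩ : ∃ x : ℝ, x = 2 * q + 1 + M * z := ⟨_, rfl⟩
  obtain ⟨x', hx'⟩ : ∃ x' : ℝ, x' = 2 * q + 1 + M * (z + t) := ⟨_, rfl⟩
  have hMt0 : 0 < M * t := by positivity
  have hxx' : x' = x + M * t := by rw [hx, hx']; ring
  have hxy : y ≤ x := by rw [hx]; linarith [hMz.1]
  have hx0 : 0 ≤ x := by linarith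
  have h2n : (1 : ℝ) ≤ 2 ^ (n + 2) := one_le_pow₀ (by norm_num)
  have hX4 : X = 4 * (2 ^ (n + 2) * y) := by rw [hX, pow_add, pow_add]; ring
  have hy2 : y ≤ 2 ^ (n + 2) * y := by nlinarith
  have hx'X : x' ≤ X := by
    rw [hX4, hx']
    linarith [hMz.2]
  have hX1 : 1 ≤ X := by linarith
  have hlX : 0 ≤ Real.log X := Real.log_nonneg hX1
  rw [← hX] at hlw ⊢
  have hG0 : ∀ k : ℤ, 0 ≤ thc X ((2 * (q : ℤ) + 1 + M * k).toNat) *
      W ((2 * (q : ℤ) + 1 + M * k).toNat) := fun k =>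
    mul_nonneg (AvgY_th_nonneg X _) (hWw _).1
  have hGB : ∀ k : ℤ, thc X ((2 * (q : ℤ) + 1 + M * k).toNat) *
      W ((2 * (q : ℤ) + 1 + M * k).toNat) ≤ Real.log X * w := fun k =>
    mul_le_mul (AvgY_th_le hX1 _) (hWw _).2 (hWw _).1 hlX
  have hcmp := AvgY_cmp (fun k : ℤ => thc X ((2 * (q : ℤ) + 1 + M * k).toNat) *
      W ((2 * (q : ℤ) + 1 + M * k).toNat)) hG0 hGB z t ht0.le
  have hbij := AvgY_bij hM W q X z t x x' ht0.le hx hx' hx0 hx'X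
  rw [hbij] at hcmp
  have hsp := AvgY_split B hB hMB W hW hWw (2 * q + 1) (x := x) (h := M * t) hx0 (by linarith)
  rw [← hxx'] at hsp
  have hph : ∑ b ∈ (Finset.range B).filter (fun b => Nat.Coprime b B), |RR B b (M * t) x| =
      M * t * ph B (M * t) x := by
    unfold ph
    field_simp
  have hph0 : 0 ≤ ph B (M * t) x := ph_nonneg B hMt0.le x
  rw [hph] at hsp
  rw [← hx]
  obtain ⟨D, hD⟩ : ∃ D, D = (M : ℝ) / B.totient *
        ∑ b ∈ (Finset.range B).filter (fun b => Nat.Coprime b B ∧ b ≡ 2 * q + 1 [MOD M]), W b :=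
    ⟨_, rfl⟩
  have hDD : M * t / B.totient *
        ∑ b ∈ (Finset.range B).filter (fun b => Nat.Coprime b B ∧ b ≡ 2 * q + 1 [MOD M]), W b =
      t * D := by
    rw [hD]
    ring
  rw [hDD] at hsp
  rw [← hD]
  obtain ⟨I, hI⟩ : ∃ I, I = ∫ s in (0 : ℝ)..t, thc X ((2 * (q : ℤ) + 1 + M * ⌊z + s⌋).toNat) *
        W ((2 * (q : ℤ) + 1 + M * ⌊z + s⌋).toNat) := ⟨_, rfl⟩
  rw [← hI] at hcmp ⊢
  obtain ⟨S, hS⟩ : ∃ S, S = ∑ p ∈ (Finset.Ioc ⌊x⌋₊ ⌊x'⌋₊).filter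
    (fun p => p.Prime ∧ p ≡ (2 * q + 1) [MOD M]), Real.log p * W p := ⟨_, rfl⟩
  rw [← hS] at hcmp hsp
  obtain ⟨F, hF⟩ : ∃ F, F = ph B (M * t) x := ⟨_, rfl⟩
  rw [← hF] at hsp hph0 ⊢
  have hfin : |I - t * D| ≤ 2 * (Real.log X * w) + w * (M * t * F) := by
    have : I - t * D = (I - S) + (S - t * D) := by ring
    rw [this]
    exact (abs_add_le _ _).trans (add_le_add hcmp hsp)
  have e1 : (1 / t) * I - D = (I - t * D) / t := by field_simp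
  rw [e1, abs_div, abs_of_pos ht0, div_le_iff₀ ht0]
  refine hfin.trans ?_
  have h3 : w * (M * t * F) ≤ w * (B * t * F) := by
    refine mul_le_mul_of_nonneg_left ?_ hw
    refine mul_le_mul_of_nonneg_right ?_ hph0
    exact mul_le_mul_of_nonneg_right hMle ht0.le
  have h4 : (w * B * F + y ^ (-(1 / 4) : ℝ)) * t = w * (B * t * F) + t * y ^ (-(1 / 4) : ℝ) := by
    ring
  rw [h4]
  linarith

end Pool.Agent.PCy
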