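import Pool.Agent.PCy.Defs

/-!
# Measurability, positivity and boundedness of the error functions

`RR B b h x` is a function of the two natural numbers `⌊x⌋₊`, `⌊x + h⌋₊` (`Nat.measurable_floor`, `measurable_of_countable`).  For
`0 ≤ x ≤ X` it is bounded by `(X + h) log(X + h + 2) + h`.  `ps` is measurable in `a`: `measurable_cl`, and a measurable function of
`(a, q)`, `q` in a countable type (`measurable_from_prod_countable_left` or `_right`).  `EE_int`: the integrand is measurable and bounded on `Cu m`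
(`cl_bdd`: the `cl` are at most `K`, so `ps` takes values in a bounded interval, where `ph` is bounded: `ph_bd`; `ph` is bounded also for
`x < 0`, there `⌊x⌋₊ = 0`).
`logsY`: `Real.log` against powers (`isLittleO_log_rpow_atTop`), `log(2^(n+4) y) = (n+4) log 2 + log y ≤ 2 log y`.
-/

namespace Pool.Agent.PCy

open MeasureTheory Pool.Agent.PCn Pool.Agent.PCx

theorem RR_meas (B b : ℕ) (h : ℝ) : Measurable (RR B b h) := by
  unfold RR
  refine Measurable.sub_const ?_ _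
  have h1 : Measurable (fun z : ℕ × ℕ => ∑ p ∈ (Finset.Ioc z.1 z.2).filter
      (fun p => p.Prime ∧ p ≡ b [MOD B]), Real.log p) := measurable_of_countable _
  have h2 : Measurable (fun x : ℝ => (⌊x⌋₊, ⌊x + h⌋₊)) :=
    Nat.measurable_floor.prodMk (Nat.measurable_floor.comp (measurable_id.add_const h))
  exact h1.comp h2

theorem ph_meas (B : ℕ) (h : ℝ) : Measurable (ph B h) := by
  unfold ph
  refine Measurable.const_mul ?_ _
  exact Finset.measurable_fun_sum _ fun b _ => continuous_abs.measurable.comp (RR_meas B b h)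

theorem ph_nonneg (B : ℕ) {h : ℝ} (hh : 0 ≤ h) (x : ℝ) : 0 ≤ ph B h x := by
  unfold ph
  exact mul_nonneg (div_nonneg zero_le_one hh) (Finset.sum_nonneg fun b _ => abs_nonneg _)

private theorem BasY_RR (B b : ℕ) (h X : ℝ) : ∃ K : ℝ, 0 ≤ K ∧ ∀ x : ℝ, x ≤ X → |RR B b h x| ≤ K := by
  refine ⟨∑ n ∈ Finset.range (⌊X + |h|⌋₊ + 1), |Real.log n| + |h / B.totient|, by positivity, ?_⟩
  intro x hx
  unfold RR
  refine (abs_sub _ _).trans (add_le_add ?_ le_rfl)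
  refine (Finset.abs_sum_le_sum_abs _ _).trans ?_
  refine Finset.sum_le_sum_of_subset_of_nonneg ?_ fun _ _ _ => abs_nonneg _
  intro p hp
  rw [Finset.mem_filter, Finset.mem_Ioc] at hp
  rw [Finset.mem_range]
  have h1 : ⌊x + h⌋₊ ≤ ⌊X + |h|⌋₊ := Nat.floor_mono (by linarith [le_abs_self h])
  omega

theorem ph_bd (B : ℕ) (h X : ℝ) : ∃ K : ℝ, 0 ≤ K ∧ ∀ x : ℝ, x ≤ X → |ph B h x| ≤ K := by
  choose K hK0 hK using fun b => BasY_RR B b h X
  refine ⟨|1 / h| * ∑ b ∈ (Finset.range B).filter (fun b => Nat.Coprime b B), K b,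
    mul_nonneg (abs_nonneg _) (Finset.sum_nonneg fun b _ => hK0 b), ?_⟩
  intro x hx
  unfold ph
  rw [abs_mul]
  refine mul_le_mul_of_nonneg_left ?_ (abs_nonneg _)
  rw [abs_of_nonneg (Finset.sum_nonneg fun b _ => abs_nonneg _)]
  exact Finset.sum_le_sum fun b _ => hK b x hx

theorem ps_meas (μ : ℕ → ℕ) (G ε : ℕ → ℝ) {m : ℕ} (p i : ℕ) :
    Measurable (fun a : Fin m → ℝ => ps μ (SS G ε a) p i) := by
  have h : Measurable (fun z : (Fin m → ℝ) × ℕ => 2 * (z.2 : ℝ) + 1 + SS G ε z.1 z.2) :=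
    measurable_from_prod_countable_left fun q =>
      (measurable_SS G ε (m := m) q).const_add (2 * (q : ℝ) + 1)
  exact h.comp (measurable_id.prodMk
    (measurable_cl μ (fun a : Fin m → ℝ => SS G ε a) (measurable_SS G ε) p i))

private theorem BasY_SS (G ε : ℕ → ℝ) (m q : ℕ) {a : Fin m → ℝ} (ha : a ∈ Cu m) :
    |SS G ε a q| ≤ |G q| + |ε q| * q * ∑ j : Fin m, |1 / Real.log q ^ (j : ℕ)| := by
  unfold SS pf
  refine (abs_add_le _ _).trans ?_
  apply add_le_add_right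
  rw [abs_mul, abs_mul, Nat.abs_cast]
  apply mul_le_mul_of_nonneg_left _ (by positivity)
  refine (Finset.abs_sum_le_sum_abs _ _).trans (Finset.sum_le_sum fun j _ => ?_)
  have h0 : (0 : ℝ) ≤ a j := ha.1 j
  have h1 : a j ≤ (1 : ℝ) := ha.2 j
  rw [abs_div, abs_div, abs_one, abs_of_nonneg h0]
  exact div_le_div_of_nonneg_right h1 (abs_nonneg _)

theorem ps_bdd (μ : ℕ → ℕ) (G ε : ℕ → ℝ) (m p i : ℕ) :
    ∃ K : ℝ, ∀ a ∈ Cu m, |ps μ (SS G ε a) p i| ≤ K := by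
  obtain ⟨K, hK⟩ := cl_bdd μ G ε m p i
  refine ⟨2 * K + 1 + ∑ q ∈ Finset.range (K + 1),
    (|G q| + |ε q| * q * ∑ j : Fin m, |1 / Real.log q ^ (j : ℕ)|), fun a ha => ?_⟩
  have hq := hK a ha
  unfold ps
  obtain ⟨q, hqd⟩ : ∃ q, q = cl μ (SS G ε a) p i := ⟨_, rfl⟩
  rw [← hqd] at hq ⊢
  have h1 := BasY_SS G ε m q ha
  have h2 : |G q| + |ε q| * q * ∑ j : Fin m, |1 / Real.log q ^ (j : ℕ)| ≤
      ∑ q ∈ Finset.range (K + 1),
        (|G q| + |ε q| * q * ∑ j : Fin m, |1 / Real.log q ^ (j : ℕ)|) :=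
    Finset.single_le_sum (f := fun q : ℕ =>
      |G q| + |ε q| * q * ∑ j : Fin m, |1 / Real.log q ^ (j : ℕ)|)
      (fun q _ => by positivity) (Finset.mem_range.mpr (by omega))
  have h3 : (q : ℝ) ≤ K := by exact_mod_cast hq
  have h4 : |2 * (q : ℝ) + 1 + SS G ε a q| ≤ (2 * (q : ℝ) + 1) + |SS G ε a q| := by
    refine (abs_add_le _ _).trans ?_
    rw [abs_of_nonneg (show (0 : ℝ) ≤ 2 * (q : ℝ) + 1 by positivity)]
  linarith

private theorem BasY_cu (m : ℕ) : MeasurableSet (Cu m) ∧ volume (Cu m) < ⊤ := by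
  constructor
  · unfold Cu
    exact measurableSet_Icc
  · unfold Cu
    exact isCompact_Icc.measure_lt_top

theorem phps_int (B : ℕ) (h : ℝ) (μ : ℕ → ℕ) (G ε : ℕ → ℝ) (m p i : ℕ) :
    IntegrableOn (fun a : Fin m → ℝ => ph B h (ps μ (SS G ε a) p i)) (Cu m) := by
  obtain ⟨K, hK⟩ := ps_bdd μ G ε m p i
  obtain ⟨K', hK0, hK'⟩ := ph_bd B h K
  obtain ⟨hm, hv⟩ := BasY_cu m
  refine Measure.integrableOn_of_bounded (M := K') hv.ne
    ((ph_meas B h).comp (ps_meas μ G ε p i)).aestronglyMeasurable ?_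
  refine (ae_restrict_iff' hm).2 (Filter.Eventually.of_forall fun a ha => ?_)
  rw [Real.norm_eq_abs]
  exact hK' _ ((le_abs_self _).trans (hK a ha))

theorem EE_eq (θ : ℝ) (B n m : ℕ) (G : ℕ → ℝ) (μ : ℕ → ℕ) (y : ℝ) (p : ℕ) :
    EE θ B n m G μ y p = ∑ i ∈ Finset.range n,
      ∫ a in Cu m, ph B (μ i * ty θ y) (ps μ (SS G (ep θ) a) p i) := by
  unfold EE
  exact integral_finsetSum _ fun i _ => phps_int B _ μ G (ep θ) m p i

theorem EE_nonneg (θ : ℝ) (B n m : ℕ) (G : ℕ → ℝ) (μ : ℕ → ℕ) {y : ℝ} (hy : 0 ≤ y) (p : ℕ) :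
    0 ≤ EE θ B n m G μ y p := by
  unfold EE
  refine integral_nonneg fun a => Finset.sum_nonneg fun i _ => ?_
  refine ph_nonneg B (mul_nonneg (Nat.cast_nonneg _) ?_) _
  unfold ty
  exact Real.rpow_nonneg hy _

theorem ty_pos (θ : ℝ) {y : ℝ} (hy : 0 < y) : 0 < ty θ y := Real.rpow_pos_of_pos hy _

theorem logsY (n K : ℕ) (c : ℝ) (hc : 0 < c) : ∃ Y : ℝ, 3 ≤ Y ∧ ∀ y ≥ Y,
    1 ≤ Real.log (2 ^ (n + 4) * y) ∧ Real.log (2 ^ (n + 4) * y) ≤ 2 * Real.log y ∧
      1 ≤ Real.log y ∧ Real.log (2 ^ (n + 4) * y) ^ K ≤ y ^ c := by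
  have h0 := (isLittleO_log_rpow_rpow_atTop ((K : ℕ) : ℝ) hc).def
    (show (0 : ℝ) < 1 / 2 ^ K by positivity)
  obtain ⟨Y, hY⟩ := Filter.eventually_atTop.1 h0
  refine ⟨max (max 3 (2 ^ (n + 4))) Y, (le_max_left _ _).trans (le_max_left _ _), ?_⟩
  intro y hy
  have hy3 : 3 ≤ y := ((le_max_left _ _).trans (le_max_left _ _)).trans hy
  have hy2 : (2 : ℝ) ^ (n + 4) ≤ y := ((le_max_right _ _).trans (le_max_left _ _)).trans hy
  have hyY := hY y ((le_max_right _ _).trans hy)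
  have hy0 : 0 < y := by linarith
  have h1 : 1 ≤ Real.log y := by
    rw [Real.le_log_iff_exp_le hy0]
    have := Real.exp_one_lt_d9
    linarith
  have hp : (1 : ℝ) ≤ 2 ^ (n + 4) := one_le_pow₀ (by norm_num)
  have h2 : Real.log (2 ^ (n + 4) * y) = Real.log (2 ^ (n + 4)) + Real.log y :=
    Real.log_mul (by positivity) hy0.ne'
  have h3 : 0 ≤ Real.log ((2 : ℝ) ^ (n + 4)) := Real.log_nonneg hp
  have h4 : Real.log ((2 : ℝ) ^ (n + 4)) ≤ Real.log y := Real.log_le_log (by positivity) hy2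
  refine ⟨by linarith, by linarith, h1, ?_⟩
  have h5 : Real.log (2 ^ (n + 4) * y) ^ K ≤ (2 * Real.log y) ^ K :=
    pow_le_pow_left₀ (by linarith) (by linarith) K
  rw [Real.rpow_natCast, Real.norm_of_nonneg (by positivity),
    Real.norm_of_nonneg (Real.rpow_nonneg hy0.le _)] at hyY
  have h6 : (2 * Real.log y) ^ K ≤ y ^ c := by
    rw [mul_pow]
    have h7 : (0 : ℝ) < 2 ^ K := by positivity
    calc 2 ^ K * Real.log y ^ K ≤ 2 ^ K * (1 / 2 ^ K * y ^ c) :=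
          mul_le_mul_of_nonneg_left hyY h7.le
      _ = y ^ c := by field_simp
  exact h5.trans h6

end Pool.Agent.PCy
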