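import Pool.Agent.PCx.Defs
import Pool.Agent.PCx.Bas

/-!
# Perturbations of `q ↦ 2q + 1` of the size `q^θ`, `θ > 1/2`: definitions

Project PCy.  `1/2 < θ < 1`.  Map: `q ↦ 2q + 1 + (the largest multiple of M(q) below S q)`,
`S q = G q + q^θ ∑_j a_j / (log q)^j`, `|G q| ≤ c q^θ` arbitrary, `M(q)` slowly growing, divisible by every `d > 0` for large `q`
(the functions `MM Z` of PCx).  THEOREM (`MainY.lean`): for almost every `(a_j)` in the box, for every `k` the number of the primes
`p ≤ x` which start a chain of exact length `k` is `~ C_k x/(log x)^k` with the Bateman-Horn constant `C_k` of the Cunningham chains.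

METHOD.  As in PCx (windows `y < p ≤ r y`, first and second moment over the cube of the parameters `a_0, ..., a_{m-1}`, `m ≥ 2n`,
motion of the parameters along an interpolation vector which does not change the past of the chains), but the length of
the motion is now `t = y^τ`, `τ = (θ + 1/2)/2 > 1/2`, the nodes are separated by `y^(1-η)`, `η = eta θ m`
(deterministic: `c_i = 2^i p + O(y^θ)`, so `|c_i - c'_i| ≥ y^(1-η)` if `|p - p'| ≥ 2 y^(1-η)`), and instead of the prime number theorem
for short intervals we only have it for almost all short intervals (`Short.lean`):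
`RR B b h x = ∑_{x < p ≤ x+h, p ≡ b (B)} log p - h/φ(B)`, `∫_X^{2X} RR² ≤ X h² (log X)^(-A)` for `X^θ' ≤ h ≤ X`.  The average over
the motion of the term of index `i + 1` is over the interval `(x, x + μ_i t]`, `x = ps μ S p i = 2 c_i + 1 + S(c_i)`, so its error is
at most `C ph B (μ_i t) x`, `ph = (1/h) ∑_b |RR B b h x|`.  DENSITY LEMMA (`DenY.lean`): for `φ ≥ 0` the mean value over the cube of
`φ (ps μ S p i)` is at most `(log y)^C y^(-θ)` times the integral of `φ` over an interval of length `O(y^θ)` around `2^(i+1) p`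
(move along the vector whose nodes are `c_0, ..., c_{i-1}`; they are separated by `y/4`, so we may move by `y^θ (log y)^(-C)`).  Therefore
`∑_p ∫ ph(ps μ S p i) da ≤ (log y)^C ∫_y^{2^(n+3) y} ph ≤ y (log y)^(-A)` (`ErrY.lean`), which controls all the errors in the first
and second moments.
-/

namespace Pool.Agent.PCy

open Filter Topology Pool.Agent.PCn Pool.Agent.PCx

/-- the relative size of the perturbation: `pf (ep θ) a q = q^θ ∑_j a_j / (log q)^j` for `q > 0` -/
noncomputable def ep (θ : ℝ) (q : ℕ) : ℝ := (q : ℝ) ^ (θ - 1)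

/-- the exponent of the separation of the nodes -/
noncomputable def eta (θ : ℝ) (m : ℕ) : ℝ := min ((θ - 1 / 2) / (2 * (m + 1))) ((1 - θ) / 2)

/-- the length of the motion (of `S / M`) -/
noncomputable def ty (θ y : ℝ) : ℝ := y ^ ((θ + 1 / 2) / 2)

/-- the admissible base functions -/
def Ad (c θ : ℝ) (G : ℕ → ℝ) : Prop := ∀ q : ℕ, |G q| ≤ c * (q : ℝ) ^ θ

/-- a cube which is larger than `Cu m` -/
def Cx (m : ℕ) : Set (Fin m → ℝ) := Set.Icc (fun _ => -1) (fun _ => 2)

/-- the error of the prime number theorem in the short interval `(x, x + h]` in the class `b` modulo `B` -/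
noncomputable def RR (B b : ℕ) (h x : ℝ) : ℝ :=
  ∑ p ∈ (Finset.Ioc ⌊x⌋₊ ⌊x + h⌋₊).filter (fun p => p.Prime ∧ p ≡ b [MOD B]), Real.log p -
    h / B.totient

/-- the mean error over the classes -/
noncomputable def ph (B : ℕ) (h x : ℝ) : ℝ :=
  1 / h * ∑ b ∈ (Finset.range B).filter (fun b => Nat.Coprime b B), |RR B b h x|

/-- the position of the term of index `i + 1` of the chain of `p` before rounding -/
noncomputable def ps (μ : ℕ → ℕ) (S : ℕ → ℝ) (p i : ℕ) : ℝ :=
  2 * (cl μ S p i : ℝ) + 1 + S (cl μ S p i)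

/-- the mean error along the chain of `p` -/
noncomputable def EE (θ : ℝ) (B n m : ℕ) (G : ℕ → ℝ) (μ : ℕ → ℕ) (y : ℝ) (p : ℕ) : ℝ :=
  ∫ a in Cu m, ∑ i ∈ Finset.range n, ph B (μ i * ty θ y) (ps μ (SS G (ep θ) a) p i)

theorem eta_pos {θ : ℝ} (h : 1 / 2 < θ) (h1 : θ < 1) (m : ℕ) : 0 < eta θ m := by
  unfold eta
  refine lt_min (div_pos (by linarith) (by positivity)) (by linarith)

theorem eta_le {θ : ℝ} (m : ℕ) : eta θ m ≤ (1 - θ) / 2 := min_le_right _ _

theorem eta_le' {θ : ℝ} (m : ℕ) : eta θ m ≤ (θ - 1 / 2) / (2 * (m + 1)) := min_le_left _ _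

theorem Cu_sub (m : ℕ) : Cu m ⊆ Cx m := by
  intro a ha
  unfold Cu at ha
  unfold Cx
  rw [Set.mem_Icc] at ha ⊢
  refine ⟨fun j => ?_, fun j => ?_⟩
  · have := ha.1 j
    simp only [Pi.zero_apply] at this
    linarith
  · have := ha.2 j
    simp only [Pi.one_apply] at this
    linarith

end Pool.Agent.PCy
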