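import Pool.Agent.PCy.GroY
import Pool.Agent.PCy.FlowY
import Pool.Agent.PCn.Interp
import Pool.Agent.PCx.StepU

/-!
# The density lemma

`π a = (c_0, ..., c_i)` (in `Fin (i + 1) → ℕ`, as in `Pool/Agent/PCx/TwoX.lean`), nodes `c_0, ..., c_{i-1}`, moving node `q = c_i`,
`ℓ a = SS G (ep θ) a (c_i)`.  For `π a` in the set `R` of the values of `π` on the cube `Cx m` (where `growY` applies): the nodes have
distance `≥ (7/8 - 5/8) 2^i y ≥ y/4` from `c_i`, so `interp` (`Y := 2^(n+2) y`, `D := y/4`, `e := ep θ (c_i)`, `i ≤ m - 1` nodes) gives `v` with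
`|v_j| ≤ (2^(n+5) log(2^(n+2) y)^2)^i / c_i^θ ≤ ρ := 2 (2^(n+5) log(2^(n+2) y)^2)^n / y^θ`; for the other values of `π` let `v = 0`.
`H u z = 1[u ∈ R] φ(2 (u i) + 1 + z)`, `t = 1/(4ρ) = y^θ/(8 (...)^n)`.  `flowD` gives
`∫_{Cu m} φ(ps) ≤ ∫_{Icc (-1/4) (5/4)} (1/t) ∫_0^t H (π a) (ℓ a + s) ds da`.  For `a ∈ Icc (-1/4) (5/4) ⊆ Cx m`: `2 c_i + 1 + ℓ a + s` lies in
`[2^(i+1) p - K y^θ, 2^(i+1) p + K y^θ]` (`growY`: `|c_i - 2^i p| ≤ K' y^θ`, `|ℓ a| ≤ K' y^θ`, `0 ≤ s ≤ t ≤ y^θ`, `1 ≤ y^θ`; `K = 3 K' + 2`), so the inner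
integral is at most the integral of `φ` over that interval, and the volume of `Icc (-1/4) (5/4)` is `(3/2)^m`.  The factor
`(3/2)^m 8 (2^(n+5) log(2^(n+2) y)^2)^n` is at most `(log y)^(2n+1)` for large `y`.
`pf`-values are affine in the parameters: `StepU_SS` (private) in `Pool/Agent/PCx/StepU.lean`.
-/

namespace Pool.Agent.PCy

open MeasureTheory Pool.Agent.PCn Pool.Agent.PCx

private theorem DenY_SS (G ε : ℕ → ℝ) {m : ℕ} (a v : Fin m → ℝ) (s : ℝ) (r : ℕ) :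
    SS G ε (a + s • v) r =
      SS G ε a r + s * (ε r * r * ∑ j : Fin m, v j / Real.log r ^ (j : ℕ)) := by
  unfold SS pf
  have e1 : ∑ j : Fin m, (a + s • v) j / Real.log r ^ (j : ℕ) =
      ∑ j : Fin m, a j / Real.log r ^ (j : ℕ) + s * ∑ j : Fin m, v j / Real.log r ^ (j : ℕ) := by
    rw [Finset.mul_sum, ← Finset.sum_add_distrib]
    refine Finset.sum_congr rfl fun j _ => ?_
    simp only [Pi.add_apply, Pi.smul_apply, smul_eq_mul]
    ring
  rw [e1]
  ring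

private theorem DenY_ep (θ : ℝ) (q : ℕ) : ep θ q = (q : ℝ) ^ (θ - 1) := rfl

private theorem DenY_meas (G ε : ℕ → ℝ) {m : ℕ} {ι : Type} [Countable ι] [MeasurableSpace ι]
    [MeasurableSingletonClass ι] (π : (Fin m → ℝ) → ι) (hπ : Measurable π) (q : ι → ℕ) :
    Measurable fun a : Fin m → ℝ => SS G ε a (q (π a)) := by
  unfold SS pf
  have h1 : ∀ g : ι → ℝ, Measurable fun a : Fin m → ℝ => g (π a) := fun g =>
    (measurable_of_countable g).comp hπ
  refine (h1 fun i => G (q i)).add ((h1 fun i => ε (q i) * q i).mul ?_)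
  refine Finset.measurable_sum _ fun j _ => ?_
  exact (measurable_pi_apply j).div (h1 fun i => Real.log (q i) ^ (j : ℕ))

/-- the numerical facts for large `y` -/
private theorem DenY_ev (n m : ℕ) : ∃ Y : ℝ, 4 ≤ Y ∧ ∀ y ≥ Y,
    1 ≤ Real.log (2 ^ (n + 2) * y) ∧
    (3 / 2 : ℝ) ^ m * (8 * (2 ^ (n + 5) * Real.log (2 ^ (n + 2) * y) ^ 2) ^ n) ≤
      Real.log y ^ (2 * n + 1) := by
  have e1 : ∀ᶠ y : ℝ in Filter.atTop, (3 / 2 : ℝ) ^ m * 8 * (2 ^ (n + 7)) ^ n ≤ Real.log y :=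
    Real.tendsto_log_atTop.eventually_ge_atTop _
  have e2 : ∀ᶠ y : ℝ in Filter.atTop, Real.log (2 ^ (n + 2)) ≤ Real.log y :=
    Real.tendsto_log_atTop.eventually_ge_atTop _
  have e3 : ∀ᶠ y : ℝ in Filter.atTop, 1 ≤ Real.log y :=
    Real.tendsto_log_atTop.eventually_ge_atTop _
  obtain ⟨Y0, hY0⟩ := Filter.eventually_atTop.1 (e1.and (e2.and e3))
  refine ⟨max Y0 4, le_max_right _ _, ?_⟩
  intro y hy
  obtain ⟨h1, h2, h3⟩ := hY0 y ((le_max_left _ _).trans hy)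
  have hy0 : 0 < y := by
    have := (le_max_right Y0 4).trans hy
    linarith
  have hx : Real.log (2 ^ (n + 2) * y) = Real.log (2 ^ (n + 2)) + Real.log y := by
    rw [Real.log_mul (by positivity) hy0.ne']
  have hc0 : 0 ≤ Real.log (2 ^ (n + 2)) := Real.log_nonneg (one_le_pow₀ (by norm_num))
  obtain ⟨L, hL⟩ : ∃ L, L = Real.log y := ⟨_, rfl⟩
  obtain ⟨X, hX⟩ : ∃ X, X = Real.log (2 ^ (n + 2) * y) := ⟨_, rfl⟩
  rw [← hX, ← hL] at hx
  rw [← hL] at h1 h2 h3
  rw [← hX, ← hL]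
  have hX1 : 1 ≤ X := by linarith
  refine ⟨hX1, ?_⟩
  have hX2 : X ≤ 2 * L := by linarith
  have g1 : (2 : ℝ) ^ (n + 5) * X ^ 2 ≤ 2 ^ (n + 7) * L ^ 2 := by
    have g2 : X ^ 2 ≤ (2 * L) ^ 2 := pow_le_pow_left₀ (by linarith) hX2 2
    have g3 := mul_le_mul_of_nonneg_left g2 (show (0 : ℝ) ≤ 2 ^ (n + 5) by positivity)
    refine g3.trans (le_of_eq ?_)
    ring
  have g4 : (2 ^ (n + 5) * X ^ 2) ^ n ≤ (2 ^ (n + 7) * L ^ 2) ^ n :=
    pow_le_pow_left₀ (by positivity) g1 n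
  calc (3 / 2 : ℝ) ^ m * (8 * (2 ^ (n + 5) * X ^ 2) ^ n)
      ≤ (3 / 2 : ℝ) ^ m * (8 * (2 ^ (n + 7) * L ^ 2) ^ n) := by gcongr
    _ = ((3 / 2 : ℝ) ^ m * 8 * (2 ^ (n + 7)) ^ n) * L ^ (2 * n) := by
        rw [mul_pow, ← pow_mul L 2 n]
        ring
    _ ≤ L * L ^ (2 * n) := mul_le_mul_of_nonneg_right h1 (by positivity)
    _ = L ^ (2 * n + 1) := by ring

private theorem DenY_rpow {θ : ℝ} (h0 : 0 ≤ θ) (h1 : θ < 1) {y q : ℝ} (hy : 0 < y)
    (hq : 7 / 8 * y ≤ q) : y ^ θ / 2 ≤ q ^ θ := by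
  have e1 : (7 / 8 * y) ^ θ ≤ q ^ θ := Real.rpow_le_rpow (by positivity) hq h0
  have e2 : (7 / 8 * y) ^ θ = (7 / 8 : ℝ) ^ θ * y ^ θ := Real.mul_rpow (by norm_num) hy.le
  have e3 : (7 / 8 : ℝ) ^ (1 : ℝ) ≤ (7 / 8 : ℝ) ^ θ :=
    Real.rpow_le_rpow_of_exponent_ge (by norm_num) (by norm_num) h1.le
  rw [Real.rpow_one] at e3
  have e4 : 0 < y ^ θ := Real.rpow_pos_of_pos hy θ
  nlinarith

/-- integral of a bounded function over a sliding interval -/
private theorem DenY_slide (φ : ℝ → ℝ) (hφ : Measurable φ) (hφ0 : ∀ x, 0 ≤ φ x) {M : ℝ}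
    (hM : ∀ x, φ x ≤ M) {w t A B : ℝ} (ht : 0 ≤ t) (hA : A ≤ w) (hB : w + t ≤ B) :
    (∫ s in (0 : ℝ)..t, φ (w + s)) ≤ ∫ x in Set.Icc A B, φ x := by
  rw [intervalIntegral.integral_comp_add_left (fun u => φ u) w, add_zero,
    intervalIntegral.integral_of_le (by linarith)]
  refine setIntegral_mono_set ?_ (Filter.Eventually.of_forall hφ0) ?_
  · refine IntegrableOn.of_bound ?_ hφ.aestronglyMeasurable M ?_
    · rw [Real.volume_Icc]
      exact ENNReal.ofReal_lt_top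
    · refine Filter.Eventually.of_forall fun x => ?_
      rw [Real.norm_of_nonneg (hφ0 x)]
      exact hM x
  · refine (Set.Ioc_subset_Icc_self.trans (Set.Icc_subset_Icc hA hB)).eventuallyLE

theorem denY (c : ℝ) {θ : ℝ} (h : 1 / 2 < θ) (h1 : θ < 1) (B n m : ℕ) (hB : 0 < B) (hm : n ≤ m) :
    ∃ K Y : ℝ, 0 < K ∧ 3 ≤ Y ∧ ∀ y ≥ Y, ∀ G : ℕ → ℝ, Ad c θ G → ∀ μ : ℕ → ℕ, (∀ i, μ i ∣ B) →
      ∀ p : ℕ, y < p → (p : ℝ) ≤ 11 / 10 * y → ∀ i < n, ∀ φ : ℝ → ℝ, Measurable φ →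
      (∀ x, 0 ≤ φ x) → (∃ M, ∀ x, φ x ≤ M) →
      (∫ a in Cu m, φ (ps μ (SS G (ep θ) a) p i)) ≤ Real.log y ^ (2 * n + 1) / y ^ θ *
        ∫ x in Set.Icc (2 ^ (i + 1) * (p : ℝ) - K * y ^ θ) (2 ^ (i + 1) * (p : ℝ) + K * y ^ θ),
          φ x := by
  classical
  obtain ⟨K, Y1, hK0, hY1, H1⟩ := growY c h h1 B n m hB
  obtain ⟨Y2, hY2, H2⟩ := DenY_ev n m
  refine ⟨3 * K + 2, max Y1 Y2, by positivity, le_max_of_le_left hY1, ?_⟩
  intro y hy G hG μ hμ p hp hp1 i hi φ hφ hφ0 hM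
  obtain ⟨M, hM⟩ := hM
  have hy1 : Y1 ≤ y := (le_max_left _ _).trans hy
  have hy2 : Y2 ≤ y := (le_max_right _ _).trans hy
  have hy4 : 4 ≤ y := hY2.trans hy2
  have hy0 : 0 < y := by linarith
  have hgr := H1 y hy1 G hG
  obtain ⟨hX1, hnum⟩ := H2 y hy2
  obtain ⟨X, hX⟩ : ∃ X, X = Real.log (2 ^ (n + 2) * y) := ⟨_, rfl⟩
  rw [← hX] at hX1 hnum
  obtain ⟨P, hP⟩ : ∃ P, P = (2 ^ (n + 5) * X ^ 2) ^ n := ⟨_, rfl⟩
  rw [← hP] at hnum
  have hbase : (1 : ℝ) ≤ 2 ^ (n + 5) * X ^ 2 := by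
    have g1 : (1 : ℝ) ≤ 2 ^ (n + 5) := one_le_pow₀ (by norm_num)
    have g2 : (1 : ℝ) ≤ X ^ 2 := one_le_pow₀ hX1
    nlinarith
  have hP1 : 1 ≤ P := by
    rw [hP]
    exact one_le_pow₀ hbase
  have hyθ : 0 < y ^ θ := Real.rpow_pos_of_pos hy0 θ
  have hyθ1 : 1 ≤ y ^ θ := Real.one_le_rpow (by linarith) (by linarith)
  obtain ⟨ρ, hρ⟩ : ∃ ρ, ρ = 2 * P / y ^ θ := ⟨_, rfl⟩
  have hρ0 : 0 < ρ := by rw [hρ]; positivity
  obtain ⟨t, ht⟩ : ∃ t, t = y ^ θ / (8 * P) := ⟨_, rfl⟩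
  have ht0 : 0 < t := by rw [ht]; positivity
  have htρ : t * ρ ≤ 1 / 4 := by
    rw [ht, hρ]
    have : y ^ θ / (8 * P) * (2 * P / y ^ θ) = 1 / 4 := by
      field_simp
      norm_num
    rw [this]
  have hty : t ≤ y ^ θ := by
    rw [ht, div_le_iff₀ (by positivity)]
    nlinarith
  -- the past
  obtain ⟨π, hπ⟩ : ∃ π : (Fin m → ℝ) → (Fin (i + 1) → ℕ),
      π = fun a => fun j : Fin (i + 1) => cl μ (SS G (ep θ) a) p j := ⟨_, rfl⟩
  have hπm : Measurable π := by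
    rw [hπ]
    exact measurable_pi_lambda _ fun j => measurable_cl μ _ (fun q => measurable_SS G (ep θ) q) p j
  obtain ⟨R, hR⟩ : ∃ R : (Fin (i + 1) → ℕ) → Prop, R = fun u => ∃ a ∈ Cx m, π a = u := ⟨_, rfl⟩
  have hRa : ∀ a ∈ Cx m, R (π a) := fun a ha => by
    rw [hR]
    exact ⟨a, ha, rfl⟩
  have hq : ∀ a, (π a) (Fin.last i) = cl μ (SS G (ep θ) a) p i := fun a => by
    rw [hπ]
    rfl
  have hq' : ∀ a (j : Fin i), (π a) j.castSucc = cl μ (SS G (ep θ) a) p j := fun a j => by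
    rw [hπ]
    rfl
  -- the vectors
  have hex : ∀ u : Fin (i + 1) → ℕ, ∃ v : Fin m → ℝ, (∀ j, |v j| ≤ ρ) ∧
      (∀ j : Fin i, ∑ k : Fin m, v k / Real.log (u j.castSucc) ^ (k : ℕ) = 0) ∧
      (R u → ep θ (u (Fin.last i)) * (u (Fin.last i) : ℕ) *
        ∑ k : Fin m, v k / Real.log (u (Fin.last i)) ^ (k : ℕ) = 1) := by
    intro u
    by_cases hRu : R u
    · have hRu' := hRu
      rw [hR] at hRu'
      obtain ⟨a, ha, rfl⟩ := hRu'
      have g := fun j hj => hgr a ha μ hμ p hp hp1 j hj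
      have hpow : ∀ j ≤ n, (2 : ℝ) ^ j ≤ 2 ^ n := fun j hj => pow_le_pow_right₀ one_le_two hj
      have hpow1 : ∀ j : ℕ, (1 : ℝ) ≤ 2 ^ j := fun j => one_le_pow₀ one_le_two
      have hlow : ∀ j ≤ n, 7 / 8 * y ≤ (cl μ (SS G (ep θ) a) p j : ℝ) := by
        intro j hj
        refine le_trans ?_ (g j hj).2.2.1
        have := mul_le_mul_of_nonneg_right (hpow1 j) hy0.le
        linarith
      have hupp : ∀ j ≤ n, (cl μ (SS G (ep θ) a) p j : ℝ) ≤ 2 ^ (n + 2) * y := by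
        intro j hj
        refine (g j hj).2.2.2.1.trans ?_
        have h3 := mul_le_mul_of_nonneg_right (hpow j hj) hy0.le
        have h2 : (0 : ℝ) < 2 ^ n * y := by positivity
        rw [pow_add]
        linarith
      have h3 : ∀ j ≤ n, 3 ≤ cl μ (SS G (ep θ) a) p j := by
        intro j hj
        have h4 := hlow j hj
        have : (3 : ℝ) ≤ (cl μ (SS G (ep θ) a) p j : ℝ) := by linarith
        exact_mod_cast this
      have hdist : ∀ j < i, y / 4 ≤ |(cl μ (SS G (ep θ) a) p j : ℝ) -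
          (cl μ (SS G (ep θ) a) p i : ℝ)| := by
        intro j hj
        have h4 := (g i hi.le).2.2.1
        have h5 := (g j (by omega)).2.2.2.1
        have h6 : (2 : ℝ) ^ j * 2 ≤ 2 ^ i := by
          rw [← pow_succ]
          exact pow_le_pow_right₀ one_le_two hj
        have h7 := mul_le_mul_of_nonneg_right h6 hy0.le
        have h8 := mul_le_mul_of_nonneg_right (hpow1 i) hy0.le
        rw [abs_sub_comm]
        refine le_trans ?_ (le_abs_self _)
        linarith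
      have hcard : ((Finset.univ : Finset (Fin i)).image fun j => (π a) j.castSucc).card ≤ i := by
        refine Finset.card_image_le.trans ?_
        rw [Finset.card_univ, Fintype.card_fin]
      obtain ⟨v, hv1, hv2, hv3⟩ := interp (m := m)
        ((Finset.univ : Finset (Fin i)).image fun j => (π a) j.castSucc) ((π a) (Fin.last i))
        (lt_of_le_of_lt hcard (by omega)) (2 ^ (n + 2) * y) (y / 4) (ep θ ((π a) (Fin.last i)))
        (by rw [hq]; exact h3 i hi.le) (by rw [hq]; exact hupp i hi.le)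
        (fun r hr => by
          obtain ⟨j, -, rfl⟩ := Finset.mem_image.1 hr
          rw [hq']
          exact ⟨h3 j (by omega), hupp j (by omega)⟩) (by positivity)
        (fun r hr => by
          obtain ⟨j, -, rfl⟩ := Finset.mem_image.1 hr
          rw [hq', hq]
          exact hdist j j.2)
        (by
          rw [hq, DenY_ep]
          refine Real.rpow_pos_of_pos ?_ _
          have := hlow i hi.le
          linarith)
      refine ⟨v, fun j => (hv3 j).trans ?_, fun j => hv1 _ (Finset.mem_image.2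
        ⟨j, Finset.mem_univ _, rfl⟩), fun _ => hv2⟩
      have hBase : 2 * (2 ^ (n + 2) * y) * Real.log (2 ^ (n + 2) * y) ^ 2 / (y / 4) =
          2 ^ (n + 5) * X ^ 2 := by
        rw [← hX]
        field_simp
        ring
      rw [hBase]
      have hqpos : 0 < (cl μ (SS G (ep θ) a) p i : ℝ) := by
        have := hlow i hi.le
        linarith
      have heq : ep θ ((π a) (Fin.last i)) * ((π a) (Fin.last i) : ℕ) =
          (cl μ (SS G (ep θ) a) p i : ℝ) ^ θ := by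
        rw [hq, DenY_ep, Real.rpow_sub_one hqpos.ne', div_mul_cancel₀ _ hqpos.ne']
      rw [heq]
      have hP' : (2 ^ (n + 5) * X ^ 2) ^
          ((Finset.univ : Finset (Fin i)).image fun j => (π a) j.castSucc).card ≤ P := by
        rw [hP]
        exact pow_le_pow_right₀ hbase (hcard.trans hi.le)
      have hq2 := DenY_rpow (by linarith) h1 hy0 (hlow i hi.le)
      calc (2 ^ (n + 5) * X ^ 2) ^
          ((Finset.univ : Finset (Fin i)).image fun j => (π a) j.castSucc).card /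
            (cl μ (SS G (ep θ) a) p i : ℝ) ^ θ
          ≤ P / (cl μ (SS G (ep θ) a) p i : ℝ) ^ θ :=
            div_le_div_of_nonneg_right hP' (by positivity)
        _ ≤ P / (y ^ θ / 2) := by
            apply div_le_div_of_nonneg_left (by linarith) (by positivity) hq2
        _ = ρ := by
            rw [hρ]
            field_simp
    · exact ⟨0, fun j => by simpa using hρ0.le, fun r => by simp, fun h => absurd h hRu⟩
  choose v hv1 hv2 hv3 using hex
  have hinv : ∀ (a : Fin m → ℝ) (s : ℝ), π (a + s • v (π a)) = π a := by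
    intro a s
    have key : ∀ j ≤ i, cl μ (SS G (ep θ) (a + s • v (π a))) p j = cl μ (SS G (ep θ) a) p j := by
      refine cl_congr fun j hj => ?_
      rw [DenY_SS]
      have h2 := hv2 (π a) ⟨j, hj⟩
      rw [hq' a ⟨j, hj⟩] at h2
      simp only at h2
      rw [h2]
      ring
    funext j
    rw [hπ] at key ⊢
    exact key j (Nat.lt_succ_iff.1 j.2)
  obtain ⟨H, hH⟩ : ∃ H : (Fin (i + 1) → ℕ) → ℝ → ℝ, H = fun u z =>
      if R u then φ (2 * (u (Fin.last i) : ℝ) + 1 + z) else 0 := ⟨_, rfl⟩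
  have hHm : ∀ u, Measurable (H u) := by
    intro u
    rw [hH]
    simp only
    split_ifs
    · exact hφ.comp (measurable_const.add measurable_id)
    · exact measurable_const
  have hM0 : 0 ≤ M := (hφ0 0).trans (hM 0)
  have hHb : ∀ u z, |H u z| ≤ M := by
    intro u z
    rw [hH]
    simp only
    split_ifs
    · rw [abs_of_nonneg (hφ0 _)]
      exact hM _
    · rw [abs_zero]
      exact hM0
  have hH0 : ∀ u z, 0 ≤ H u z := by
    intro u z
    rw [hH]
    simp only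
    split_ifs
    · exact hφ0 _
    · exact le_rfl
  have hslide : ∀ (a : Fin m → ℝ) (s : ℝ), (∃ z, H (π a) z ≠ 0) →
      (fun a : Fin m → ℝ => SS G (ep θ) a ((π a) (Fin.last i))) (a + s • v (π a)) =
        (fun a : Fin m → ℝ => SS G (ep θ) a ((π a) (Fin.last i))) a + s := by
    rintro a s ⟨z, hz⟩
    have hRu : R (π a) := by
      by_contra h0
      apply hz
      rw [hH]
      simp only
      rw [if_neg h0]
    simp only
    rw [hinv a s, DenY_SS, hv3 (π a) hRu, mul_one]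
  have hflow := flowD π hπm v ρ hρ0.le hv1 hinv
    (fun a : Fin m → ℝ => SS G (ep θ) a ((π a) (Fin.last i)))
    (DenY_meas G (ep θ) π hπm fun u => u (Fin.last i)) H hHm M hHb hH0 hslide t ht0 htρ
  have hL : (∫ a in Set.Icc (0 : Fin m → ℝ) 1, H (π a) (SS G (ep θ) a ((π a) (Fin.last i)))) =
      ∫ a in Cu m, φ (ps μ (SS G (ep θ) a) p i) := by
    unfold Cu
    refine setIntegral_congr_fun measurableSet_Icc fun a ha => ?_
    have h2 := hRa a (Cu_sub m ha)
    rw [hH]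
    simp only
    rw [if_pos h2, hq]
    rfl
  obtain ⟨J, hJ⟩ : ∃ J, J = ∫ x in Set.Icc (2 ^ (i + 1) * (p : ℝ) - (3 * K + 2) * y ^ θ)
      (2 ^ (i + 1) * (p : ℝ) + (3 * K + 2) * y ^ θ), φ x := ⟨_, rfl⟩
  have hJ0 : 0 ≤ J := by
    rw [hJ]
    exact setIntegral_nonneg measurableSet_Icc fun x _ => hφ0 x
  have hin : ∀ a ∈ Set.Icc (fun _ : Fin m => (-(1 / 4) : ℝ)) (fun _ => 5 / 4),
      ‖(1 / t) * (∫ s in (0 : ℝ)..t, H (π a) (SS G (ep θ) a ((π a) (Fin.last i)) + s))‖ ≤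
        (1 / t) * J := by
    intro a ha
    have hax : a ∈ Cx m := by
      unfold Cx
      refine ⟨fun j => ?_, fun j => ?_⟩
      · have := ha.1 j
        simp only at this ⊢
        linarith
      · have := ha.2 j
        simp only at this ⊢
        linarith
    obtain ⟨g1, g2, -⟩ := hgr a hax μ hμ p hp hp1 i hi.le
    have e1 : (∫ s in (0 : ℝ)..t, H (π a) (SS G (ep θ) a ((π a) (Fin.last i)) + s)) =
        ∫ s in (0 : ℝ)..t, φ ((2 * (cl μ (SS G (ep θ) a) p i : ℝ) + 1 +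
          SS G (ep θ) a (cl μ (SS G (ep θ) a) p i)) + s) := by
      rw [hH]
      simp only
      refine intervalIntegral.integral_congr fun s _ => ?_
      rw [if_pos (hRa a hax), hq, add_assoc (2 * (cl μ (SS G (ep θ) a) p i : ℝ) + 1)]
    rw [e1]
    have g1' := abs_le.1 g1
    have g2' := abs_le.1 g2
    have e2 : (2 : ℝ) ^ (i + 1) = 2 * 2 ^ i := by ring
    have e3 := DenY_slide φ hφ hφ0 hM (w := 2 * (cl μ (SS G (ep θ) a) p i : ℝ) + 1 +
          SS G (ep θ) a (cl μ (SS G (ep θ) a) p i)) (t := t)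
          (A := 2 ^ (i + 1) * (p : ℝ) - (3 * K + 2) * y ^ θ)
          (B := 2 ^ (i + 1) * (p : ℝ) + (3 * K + 2) * y ^ θ) ht0.le
          (by
            rw [e2]
            have := g1'.1
            have := g2'.1
            linarith)
          (by
            rw [e2]
            have := g1'.2
            have := g2'.2
            linarith)
    rw [← hJ] at e3
    have e4 : 0 ≤ ∫ s in (0 : ℝ)..t, φ ((2 * (cl μ (SS G (ep θ) a) p i : ℝ) + 1 +
          SS G (ep θ) a (cl μ (SS G (ep θ) a) p i)) + s) :=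
      intervalIntegral.integral_nonneg ht0.le fun s _ => hφ0 _
    rw [Real.norm_of_nonneg (by positivity)]
    exact mul_le_mul_of_nonneg_left e3 (by positivity)
  have hvol : volume.real (Set.Icc (fun _ : Fin m => (-(1 / 4) : ℝ)) (fun _ => 5 / 4)) =
      (3 / 2) ^ m := by
    rw [Measure.real, Real.volume_Icc_pi, ENNReal.toReal_prod]
    rw [Finset.prod_congr rfl (g := fun _ => (3 / 2 : ℝ)) (fun j _ => by
      rw [ENNReal.toReal_ofReal (by norm_num)]
      norm_num)]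
    rw [Finset.prod_const, Finset.card_univ, Fintype.card_fin]
  have hfin := norm_setIntegral_le_of_norm_le_const (μ := volume)
    (s := Set.Icc (fun _ : Fin m => (-(1 / 4) : ℝ)) (fun _ => 5 / 4))
    (f := fun a => (1 / t) * (∫ s in (0 : ℝ)..t,
      H (π a) (SS G (ep θ) a ((π a) (Fin.last i)) + s))) (C := (1 / t) * J)
    (by
      rw [Real.volume_Icc_pi]
      exact ENNReal.prod_lt_top fun j _ => ENNReal.ofReal_lt_top) hin
  rw [hvol] at hfin
  rw [hL] at hflow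
  rw [← hJ]
  have h5 : 1 / t * J * (3 / 2) ^ m ≤ Real.log y ^ (2 * n + 1) / y ^ θ * J := by
    have h6 : 1 / t * J * (3 / 2) ^ m = ((3 / 2) ^ m * (8 * P)) / y ^ θ * J := by
      rw [ht]
      field_simp
    rw [h6]
    exact mul_le_mul_of_nonneg_right (div_le_div_of_nonneg_right hnum hyθ.le) hJ0
  exact hflow.trans ((le_abs_self _).trans (by
    rw [← Real.norm_eq_abs]
    exact hfin.trans h5))

end Pool.Agent.PCy
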