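import Pool.Agent.PCy.PhInt
import Pool.Agent.PCy.DenY

/-!
# The sum of the mean errors over the chains

For `a ∈ Cu m`, `i < n` the position `ps` lies in `[y, 2^(n+3) y]` (`growY`: `2 (7/8) y - y/40 ≥ y`, and `2 (5/4) 2^(n-1) y + 1 + y ≤ 2^(n+3) y`), so
`ph (ps) = φ (ps)` with `φ x = ph B (μ i * ty θ y) x` for `x ∈ [y, 2^(n+3) y]`, `0` otherwise (bounded by `ph_bd`, measurable).
`denY`: `∫_{Cu m} φ(ps) ≤ (log y)^(2n+1) y^(-θ) ∫ φ 1_{I_p}`, `I_p = [2^(i+1) p - K y^θ, 2^(i+1) p + K y^θ]`.  Sum over `p`: every `x` is in at most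
`2 K y^θ + 1 ≤ (2K + 1) y^θ` of the intervals `I_p` (`|p - x/2^(i+1)| ≤ K y^θ / 2`), so
`∑_p ∫_{Cu m} φ(ps) ≤ (2K + 1) (log y)^(2n+1) ∫ φ ≤ (2K + 1) (log y)^(2n+1) y/(log y)^(A + 2n + 3)` by `phInt`.  Sum over `i < n` (`EE_eq`).
(`∑_p ∫ φ 1_{I_p} = ∫ φ ∑_p 1_{I_p}`, finite sum; a finset of natural numbers in an interval of length `L` has at most `L + 1` elements.)
-/

namespace Pool.Agent.PCy

open MeasureTheory Pool.Agent.PCn Pool.Agent.PCx

private theorem ErrY_card {s : Finset ℕ} {x r : ℝ} (hr : 0 ≤ r) (H : ∀ p ∈ s, |(p : ℝ) - x| ≤ r) :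
    (s.card : ℝ) ≤ 2 * r + 1 := by
  rcases s.eq_empty_or_nonempty with h0 | ⟨p0, hp0⟩
  · subst h0
    simp
    linarith
  have hsub : s ⊆ Finset.Icc ⌈x - r⌉₊ ⌊x + r⌋₊ := by
    intro p hp
    have h1 := abs_le.1 (H p hp)
    rw [Finset.mem_Icc]
    refine ⟨Nat.ceil_le.2 (by linarith), Nat.le_floor (by linarith)⟩
  have h2 : s.card ≤ ⌊x + r⌋₊ + 1 - ⌈x - r⌉₊ := by
    have := Finset.card_le_card hsub
    rwa [Nat.card_Icc] at this
  have h3 := Finset.mem_Icc.1 (hsub hp0)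
  have h4 := abs_le.1 (H p0 hp0)
  have h5 : (0 : ℝ) ≤ x + r := by
    have : (0 : ℝ) ≤ p0 := Nat.cast_nonneg _
    linarith
  have h6 := Nat.floor_le h5
  have h7 := Nat.le_ceil (x - r)
  have h8 : s.card + ⌈x - r⌉₊ ≤ ⌊x + r⌋₊ + 1 := by omega
  have h9 : (s.card : ℝ) + (⌈x - r⌉₊ : ℝ) ≤ (⌊x + r⌋₊ : ℝ) + 1 := by exact_mod_cast h8
  linarith

private theorem ErrY_int {B : ℕ} {h a b : ℝ} :
    IntegrableOn (fun x => ph B h x) (Set.Icc a b) volume := by
  obtain ⟨K, hK0, hK⟩ := ph_bd B h b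
  refine Measure.integrableOn_of_bounded (M := K) measure_Icc_lt_top.ne
    (ph_meas B h).aestronglyMeasurable ?_
  rw [ae_restrict_iff' measurableSet_Icc]
  refine Filter.Eventually.of_forall (fun x hx => ?_)
  rw [Real.norm_eq_abs]
  exact hK x hx.2

/-- overlapping intervals -/
private theorem ErrY_overlap {B : ℕ} {h a b r : ℝ} (hh : 0 ≤ h) (hr : 0 ≤ r) {k : ℝ} (hk : 1 ≤ k)
    (s : Finset ℕ) :
    ∑ p ∈ s, (∫ x in Set.Icc (k * (p : ℝ) - r) (k * (p : ℝ) + r),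
      (Set.Icc a b).indicator (fun x => ph B h x) x) ≤
      (2 * r + 1) * ∫ x in Set.Icc a b, ph B h x := by
  have hk0 : 0 < k := by linarith
  have e1 : ∀ p ∈ s, (∫ x in Set.Icc (k * (p : ℝ) - r) (k * (p : ℝ) + r),
      (Set.Icc a b).indicator (fun x => ph B h x) x) =
      ∫ x in Set.Icc a b, (Set.Icc (k * (p : ℝ) - r) (k * (p : ℝ) + r)).indicator (fun x => ph B h x) x := by
    intro p _
    rw [setIntegral_indicator measurableSet_Icc, setIntegral_indicator measurableSet_Icc, Set.inter_comm]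
  have i1 : ∀ p ∈ s, Integrable
      (fun x => (Set.Icc (k * (p : ℝ) - r) (k * (p : ℝ) + r)).indicator (fun x => ph B h x) x)
      (volume.restrict (Set.Icc a b)) := by
    intro p _
    exact Integrable.indicator ErrY_int measurableSet_Icc
  rw [Finset.sum_congr rfl e1, ← integral_finsetSum s i1, ← integral_const_mul]
  refine integral_mono (integrable_finsetSum s i1) (ErrY_int.const_mul _) ?_
  intro x
  dsimp only
  have h0 := ph_nonneg B hh x
  classical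
  have e2 : ∑ p ∈ s, (Set.Icc (k * (p : ℝ) - r) (k * (p : ℝ) + r)).indicator (fun x => ph B h x) x =
      (s.filter (fun p : ℕ => x ∈ Set.Icc (k * (p : ℝ) - r) (k * (p : ℝ) + r))).card * ph B h x := by
    rw [← nsmul_eq_mul, ← Finset.sum_const, Finset.sum_filter]
    refine Finset.sum_congr rfl fun p _ => ?_
    rw [Set.indicator_apply]
  rw [e2]
  refine mul_le_mul_of_nonneg_right ?_ h0
  refine ErrY_card (x := x / k) hr ?_
  intro p hp
  have h1 := (Finset.mem_filter.1 hp).2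
  rw [Set.mem_Icc] at h1
  have e3 : (p : ℝ) - x / k = (k * p - x) / k := by
    field_simp
  rw [e3, abs_div, abs_of_pos hk0, div_le_iff₀ hk0, abs_le]
  constructor <;> nlinarith

theorem errY (c : ℝ) {θ : ℝ} (h : 1 / 2 < θ) (h1 : θ < 1) (B n m : ℕ) (hB : 0 < B) (hm : n ≤ m)
    (A : ℕ) : ∃ Y : ℝ, 3 ≤ Y ∧ ∀ y ≥ Y, ∀ G : ℕ → ℝ, Ad c θ G → ∀ μ : ℕ → ℕ, (∀ i, μ i ∣ B) →
      ∑ p ∈ Finset.Ioc ⌊y⌋₊ ⌊11 / 10 * y⌋₊, EE θ B n m G μ y p ≤ y / Real.log y ^ A := by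
  obtain ⟨K, Y1, hK0, hY13, H1⟩ := denY c h h1 B n m hB hm
  obtain ⟨K2, Y2, hK20, hY23, H2⟩ := growY c h h1 B n m hB
  obtain ⟨Y3, hY33, H3⟩ := phInt B hB h h1 n (A + 2 * n + 3)
  have ev1 : ∀ᶠ y : ℝ in Filter.atTop, max 1 (n * (2 * K + 1)) ≤ Real.log y :=
    Real.tendsto_log_atTop.eventually_ge_atTop _
  obtain ⟨Y4, H4⟩ := Filter.eventually_atTop.1 ev1
  refine ⟨max (max Y1 Y2) (max Y3 Y4), hY13.trans ((le_max_left _ _).trans (le_max_left _ _)), ?_⟩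
  intro y hy G hG μ hμ
  have hy1 : Y1 ≤ y := ((le_max_left _ _).trans (le_max_left _ _)).trans hy
  have hy2 : Y2 ≤ y := ((le_max_right _ _).trans (le_max_left _ _)).trans hy
  have hy3 : Y3 ≤ y := ((le_max_left _ _).trans (le_max_right _ _)).trans hy
  have hy4 : Y4 ≤ y := ((le_max_right _ _).trans (le_max_right _ _)).trans hy
  have h3y : 3 ≤ y := hY13.trans hy1
  have hy0 : 0 < y := by linarith
  have hL := H4 y hy4
  have hL1 : 1 ≤ Real.log y := (le_max_left _ _).trans hL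
  have hL2 : n * (2 * K + 1) ≤ Real.log y := (le_max_right _ _).trans hL
  have hL0 : 0 < Real.log y := by linarith
  have hyθ1 : 1 ≤ y ^ θ := Real.one_le_rpow (by linarith) (by linarith)
  have hyθ : 0 < y ^ θ := by linarith
  have hty := ty_pos θ hy0
  -- one index
  have key : ∀ i < n, ∑ p ∈ Finset.Ioc ⌊y⌋₊ ⌊11 / 10 * y⌋₊,
      (∫ a in Cu m, ph B (μ i * ty θ y) (ps μ (SS G (ep θ) a) p i)) ≤
      (2 * K + 1) * (y / Real.log y ^ (A + 2)) := by
    intro i hi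
    have hh0 : 0 ≤ (μ i : ℝ) * ty θ y := mul_nonneg (Nat.cast_nonneg _) hty.le
    set φ : ℝ → ℝ := (Set.Icc y (2 ^ (n + 3) * y)).indicator (fun x => ph B (μ i * ty θ y) x) with hφ
    have hφm : Measurable φ := (ph_meas B _).indicator measurableSet_Icc
    have hφ0 : ∀ x, 0 ≤ φ x := fun x => Set.indicator_nonneg (fun x _ => ph_nonneg B hh0 x) x
    have hφb : ∃ M, ∀ x, φ x ≤ M := by
      obtain ⟨M, hM0, hM⟩ := ph_bd B (μ i * ty θ y) (2 ^ (n + 3) * y)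
      refine ⟨M, fun x => ?_⟩
      rw [hφ, Set.indicator_apply]
      split_ifs with hx
      · exact (abs_le.1 (hM x hx.2)).2
      · exact hM0
    have step1 : ∀ p ∈ Finset.Ioc ⌊y⌋₊ ⌊11 / 10 * y⌋₊,
        (∫ a in Cu m, ph B (μ i * ty θ y) (ps μ (SS G (ep θ) a) p i)) ≤
        Real.log y ^ (2 * n + 1) / y ^ θ *
          ∫ x in Set.Icc (2 ^ (i + 1) * (p : ℝ) - K * y ^ θ) (2 ^ (i + 1) * (p : ℝ) + K * y ^ θ), φ x := by
      intro p hp
      rw [Finset.mem_Ioc] at hp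
      have hp1 : y < p := (Nat.floor_lt hy0.le).1 hp.1
      have hp2 : (p : ℝ) ≤ 11 / 10 * y := (Nat.le_floor_iff (by linarith)).1 hp.2
      refine le_trans (le_of_eq ?_) (H1 y hy1 G hG μ hμ p hp1 hp2 i hi φ hφm hφ0 hφb)
      refine setIntegral_congr_fun (by unfold Cu; exact measurableSet_Icc) ?_
      intro a ha
      dsimp only
      obtain ⟨_, _, g1, g2, g3, _⟩ := H2 y hy2 G hG a (Cu_sub m ha) μ hμ p hp1 hp2 i hi.le
      have hB1 : (1 : ℝ) ≤ B := by exact_mod_cast hB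
      have g4 : y / (40 * B) ≤ y / 40 := by
        apply div_le_div_of_nonneg_left hy0.le (by norm_num)
        linarith
      have g5 := abs_le.1 (g3.trans g4)
      have h2i : (1 : ℝ) ≤ 2 ^ i := one_le_pow₀ (by norm_num)
      have h2n : (2 : ℝ) ^ (i + 1) ≤ 2 ^ n := pow_le_pow_right₀ (by norm_num) hi
      have h2n1 : (1 : ℝ) ≤ 2 ^ n := one_le_pow₀ (by norm_num)
      have hmem : ps μ (SS G (ep θ) a) p i ∈ Set.Icc y (2 ^ (n + 3) * y) := by
        unfold ps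
        rw [Set.mem_Icc]
        constructor
        · have : 7 / 8 * y ≤ 7 / 8 * 2 ^ i * y := by nlinarith
          linarith
        · have e4 : (5 / 4 : ℝ) * 2 ^ i * y * 2 = 5 / 4 * (2 ^ (i + 1) * y) := by
            rw [pow_succ]; ring
          have e5 : (2 : ℝ) ^ (i + 1) * y ≤ 2 ^ n * y := mul_le_mul_of_nonneg_right h2n hy0.le
          have e6 : (2 : ℝ) ^ (n + 3) * y = 8 * (2 ^ n * y) := by
            rw [pow_add]; ring
          have e7 : y ≤ 2 ^ n * y := le_mul_of_one_le_left hy0.le h2n1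
          linarith
      rw [hφ, Set.indicator_of_mem hmem]
    have step2 := ErrY_overlap (B := B) (a := y) (b := 2 ^ (n + 3) * y) (r := K * y ^ θ) hh0
      (by positivity) (k := 2 ^ (i + 1)) (one_le_pow₀ (by norm_num)) (Finset.Ioc ⌊y⌋₊ ⌊11 / 10 * y⌋₊)
    rw [← hφ] at step2
    have step3 := H3 y hy3 (μ i) (hμ i)
    have hint0 : 0 ≤ ∫ x in Set.Icc y (2 ^ (n + 3) * y), ph B (μ i * ty θ y) x :=
      integral_nonneg (fun x => ph_nonneg B hh0 x)
    have hc : (2 * (K * y ^ θ) + 1) ≤ (2 * K + 1) * y ^ θ := by nlinarith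
    calc ∑ p ∈ Finset.Ioc ⌊y⌋₊ ⌊11 / 10 * y⌋₊,
          (∫ a in Cu m, ph B (μ i * ty θ y) (ps μ (SS G (ep θ) a) p i))
        ≤ ∑ p ∈ Finset.Ioc ⌊y⌋₊ ⌊11 / 10 * y⌋₊, Real.log y ^ (2 * n + 1) / y ^ θ *
          ∫ x in Set.Icc (2 ^ (i + 1) * (p : ℝ) - K * y ^ θ) (2 ^ (i + 1) * (p : ℝ) + K * y ^ θ), φ x :=
          Finset.sum_le_sum step1
      _ = Real.log y ^ (2 * n + 1) / y ^ θ * ∑ p ∈ Finset.Ioc ⌊y⌋₊ ⌊11 / 10 * y⌋₊,
          ∫ x in Set.Icc (2 ^ (i + 1) * (p : ℝ) - K * y ^ θ) (2 ^ (i + 1) * (p : ℝ) + K * y ^ θ), φ x := by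
          rw [Finset.mul_sum]
      _ ≤ Real.log y ^ (2 * n + 1) / y ^ θ * ((2 * (K * y ^ θ) + 1) *
          ∫ x in Set.Icc y (2 ^ (n + 3) * y), ph B (μ i * ty θ y) x) :=
          mul_le_mul_of_nonneg_left step2 (by positivity)
      _ ≤ Real.log y ^ (2 * n + 1) / y ^ θ * (((2 * K + 1) * y ^ θ) *
          (y / Real.log y ^ (A + 2 * n + 3))) :=
          mul_le_mul_of_nonneg_left (mul_le_mul hc step3 hint0 (by positivity)) (by positivity)
      _ = (2 * K + 1) * (y / Real.log y ^ (A + 2)) := by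
          have e8 : Real.log y ^ (A + 2 * n + 3) = Real.log y ^ (A + 2) * Real.log y ^ (2 * n + 1) := by
            rw [← pow_add]
            congr 1
            ring
          rw [e8]
          field_simp
  have e9 : ∑ p ∈ Finset.Ioc ⌊y⌋₊ ⌊11 / 10 * y⌋₊, EE θ B n m G μ y p =
      ∑ i ∈ Finset.range n, ∑ p ∈ Finset.Ioc ⌊y⌋₊ ⌊11 / 10 * y⌋₊,
        (∫ a in Cu m, ph B (μ i * ty θ y) (ps μ (SS G (ep θ) a) p i)) := by
    rw [Finset.sum_comm]
    exact Finset.sum_congr rfl fun p _ => EE_eq θ B n m G μ y p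
  rw [e9]
  calc ∑ i ∈ Finset.range n, ∑ p ∈ Finset.Ioc ⌊y⌋₊ ⌊11 / 10 * y⌋₊,
        (∫ a in Cu m, ph B (μ i * ty θ y) (ps μ (SS G (ep θ) a) p i))
      ≤ ∑ _i ∈ Finset.range n, (2 * K + 1) * (y / Real.log y ^ (A + 2)) :=
        Finset.sum_le_sum fun i hi => key i (Finset.mem_range.1 hi)
    _ = (n * (2 * K + 1)) * (y / Real.log y ^ (A + 2)) := by
        rw [Finset.sum_const, Finset.card_range, nsmul_eq_mul, mul_assoc]
    _ ≤ (Real.log y ^ 2) * (y / Real.log y ^ (A + 2)) := by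
        refine mul_le_mul_of_nonneg_right ?_ (by positivity)
        nlinarith
    _ = y / Real.log y ^ A := by
        rw [pow_add]
        field_simp

end Pool.Agent.PCy
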