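import Pool.Agent.PCy.BasY
import Pool.Agent.PCx.Gro

/-!
# Size of the terms of a chain

`ss_bd`: for `a` in the larger cube `|pf (ep θ) a q| ≤ 2 q^θ ∑_{j<m} |1/log q|^j ≤ C_m q^θ`, for all `q` (`q = 0`: `0`; `q = 1`: `log q = 0`,
only the term `j = 0` (Lean: `a_j/0 = 0`); `q ≥ 2`: `1/log q ≤ 1/log 2 ≤ 3/2`).
`growY`: TRICK: for fixed `a` let `G' q = SS G (ep θ) a q`; then `SS G' ε' 0 = G'`, so the theorems `rangeX`, `thX`, `growthZ` of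
`Pool/Agent/PCx/Gro.lean`, applied with the base function `G'`, the parameter `0 ∈ Cu m`, `ρ' q = (c + C_m) q^(θ-1)` and `ε' q = 1/log q`
(`Hx ρ' ε'` holds: `exp(-(log q)^(1/31)) ≤ 1/log q` for large `q`), give the ranges, uniformly in `G`, `a`, `μ`.  (`Adm ρ' G'` from `ss_bd`, as
`q^(θ-1) q = q^θ` for `q > 0`.)  The sharper bounds by induction on `i`: with `c_i ≤ 2^(n+1) y`, `|SS(c_i)| ≤ (c + C_m) (2^(n+1) y)^θ` and
`|c_{i+1} - 2 c_i| ≤ 1 + B + |SS(c_i)|` (rounding to a multiple of `μ i`: `S - M ≤ M ⌊S/M⌋ ≤ S`).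
`sepY`: `|c_i - c'_i| ≥ 2^i |p - p'| - 2 K y^θ ≥ 2 y^(1-η) - 2 K y^θ ≥ y^(1-η)`, as `1 - η ≥ θ + (1 - θ)/2` (`eta_le`).
-/

set_option linter.all false

namespace Pool.Agent.PCy

open MeasureTheory Filter Topology Pool.Agent.PCn Pool.Agent.PCx

theorem ss_bd (c θ : ℝ) (m : ℕ) : ∃ K : ℝ, 0 < K ∧ ∀ G : ℕ → ℝ, Ad c θ G → ∀ a ∈ Cx m,
    ∀ q : ℕ, |SS G (ep θ) a q| ≤ K * (q : ℝ) ^ θ := by
  have hS0 : 0 ≤ ∑ j : Fin m, (2 : ℝ) * 2 ^ (j : ℕ) := Finset.sum_nonneg fun j _ => by positivity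
  refine ⟨|c| + ∑ j : Fin m, (2 : ℝ) * 2 ^ (j : ℕ) + 1, by positivity, fun G hG a ha q => ?_⟩
  have hq0 : (0 : ℝ) ≤ (q : ℝ) ^ θ := Real.rpow_nonneg (Nat.cast_nonneg q) θ
  have hsum : |∑ j : Fin m, a j / Real.log q ^ (j : ℕ)| ≤ ∑ j : Fin m, (2 : ℝ) * 2 ^ (j : ℕ) := by
    refine (Finset.abs_sum_le_sum_abs _ _).trans (Finset.sum_le_sum fun j _ => ?_)
    have h8 : (-1 : ℝ) ≤ a j := ha.1 j
    have h9 : a j ≤ 2 := ha.2 j
    have h7 : |a j| ≤ 2 := abs_le.mpr ⟨by linarith, by linarith⟩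
    rw [div_eq_mul_inv, abs_mul]
    refine mul_le_mul h7 ?_ (abs_nonneg _) (by norm_num)
    rw [abs_inv, abs_pow, ← inv_pow]
    refine pow_le_pow_left₀ (inv_nonneg.2 (abs_nonneg _)) ?_ _
    rcases Nat.lt_or_ge q 2 with h2 | h2
    · have : Real.log q = 0 := by
        interval_cases q <;> simp
      rw [this]
      simp
    · have h3 : Real.log 2 ≤ Real.log q := Real.log_le_log (by norm_num) (by exact_mod_cast h2)
      have h4 := Real.log_two_gt_d9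
      rw [abs_of_nonneg (by linarith)]
      rw [inv_le_comm₀ (by linarith) (by norm_num)]
      norm_num at h4 ⊢
      linarith
  have hpf : |pf (ep θ) a q| ≤ (∑ j : Fin m, (2 : ℝ) * 2 ^ (j : ℕ)) * (q : ℝ) ^ θ := by
    unfold pf
    rw [abs_mul, mul_comm]
    refine mul_le_mul hsum ?_ (abs_nonneg _) hS0
    unfold ep
    rcases Nat.eq_zero_or_pos q with h0 | h0
    · subst h0
      simpa using hq0
    · have hq : (0 : ℝ) < q := by exact_mod_cast h0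
      rw [Real.rpow_sub_one hq.ne', div_mul_cancel₀ _ hq.ne', abs_of_nonneg hq0]
  unfold SS
  have h1 := hG q
  have h2 : c * (q : ℝ) ^ θ ≤ |c| * (q : ℝ) ^ θ := mul_le_mul_of_nonneg_right (le_abs_self c) hq0
  refine (abs_add_le _ _).trans ?_
  nlinarith

private theorem GroY_SS (G' ε' : ℕ → ℝ) (m : ℕ) : SS G' ε' (0 : Fin m → ℝ) = G' := by
  funext q
  unfold SS pf
  simp

private theorem GroY_Cu (m : ℕ) : (0 : Fin m → ℝ) ∈ Cu m := by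
  unfold Cu
  exact ⟨le_refl _, fun j => by simp⟩

private theorem GroY_Hx (K : ℝ) {θ : ℝ} (h1 : θ < 1) :
    Hx (fun q : ℕ => K * (q : ℝ) ^ (θ - 1)) (fun q : ℕ => 1 / Real.log q) := by
  have hlog : Tendsto (fun q : ℕ => Real.log q) atTop atTop :=
    Real.tendsto_log_atTop.comp tendsto_natCast_atTop_atTop
  refine ⟨?_, ?_, ?_⟩
  · have h2 : Tendsto (fun x : ℝ => x ^ (θ - 1)) atTop (𝓝 0) := by
      have := tendsto_rpow_neg_atTop (y := 1 - θ) (by linarith)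
      simpa using this
    have h3 := (h2.comp (tendsto_natCast_atTop_atTop (R := ℝ))).const_mul K
    simpa using h3
  · exact hlog.const_div_atTop 1
  · have h4 : ∀ᶠ u : ℝ in atTop, Real.exp (-(u ^ (1 / 31 : ℝ))) ≤ 1 / u := by
      have h5 := (isLittleO_log_rpow_atTop (r := (1 / 31 : ℝ)) (by norm_num)).bound
        (show (0 : ℝ) < 1 by norm_num)
      filter_upwards [h5, eventually_ge_atTop 1] with u hu hu1
      have hu0 : 0 < u := by linarith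
      rw [Real.norm_of_nonneg (Real.log_nonneg hu1), Real.norm_of_nonneg
        (Real.rpow_nonneg hu0.le _), one_mul] at hu
      rw [Real.exp_neg, ← one_div]
      apply one_div_le_one_div_of_le hu0
      calc u = Real.exp (Real.log u) := (Real.exp_log hu0).symm
        _ ≤ _ := Real.exp_le_exp.2 hu
    exact hlog.eventually h4

private theorem GroY_Adm {θ : ℝ} (h : 1 / 2 < θ) {m : ℕ} {K : ℝ} {G : ℕ → ℝ}
    {a : Fin m → ℝ} (hK : ∀ q : ℕ, |SS G (ep θ) a q| ≤ K * (q : ℝ) ^ θ) :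
    Adm (fun q : ℕ => K * (q : ℝ) ^ (θ - 1)) (SS G (ep θ) a) := by
  intro q
  refine (hK q).trans (le_of_eq ?_)
  rcases Nat.eq_zero_or_pos q with h0 | h0
  · subst h0
    simp [Real.zero_rpow (by linarith : θ ≠ 0)]
  · have hq : (0 : ℝ) < q := by exact_mod_cast h0
    simp only
    rw [Real.rpow_sub_one hq.ne', mul_assoc, div_mul_cancel₀ _ hq.ne']

private theorem GroY_step {M : ℕ} (hM : 0 < M) {S : ℕ → ℝ} {q : ℕ}
    (hS : |S q| ≤ q) (hq : (M : ℝ) ≤ q) : |(Tr M S q : ℝ) - 2 * q| ≤ |S q| + M + 1 := by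
  have hM1 : (1 : ℝ) ≤ M := by exact_mod_cast hM
  have hM0 : (0 : ℝ) < M := by linarith
  have hq0 : (0 : ℝ) ≤ q := Nat.cast_nonneg q
  have h1 := neg_abs_le (S q)
  have h2 := le_abs_self (S q)
  have h3 : (M : ℝ) * (⌊S q / M⌋ : ℝ) ≤ S q := by
    have := mul_le_mul_of_nonneg_left (Int.floor_le (S q / M)) hM0.le
    rwa [mul_div_cancel₀ _ hM0.ne'] at this
  have h4 : S q - M < (M : ℝ) * (⌊S q / M⌋ : ℝ) := by
    have := mul_lt_mul_of_pos_left (Int.sub_one_lt_floor (S q / M)) hM0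
    rw [mul_sub, mul_div_cancel₀ _ hM0.ne', mul_one] at this
    exact this
  have hpos : (0 : ℝ) < 2 * (q : ℝ) + 1 + M * (⌊S q / M⌋ : ℝ) := by linarith
  have hposZ : (0 : ℤ) < 2 * (q : ℤ) + 1 + M * ⌊S q / M⌋ := by exact_mod_cast hpos
  have e : ((Tr M S q : ℕ) : ℤ) = 2 * (q : ℤ) + 1 + M * ⌊S q / M⌋ := by
    unfold Tr
    exact Int.toNat_of_nonneg hposZ.le
  have eR : (Tr M S q : ℝ) = 2 * (q : ℝ) + 1 + M * (⌊S q / M⌋ : ℝ) := by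
    have := congrArg (fun z : ℤ => (z : ℝ)) e
    push_cast at this
    exact this
  rw [eR, abs_le]
  constructor <;> linarith

theorem growY (c : ℝ) {θ : ℝ} (h : 1 / 2 < θ) (h1 : θ < 1) (B n m : ℕ) (hB : 0 < B) :
    ∃ K Y : ℝ, 0 < K ∧ 3 ≤ Y ∧ ∀ y ≥ Y, ∀ G : ℕ → ℝ, Ad c θ G → ∀ a ∈ Cx m,
    ∀ μ : ℕ → ℕ, (∀ i, μ i ∣ B) → ∀ p : ℕ, y < p → (p : ℝ) ≤ 11 / 10 * y → ∀ i ≤ n,
      |(cl μ (SS G (ep θ) a) p i : ℝ) - 2 ^ i * p| ≤ K * y ^ θ ∧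
      |SS G (ep θ) a (cl μ (SS G (ep θ) a) p i)| ≤ K * y ^ θ ∧
      7 / 8 * 2 ^ i * y ≤ cl μ (SS G (ep θ) a) p i ∧
      (cl μ (SS G (ep θ) a) p i : ℝ) ≤ 5 / 4 * 2 ^ i * y ∧
      |SS G (ep θ) a (cl μ (SS G (ep θ) a) p i)| ≤ y / (40 * B) ∧
      cl μ (SS G (ep θ) a) p (i + 1) ≡ 2 * cl μ (SS G (ep θ) a) p i + 1 [MOD μ i] := by
  obtain ⟨K0, hK0, hK⟩ := ss_bd c θ m
  obtain ⟨Y, hY3, hY⟩ := rangeX (GroY_Hx K0 h1) B n m hB
  have hB1 : (1 : ℝ) ≤ B := by exact_mod_cast hB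
  obtain ⟨K1, hK1⟩ : ∃ K1 : ℝ, K1 = K0 * 2 ^ (n + 1) := ⟨_, rfl⟩
  have hK1p : 0 < K1 := by rw [hK1]; positivity
  have h2n : (1 : ℝ) ≤ 2 ^ n := one_le_pow₀ (by norm_num)
  refine ⟨2 ^ n * (K1 + B + 1), max Y (2 * B), by positivity, le_trans hY3 (le_max_left _ _), ?_⟩
  intro y hy G hG a ha μ hμ p hp hp1
  have hyY : Y ≤ y := le_trans (le_max_left _ _) hy
  have hyB : 2 * (B : ℝ) ≤ y := le_trans (le_max_right _ _) hy
  have hy3 : 3 ≤ y := hY3.trans hyY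
  have hy0 : 0 < y := by linarith
  have hyθ : 1 ≤ y ^ θ := Real.one_le_rpow (by linarith) (by linarith)
  have hr : ∀ i ≤ n, _ := fun i hi =>
    hY y hyY (SS G (ep θ) a) (GroY_Adm h (hK G hG a ha)) 0 (GroY_Cu m) μ hμ p hp hp1 i hi
  rw [GroY_SS] at hr
  have hSS : ∀ i ≤ n, |SS G (ep θ) a (cl μ (SS G (ep θ) a) p i)| ≤ K1 * y ^ θ := by
    intro i hi
    obtain ⟨-, h3, -, -⟩ := hr i hi
    refine (hK G hG a ha _).trans ?_
    rw [hK1, mul_assoc]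
    refine mul_le_mul_of_nonneg_left ?_ hK0.le
    have h2i : (2 : ℝ) ^ i ≤ 2 ^ n := pow_le_pow_right₀ (by norm_num) hi
    have h4 : (cl μ (SS G (ep θ) a) p i : ℝ) ≤ 2 ^ (n + 1) * y := by
      refine h3.trans (mul_le_mul_of_nonneg_right ?_ hy0.le)
      rw [pow_succ]
      linarith
    calc ((cl μ (SS G (ep θ) a) p i : ℕ) : ℝ) ^ θ ≤ (2 ^ (n + 1) * y) ^ θ :=
          Real.rpow_le_rpow (Nat.cast_nonneg _) h4 (by linarith)
      _ = (2 ^ (n + 1) : ℝ) ^ θ * y ^ θ := Real.mul_rpow (by positivity) hy0.le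
      _ ≤ 2 ^ (n + 1) * y ^ θ := by
          refine mul_le_mul_of_nonneg_right ?_ (by linarith)
          calc (2 ^ (n + 1) : ℝ) ^ θ ≤ (2 ^ (n + 1) : ℝ) ^ (1 : ℝ) :=
                Real.rpow_le_rpow_of_exponent_le (one_le_pow₀ (by norm_num)) h1.le
            _ = _ := Real.rpow_one _
  have hind : ∀ i ≤ n, |(cl μ (SS G (ep θ) a) p i : ℝ) - 2 ^ i * p| ≤
      (2 ^ i - 1) * ((K1 + B + 1) * y ^ θ) := by
    intro i
    induction i with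
    | zero =>
      intro _
      rw [cl_zero]
      simp
    | succ i ih =>
      intro hi
      have h3 := ih (by omega)
      obtain ⟨h4, h5, h6, -⟩ := hr i (by omega)
      have h7 := hSS i (by omega)
      have h2i : (1 : ℝ) ≤ 2 ^ i := one_le_pow₀ (by norm_num)
      have h8 : 7 / 8 * y ≤ cl μ (SS G (ep θ) a) p i := by
        refine le_trans ?_ h4
        nlinarith
      have hμB : ((μ i : ℕ) : ℝ) ≤ B := by exact_mod_cast Nat.le_of_dvd hB (hμ i)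
      have h9 : y / (40 * B) ≤ y / 40 := by
        apply div_le_div_of_nonneg_left hy0.le (by norm_num)
        linarith
      have h10 := GroY_step (Nat.pos_of_dvd_of_pos (hμ i) hB)
        (S := SS G (ep θ) a) (q := cl μ (SS G (ep θ) a) p i) (by linarith) (by linarith)
      rw [cl_succ]
      have e : (Tr (μ i) (SS G (ep θ) a) (cl μ (SS G (ep θ) a) p i) : ℝ) - 2 ^ (i + 1) * p =
          ((Tr (μ i) (SS G (ep θ) a) (cl μ (SS G (ep θ) a) p i) : ℝ) -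
            2 * cl μ (SS G (ep θ) a) p i) + 2 * ((cl μ (SS G (ep θ) a) p i : ℝ) - 2 ^ i * p) := by
        ring
      rw [e]
      refine (abs_add_le _ _).trans ?_
      rw [abs_mul, abs_two, pow_succ]
      have h11 : (B : ℝ) + 1 ≤ (B + 1) * y ^ θ := le_mul_of_one_le_right (by linarith) hyθ
      nlinarith
  intro i hi
  obtain ⟨h4, h5, h6, h7⟩ := hr i hi
  have h8 : 0 ≤ (K1 + B + 1) * y ^ θ := by positivity
  have h2i : (2 : ℝ) ^ i ≤ 2 ^ n := pow_le_pow_right₀ (by norm_num) hi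
  refine ⟨(hind i hi).trans ?_, (hSS i hi).trans ?_, h4, h5, h6, h7⟩
  · nlinarith
  · refine mul_le_mul_of_nonneg_right ?_ (by linarith)
    nlinarith

theorem thY (c : ℝ) {θ : ℝ} (h : 1 / 2 < θ) (h1 : θ < 1) (B n m : ℕ) (hB : 0 < B) :
    ∃ Y : ℝ, 3 ≤ Y ∧ ∀ y ≥ Y, ∀ G : ℕ → ℝ, Ad c θ G → ∀ a ∈ Cu m,
    ∀ μ : ℕ → ℕ, (∀ i, μ i ∣ B) → ∀ p : ℕ, y < p → (p : ℝ) ≤ 11 / 10 * y → ∀ i ≤ n,
      0 ≤ th (cl μ (SS G (ep θ) a) p i) ∧
      th (cl μ (SS G (ep θ) a) p i) ≤ Real.log (2 ^ (n + 4) * y) ∧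
      thc (2 ^ (n + 4) * y) (cl μ (SS G (ep θ) a) p i) = th (cl μ (SS G (ep θ) a) p i) := by
  obtain ⟨K0, hK0, hK⟩ := ss_bd c θ m
  obtain ⟨Y, hY3, hY⟩ := thX (GroY_Hx K0 h1) B n m hB
  refine ⟨Y, hY3, fun y hy G hG a ha μ hμ p hp hp1 i hi => ?_⟩
  have h3 := hY y hy (SS G (ep θ) a) (GroY_Adm h (hK G hG a (Cu_sub m ha))) 0 (GroY_Cu m) μ hμ
    p hp hp1 i hi
  rw [GroY_SS] at h3
  exact h3

theorem sepY (c : ℝ) {θ : ℝ} (h : 1 / 2 < θ) (h1 : θ < 1) (B n m : ℕ) (hB : 0 < B) :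
    ∃ Y : ℝ, 3 ≤ Y ∧ ∀ y ≥ Y, ∀ G : ℕ → ℝ, Ad c θ G → ∀ a ∈ Cu m,
    ∀ μ : ℕ → ℕ, (∀ i, μ i ∣ B) → ∀ p p' : ℕ, y < p → (p : ℝ) ≤ 11 / 10 * y →
      y < p' → (p' : ℝ) ≤ 11 / 10 * y →
      2 * y ^ (1 - eta θ m) ≤ |(p : ℝ) - p'| → ∀ i ≤ n,
      y ^ (1 - eta θ m) ≤
        |(cl μ (SS G (ep θ) a) p i : ℝ) - cl μ (SS G (ep θ) a) p' i| := by
  obtain ⟨K, Y, hK, hY3, hY⟩ := growY c h h1 B n m hB
  have hev : ∀ᶠ y : ℝ in atTop, 2 * K ≤ y ^ ((1 - θ) / 2) :=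
    (tendsto_rpow_atTop (by linarith : 0 < (1 - θ) / 2)).eventually_ge_atTop _
  obtain ⟨Y1, hY1⟩ := eventually_atTop.1 hev
  refine ⟨max Y Y1, le_trans hY3 (le_max_left _ _), ?_⟩
  intro y hy G hG a ha μ hμ p p' hp hp1 hp' hp1' hpp i hi
  have hyY : Y ≤ y := le_trans (le_max_left _ _) hy
  have hy3 : 3 ≤ y := hY3.trans hyY
  have hy0 : 0 < y := by linarith
  have h2 := hY1 y (le_trans (le_max_right _ _) hy)
  obtain ⟨h3, -⟩ := hY y hyY G hG a (Cu_sub m ha) μ hμ p hp hp1 i hi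
  obtain ⟨h4, -⟩ := hY y hyY G hG a (Cu_sub m ha) μ hμ p' hp' hp1' i hi
  have hyθ : 0 ≤ y ^ θ := by positivity
  have h5 : 2 * K * y ^ θ ≤ y ^ (1 - eta θ m) := by
    calc 2 * K * y ^ θ ≤ y ^ ((1 - θ) / 2) * y ^ θ := mul_le_mul_of_nonneg_right h2 hyθ
      _ = y ^ ((1 - θ) / 2 + θ) := (Real.rpow_add hy0 _ _).symm
      _ ≤ y ^ (1 - eta θ m) := by
          apply Real.rpow_le_rpow_of_exponent_le (by linarith)
          have := eta_le (θ := θ) m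
          linarith
  have h2i : (1 : ℝ) ≤ 2 ^ i := one_le_pow₀ (by norm_num)
  have h6 : |(2 : ℝ) ^ i * p - 2 ^ i * p'| = 2 ^ i * |(p : ℝ) - p'| := by
    rw [← mul_sub, abs_mul, abs_of_nonneg (by positivity)]
  have h7 : |(p : ℝ) - p'| ≤ 2 ^ i * |(p : ℝ) - p'| :=
    le_mul_of_one_le_left (abs_nonneg _) h2i
  have h8 : |(2 : ℝ) ^ i * p - 2 ^ i * p'| ≤
      |(cl μ (SS G (ep θ) a) p i : ℝ) - cl μ (SS G (ep θ) a) p' i| +
        |(cl μ (SS G (ep θ) a) p i : ℝ) - 2 ^ i * p| +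
        |(cl μ (SS G (ep θ) a) p' i : ℝ) - 2 ^ i * p'| := by
    have e : (2 : ℝ) ^ i * p - 2 ^ i * p' =
        ((cl μ (SS G (ep θ) a) p i : ℝ) - cl μ (SS G (ep θ) a) p' i) -
        ((cl μ (SS G (ep θ) a) p i : ℝ) - 2 ^ i * p) +
        ((cl μ (SS G (ep θ) a) p' i : ℝ) - 2 ^ i * p') := by ring
    rw [e]
    refine (abs_add_le _ _).trans ?_
    have := abs_sub (((cl μ (SS G (ep θ) a) p i : ℝ) - cl μ (SS G (ep θ) a) p' i))
      (((cl μ (SS G (ep θ) a) p i : ℝ) - 2 ^ i * p))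
    linarith
  linarith

theorem growZY (c : ℝ) {θ : ℝ} (h : 1 / 2 < θ) (h1 : θ < 1) (Z : ℕ → ℕ)
    (hZ : ∀ᶠ q : ℕ in Filter.atTop, (MM Z q : ℝ) ≤ Real.log q) (n m : ℕ) (δ : ℝ) (hδ : 0 < δ) :
    ∃ Y : ℝ, 3 ≤ Y ∧ ∀ y ≥ Y, ∀ G : ℕ → ℝ, Ad c θ G → ∀ a ∈ Cu m,
    ∀ p : ℕ, y < p → (p : ℝ) ≤ 11 / 10 * y → ∀ i ≤ n,
      |(((TZ Z (SS G (ep θ) a))^[i] p : ℕ) : ℝ) - 2 ^ i * p| ≤ δ * y := by
  obtain ⟨K0, hK0, hK⟩ := ss_bd c θ m
  obtain ⟨Y, hY3, hY⟩ := growthZ (GroY_Hx K0 h1) Z hZ n m δ hδ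
  refine ⟨Y, hY3, fun y hy G hG a ha p hp hp1 i hi => ?_⟩
  have h3 := hY y hy (SS G (ep θ) a) (GroY_Adm h (hK G hG a (Cu_sub m ha))) 0 (GroY_Cu m)
    p hp hp1 i hi
  rw [GroY_SS] at h3
  exact h3

end Pool.Agent.PCy
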