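import Pool.Agent.PCy.AeY
import Pool.Agent.PCy.GroY
import Pool.Agent.PCx.FinX

/-!
# The finite dimensional theorem

Copy and adapt `Pool/Agent/PCx/FinX.lean` (with its private lemmas): `growthZ` becomes `growZY`, `aeX` becomes `aeY`; `SS G (ep θ) a q = o(q)` as
`|SS G (ep θ) a q| ≤ K q^θ` (`ss_bd`, `Cu_sub`), `θ < 1`.
-/

namespace Pool.Agent.PCy

open MeasureTheory Filter Topology Pool.Agent.PCn Pool.Agent.PCx

private theorem FinY_lim {θ : ℝ} (h1 : θ < 1) {c : ℝ} {G : ℕ → ℝ} (hG : Ad c θ G) {m : ℕ}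
    {a : Fin m → ℝ} (ha : a ∈ Cu m) :
    Tendsto (fun q : ℕ => SS G (ep θ) a q / q) atTop (𝓝 0) := by
  obtain ⟨K, hK, HK⟩ := ss_bd c θ m
  have h2 : Tendsto (fun q : ℕ => K * (q : ℝ) ^ (-(1 - θ))) atTop (𝓝 0) := by
    have h3 := ((tendsto_rpow_neg_atTop (show 0 < 1 - θ by linarith)).comp
      tendsto_natCast_atTop_atTop).const_mul K
    rw [mul_zero] at h3
    exact h3
  refine squeeze_zero_norm' ?_ h2
  filter_upwards [eventually_ge_atTop 1] with q hq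
  have hq0 : (0 : ℝ) < q := by exact_mod_cast hq
  rw [Real.norm_eq_abs, abs_div, abs_of_pos hq0, div_le_iff₀ hq0]
  refine (HK G hG a (Cu_sub m ha) q).trans (le_of_eq ?_)
  rw [mul_assoc]
  congr 1
  rw [← Real.rpow_add_one hq0.ne']
  congr 1
  ring

private theorem FinY_th (x : ℕ) : 0 ≤ th x := by
  unfold th
  split_ifs
  · exact Real.log_natCast_nonneg _
  · exact le_rfl

private theorem FinY_prod (f : ℕ → ℕ) (n : ℕ) : 0 ≤ ∏ i ∈ Finset.range (n + 1), th (f i) :=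
  Finset.prod_nonneg fun _ _ => FinY_th _

/-- the chain in a window follows one of the two patterns -/
private theorem FinY_pat (c : ℝ) {θ : ℝ} (h : 1 / 2 < θ) (h1 : θ < 1) {Z : ℕ → ℕ}
    (hZ : ∀ j, 2 ^ (j + 10) * (Z j + 1) ≤ Z (j + 1)) (hZ2 : ∀ j, Real.exp (QQ (j + 1)) ≤ Z j)
    (n m l : ℕ) (hl : 10 ≤ l) : ∃ Y : ℝ, 1 ≤ Y ∧ ∀ y ≥ Y, ∀ G : ℕ → ℝ, Ad c θ G → ∀ a ∈ Cu m,
      ∀ p : ℕ, y < p → (p : ℝ) ≤ (1 + 1 / (l : ℝ)) * y →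
      (∀ i < n, MM Z ((TZ Z (SS G (ep θ) a))^[i] p) = pq Z (y * (1 - 1 / (8 * (l : ℝ)))) i) ∨
      (∀ i < n, MM Z ((TZ Z (SS G (ep θ) a))^[i] p) =
        pq Z (y * ((1 + 1 / (l : ℝ)) * (1 + 1 / (8 * (l : ℝ))))) i) := by
  have hl' : (10 : ℝ) ≤ l := by exact_mod_cast hl
  have hl0 : (0 : ℝ) < l := by linarith
  have hδ : (0 : ℝ) < 1 / (8 * (l : ℝ)) := by positivity
  have h3 : 1 / (l : ℝ) ≤ 1 / 10 := one_div_le_one_div_of_le (by norm_num) hl'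
  have h2 : (0 : ℝ) < 1 / (l : ℝ) := by positivity
  obtain ⟨Y1, hY1, H1⟩ := growZY c h h1 Z (MM_log hZ hZ2) n m (1 / (8 * (l : ℝ))) hδ
  obtain ⟨Y2, hY2, H2⟩ := pat_chain hZ n l hl
  refine ⟨max Y1 Y2, le_max_of_le_right hY2, fun y hy G hG a ha p hp1 hp2 => ?_⟩
  have hy1 : Y1 ≤ y := (le_max_left _ _).trans hy
  have hy2 : Y2 ≤ y := (le_max_right _ _).trans hy
  have hy0 : 0 < y := by linarith
  refine H2 y hy2 (fun i => (TZ Z (SS G (ep θ) a))^[i] p) fun i hi => ?_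
  have h4 := H1 y hy1 G hG a ha p hp1 (by nlinarith) i hi.le
  have h5 := abs_le.1 h4
  have h6 : (1 : ℝ) ≤ 2 ^ i := one_le_pow₀ (by norm_num)
  have h7 : 0 ≤ 1 / (8 * (l : ℝ)) * y := by positivity
  have h8 : 1 / (8 * (l : ℝ)) * y ≤ 2 ^ i * (1 / (8 * (l : ℝ)) * y) := le_mul_of_one_le_left h7 h6
  have h9 : (2 : ℝ) ^ i * y ≤ 2 ^ i * p := by gcongr
  have h10 : (2 : ℝ) ^ i * p ≤ 2 ^ i * ((1 + 1 / (l : ℝ)) * y) := by gcongr
  have h11 : 0 ≤ 2 ^ i * (1 / (l : ℝ) * (1 / (8 * (l : ℝ)) * y)) := by positivity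
  constructor
  · show 2 ^ i * (y * (1 - 1 / (8 * (l : ℝ)))) ≤ (((TZ Z (SS G (ep θ) a))^[i] p : ℕ) : ℝ)
    have e1 : 2 ^ i * (y * (1 - 1 / (8 * (l : ℝ)))) =
        2 ^ i * y - 2 ^ i * (1 / (8 * (l : ℝ)) * y) := by ring
    rw [e1]
    linarith [h5.1]
  · show (((TZ Z (SS G (ep θ) a))^[i] p : ℕ) : ℝ) ≤
      2 ^ i * (y * ((1 + 1 / (l : ℝ)) * (1 + 1 / (8 * (l : ℝ)))))
    have e1 : 2 ^ i * (y * ((1 + 1 / (l : ℝ)) * (1 + 1 / (8 * (l : ℝ))))) =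
        2 ^ i * ((1 + 1 / (l : ℝ)) * y) + 2 ^ i * (1 / (8 * (l : ℝ)) * y) +
        2 ^ i * (1 / (l : ℝ) * (1 / (8 * (l : ℝ)) * y)) := by ring
    rw [e1]
    linarith [h5.2]

theorem fin_dimY {θ : ℝ} (h : 1 / 2 < θ) (h1 : θ < 1) {Z : ℕ → ℕ}
    (hZ : ∀ j, 2 ^ (j + 10) * (Z j + 1) ≤ Z (j + 1)) (hZ2 : ∀ j, Real.exp (QQ (j + 1)) ≤ Z j)
    (hthr : ∀ j n l c : ℕ, n ≤ j → 10 ≤ l → l ≤ j → c ≤ j → ∀ y : ℝ, (Z j : ℝ) ≤ 2 ^ (j + 5) * y →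
      ∀ G : ℕ → ℝ, Ad c θ G → ∀ μ : ℕ → ℕ, (∀ i, μ i ∣ QQ (j + 1)) →
      (∫ a in Cu (2 * n), (VL μ (SS G (ep θ) a) n y ((1 + 1 / (l : ℝ)) * y) -
        kapL (QQ (j + 1)) μ n * (1 / (l : ℝ) * y)) ^ 2) ≤ y ^ 2 / Real.log y ^ 2)
    (n c : ℕ) (G : ℕ → ℝ) (hG : Ad c θ G) :
    ∀ᵐ a ∂(volume.restrict (Cu (2 * n))),
      Tendsto (fun x : ℕ => (NT (TZ Z (SS G (ep θ) a)) n x : ℝ) * Real.log x ^ (n + 1) / x)
        atTop (𝓝 (BH n)) := by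
  have hbd : ∀ l : ℕ, 10 ≤ l → (0 : ℝ) < 1 / (l : ℝ) ∧ 1 / (l : ℝ) ≤ 1 / 10 ∧
      (0 : ℝ) < 1 / (8 * (l : ℝ)) ∧ 1 / (8 * (l : ℝ)) ≤ 1 / 80 := by
    intro l hl
    have hl' : (10 : ℝ) ≤ l := by exact_mod_cast hl
    have hl0 : (0 : ℝ) < l := by linarith
    refine ⟨by positivity, one_div_le_one_div_of_le (by norm_num) hl', by positivity,
      one_div_le_one_div_of_le (by norm_num) (by linarith)⟩
  have hh1 : ∀ᵐ a ∂(volume.restrict (Cu (2 * n))), ∀ l : ℕ, 10 ≤ l →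
      Tendsto (fun k : ℕ => VL (pq Z ((1 + 1 / (l : ℝ)) ^ k * (1 - 1 / (8 * (l : ℝ)))))
        (SS G (ep θ) a) n ((1 + 1 / (l : ℝ)) ^ k) ((1 + 1 / (l : ℝ)) ^ (k + 1)) /
        (1 + 1 / (l : ℝ)) ^ k) atTop (𝓝 (BH n * (1 / (l : ℝ)))) := by
    rw [ae_all_iff]
    intro l
    by_cases hl : 10 ≤ l
    · obtain ⟨b1, b2, b3, b4⟩ := hbd l hl
      filter_upwards [aeY hZ hthr n l c hl (1 - 1 / (8 * (l : ℝ))) (by linarith) (by linarith)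
        G hG] with a ha _
      exact ha
    · exact Eventually.of_forall fun a h => absurd h hl
  have hh2 : ∀ᵐ a ∂(volume.restrict (Cu (2 * n))), ∀ l : ℕ, 10 ≤ l →
      Tendsto (fun k : ℕ => VL (pq Z ((1 + 1 / (l : ℝ)) ^ k *
        ((1 + 1 / (l : ℝ)) * (1 + 1 / (8 * (l : ℝ))))))
        (SS G (ep θ) a) n ((1 + 1 / (l : ℝ)) ^ k) ((1 + 1 / (l : ℝ)) ^ (k + 1)) /
        (1 + 1 / (l : ℝ)) ^ k) atTop (𝓝 (BH n * (1 / (l : ℝ)))) := by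
    rw [ae_all_iff]
    intro l
    by_cases hl : 10 ≤ l
    · obtain ⟨b1, b2, b3, b4⟩ := hbd l hl
      have b5 : 0 < 1 / (l : ℝ) * (1 / (8 * (l : ℝ))) := mul_pos b1 b3
      have b6 : 1 / (l : ℝ) * (1 / (8 * (l : ℝ))) ≤ 1 / 10 * (1 / 80) :=
        mul_le_mul b2 b4 b3.le (by norm_num)
      have e1 : (1 + 1 / (l : ℝ)) * (1 + 1 / (8 * (l : ℝ))) =
        1 + 1 / (l : ℝ) + 1 / (8 * (l : ℝ)) + 1 / (l : ℝ) * (1 / (8 * (l : ℝ))) := by ring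
      filter_upwards [aeY hZ hthr n l c hl ((1 + 1 / (l : ℝ)) * (1 + 1 / (8 * (l : ℝ))))
        (by rw [e1]; linarith) (by rw [e1]; linarith) G hG] with a ha _
      exact ha
    · exact Eventually.of_forall fun a h => absurd h hl
  have hmeas : MeasurableSet (Cu (2 * n)) := measurableSet_Icc
  filter_upwards [hh1, hh2, ae_restrict_mem hmeas] with a ha1 ha2 ha
  refine det_bX (TZ Z (SS G (ep θ) a)) (TZ_two (MM_log hZ hZ2) (FinY_lim h1 hG ha)) n (BH n)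
    (det_x _ (fun p => FinY_prod _ n) (BH n) (4 * n) (BH_pos n).le (by positivity)
    fun l hl => ⟨Exc Z n l, fun R => exc hZ n l hl R, ?_, ?_⟩)
  · -- the windows without a threshold
    intro δ hδ
    obtain ⟨b1, b2, b3, b4⟩ := hbd l hl
    obtain ⟨Y, hY, HY⟩ := FinY_pat c h h1 hZ hZ2 n (2 * n) l hl
    have hr : 1 < 1 + 1 / (l : ℝ) := by linarith
    have e1 : ∀ᶠ k : ℕ in atTop, Y ≤ (1 + 1 / (l : ℝ)) ^ k :=
      (tendsto_pow_atTop_atTop_of_one_lt hr).eventually_ge_atTop Y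
    have e2 := (ha1 l hl).eventually (Metric.ball_mem_nhds _ hδ)
    filter_upwards [e1, e2] with k hk1 hk2 hk3
    rw [Real.dist_eq] at hk2
    have e3 : (∑ p ∈ Finset.Ioc ⌊(1 + 1 / (l : ℝ)) ^ k⌋₊ ⌊(1 + 1 / (l : ℝ)) ^ (k + 1)⌋₊,
        ∏ i ∈ Finset.range (n + 1), th ((TZ Z (SS G (ep θ) a))^[i] p)) =
        VL (pq Z ((1 + 1 / (l : ℝ)) ^ k * (1 - 1 / (8 * (l : ℝ)))))
        (SS G (ep θ) a) n ((1 + 1 / (l : ℝ)) ^ k) ((1 + 1 / (l : ℝ)) ^ (k + 1)) := by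
      unfold VL
      refine Finset.sum_congr rfl fun p hp => ?_
      rw [Finset.mem_Ioc] at hp
      have hp1 : (1 + 1 / (l : ℝ)) ^ k < p := Nat.lt_of_floor_lt hp.1
      have hp2 : (p : ℝ) ≤ (1 + 1 / (l : ℝ)) * (1 + 1 / (l : ℝ)) ^ k := by
        have h5 := (Nat.cast_le (α := ℝ)).2 hp.2
        have h6 := Nat.floor_le (show (0 : ℝ) ≤ (1 + 1 / (l : ℝ)) ^ (k + 1) by positivity)
        rw [← pow_succ']
        exact h5.trans h6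
      have h7 : ∀ i < n, pq Z ((1 + 1 / (l : ℝ)) ^ k * (1 - 1 / (8 * (l : ℝ)))) i =
          MM Z ((TZ Z (SS G (ep θ) a))^[i] p) := by
        rcases HY _ hk1 G hG a ha p hp1 hp2 with h8 | h8
        · exact fun i hi => (h8 i hi).symm
        · intro i hi
          rw [h8 i hi]
          by_contra h9
          exact hk3 ⟨i, hi, h9⟩
      refine Finset.prod_congr rfl fun i hi => ?_
      rw [cl_TZ Z (SS G (ep θ) a) p _ n h7 i (by rw [Finset.mem_range] at hi; omega)]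
    rw [e3]
    exact hk2.le
  · -- the upper bound
    obtain ⟨b1, b2, b3, b4⟩ := hbd l hl
    obtain ⟨Y, hY, HY⟩ := FinY_pat c h h1 hZ hZ2 n (2 * n) l hl
    have hr : 1 < 1 + 1 / (l : ℝ) := by linarith
    have e1 : ∀ᶠ k : ℕ in atTop, Y ≤ (1 + 1 / (l : ℝ)) ^ k :=
      (tendsto_pow_atTop_atTop_of_one_lt hr).eventually_ge_atTop Y
    have hBH := BH_pos n
    have e2 : ∀ᶠ k : ℕ in atTop, VL (pq Z ((1 + 1 / (l : ℝ)) ^ k * (1 - 1 / (8 * (l : ℝ)))))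
        (SS G (ep θ) a) n ((1 + 1 / (l : ℝ)) ^ k) ((1 + 1 / (l : ℝ)) ^ (k + 1)) /
        (1 + 1 / (l : ℝ)) ^ k < (BH n + 1) * (1 / (l : ℝ)) :=
      (ha1 l hl).eventually_lt_const (by nlinarith)
    have e3 : ∀ᶠ k : ℕ in atTop, VL (pq Z ((1 + 1 / (l : ℝ)) ^ k *
        ((1 + 1 / (l : ℝ)) * (1 + 1 / (8 * (l : ℝ))))))
        (SS G (ep θ) a) n ((1 + 1 / (l : ℝ)) ^ k) ((1 + 1 / (l : ℝ)) ^ (k + 1)) /
        (1 + 1 / (l : ℝ)) ^ k < (BH n + 1) * (1 / (l : ℝ)) :=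
      (ha2 l hl).eventually_lt_const (by nlinarith)
    filter_upwards [e1, e2, e3] with k hk1 hk2 hk3
    have hy0 : 0 < (1 + 1 / (l : ℝ)) ^ k := by positivity
    have e4 : (∑ p ∈ Finset.Ioc ⌊(1 + 1 / (l : ℝ)) ^ k⌋₊ ⌊(1 + 1 / (l : ℝ)) ^ (k + 1)⌋₊,
        ∏ i ∈ Finset.range (n + 1), th ((TZ Z (SS G (ep θ) a))^[i] p)) ≤
        VL (pq Z ((1 + 1 / (l : ℝ)) ^ k * (1 - 1 / (8 * (l : ℝ)))))
        (SS G (ep θ) a) n ((1 + 1 / (l : ℝ)) ^ k) ((1 + 1 / (l : ℝ)) ^ (k + 1)) +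
        VL (pq Z ((1 + 1 / (l : ℝ)) ^ k *
        ((1 + 1 / (l : ℝ)) * (1 + 1 / (8 * (l : ℝ))))))
        (SS G (ep θ) a) n ((1 + 1 / (l : ℝ)) ^ k) ((1 + 1 / (l : ℝ)) ^ (k + 1)) := by
      unfold VL
      rw [← Finset.sum_add_distrib]
      refine Finset.sum_le_sum fun p hp => ?_
      rw [Finset.mem_Ioc] at hp
      have hp1 : (1 + 1 / (l : ℝ)) ^ k < p := Nat.lt_of_floor_lt hp.1
      have hp2 : (p : ℝ) ≤ (1 + 1 / (l : ℝ)) * (1 + 1 / (l : ℝ)) ^ k := by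
        have h5 := (Nat.cast_le (α := ℝ)).2 hp.2
        have h6 := Nat.floor_le (show (0 : ℝ) ≤ (1 + 1 / (l : ℝ)) ^ (k + 1) by positivity)
        rw [← pow_succ']
        exact h5.trans h6
      rcases HY _ hk1 G hG a ha p hp1 hp2 with h8 | h8
      · have h9 : (∏ i ∈ Finset.range (n + 1), th ((TZ Z (SS G (ep θ) a))^[i] p)) =
            ∏ i ∈ Finset.range (n + 1), th (cl (pq Z ((1 + 1 / (l : ℝ)) ^ k *
              (1 - 1 / (8 * (l : ℝ))))) (SS G (ep θ) a) p i) := by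
          refine Finset.prod_congr rfl fun i hi => ?_
          rw [cl_TZ Z (SS G (ep θ) a) p _ n (fun i hi => (h8 i hi).symm) i
            (by rw [Finset.mem_range] at hi; omega)]
        rw [h9]
        exact le_add_of_nonneg_right (FinY_prod _ n)
      · have h9 : (∏ i ∈ Finset.range (n + 1), th ((TZ Z (SS G (ep θ) a))^[i] p)) =
            ∏ i ∈ Finset.range (n + 1), th (cl (pq Z ((1 + 1 / (l : ℝ)) ^ k *
              ((1 + 1 / (l : ℝ)) * (1 + 1 / (8 * (l : ℝ)))))) (SS G (ep θ) a) p i) := by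
          refine Finset.prod_congr rfl fun i hi => ?_
          rw [cl_TZ Z (SS G (ep θ) a) p _ n (fun i hi => (h8 i hi).symm) i
            (by rw [Finset.mem_range] at hi; omega)]
        rw [h9]
        exact le_add_of_nonneg_left (FinY_prod _ n)
    have e5 := div_le_div_of_nonneg_right e4 hy0.le
    rw [add_div] at e5
    refine e5.trans ?_
    have e6 : 0 ≤ (BH n + 1) * (1 / (l : ℝ)) := by positivity
    linarith

end Pool.Agent.PCy
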