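import Pool.Agent.PCy.GroY
import Pool.Agent.PCy.AvgY
import Pool.Agent.PCx.GgX

/-!
# The average over the motion, in terms of the expected values

As `avg_cl` in `Pool/Agent/PCx/GgX.lean`: `avgY` with `M = μ i`, `W = gg B μ r (i+1)` (`gg_mod`, `gg_bd`: `w = (B/φ(B))^n`), `q = cl i`,
`z = SS G (ep θ) a (cl i) / μ i` (`|z| ≤ y/(40 μ i)` as `|SS| ≤ y/(40 B)` by `growY`; `μ i > 0`), so `2q + 1 + M z = ps μ S p i`; the main
term is `gg B μ (r+1) i (cl i)` by definition.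
-/

namespace Pool.Agent.PCy

open Pool.Agent.PCn Pool.Agent.PCx

theorem avg_clY (c : ℝ) {θ : ℝ} (h : 1 / 2 < θ) (h1 : θ < 1) (B n m : ℕ) (hB : 0 < B) :
    ∃ Y : ℝ, 3 ≤ Y ∧ ∀ y ≥ Y, ∀ G : ℕ → ℝ, Ad c θ G → ∀ μ : ℕ → ℕ, (∀ i, μ i ∣ B) →
      ∀ a ∈ Cu m, ∀ p : ℕ, y < p → (p : ℝ) ≤ 11 / 10 * y → ∀ i < n, ∀ r ≤ n,
      |(1 / ty θ y) * (∫ s in (0 : ℝ)..ty θ y, thc (2 ^ (n + 4) * y)
          ((2 * (cl μ (SS G (ep θ) a) p i : ℤ) + 1 +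
            μ i * ⌊SS G (ep θ) a (cl μ (SS G (ep θ) a) p i) / μ i + s⌋).toNat) *
          gg B μ r (i + 1) ((2 * (cl μ (SS G (ep θ) a) p i : ℤ) + 1 +
            μ i * ⌊SS G (ep θ) a (cl μ (SS G (ep θ) a) p i) / μ i + s⌋).toNat)) -
        gg B μ (r + 1) i (cl μ (SS G (ep θ) a) p i)| ≤
        ((B : ℝ) / B.totient) ^ n * B *
          ph B (μ i * ty θ y) (ps μ (SS G (ep θ) a) p i) + y ^ (-(1 / 4) : ℝ) := by
  have hφ : 0 < B.totient := Nat.totient_pos.mpr hB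
  have hφ' : (0 : ℝ) < B.totient := by exact_mod_cast hφ
  have hB1 : (1 : ℝ) ≤ B := by exact_mod_cast hB
  have hq1 : 1 ≤ (B : ℝ) / B.totient := by
    rw [le_div_iff₀ hφ', one_mul]
    exact_mod_cast Nat.totient_le B
  obtain ⟨Y1, hY13, hY1⟩ := avgY B n hB h h1 (((B : ℝ) / B.totient) ^ n) (by positivity)
  obtain ⟨K, Y2, -, hY23, hY2⟩ := growY c h h1 B n m hB
  refine ⟨max Y1 Y2, hY13.trans (le_max_left _ _), ?_⟩
  intro y hy G hG μ hμ a ha p hp hp1 i hi r hr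
  have hy1 : Y1 ≤ y := (le_max_left _ _).trans hy
  have hy2 : Y2 ≤ y := (le_max_right _ _).trans hy
  have hy0 : 0 < y := by linarith
  have hM : 0 < μ i := Nat.pos_of_dvd_of_pos (hμ i) hB
  have hM1 : (1 : ℝ) ≤ μ i := by exact_mod_cast hM
  have hMB : (μ i : ℝ) ≤ B := by exact_mod_cast Nat.le_of_dvd hB (hμ i)
  obtain ⟨-, -, g1, g2, g3, -⟩ := hY2 y hy2 G hG a (Cu_sub m ha) μ hμ p hp hp1 i hi.le
  have h2i : (1 : ℝ) ≤ 2 ^ i := one_le_pow₀ (by norm_num)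
  have h2i' : (2 : ℝ) ^ i ≤ 2 ^ n := pow_le_pow_right₀ (by norm_num) hi.le
  have hq : 7 / 8 * y ≤ (cl μ (SS G (ep θ) a) p i : ℝ) := by
    refine le_trans ?_ g1
    have := mul_le_mul_of_nonneg_right h2i hy0.le
    linarith
  have hq' : (cl μ (SS G (ep θ) a) p i : ℝ) ≤ 2 ^ (n + 2) * y := by
    refine g2.trans ?_
    have h4 := mul_le_mul_of_nonneg_right h2i' hy0.le
    have h5 : (2 : ℝ) ^ (n + 2) * y = 4 * (2 ^ n * y) := by rw [pow_add]; ring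
    have h6 : (0 : ℝ) ≤ 2 ^ n * y := by positivity
    rw [h5]
    linarith
  have hz : |SS G (ep θ) a (cl μ (SS G (ep θ) a) p i) / μ i| ≤ y / (40 * μ i) := by
    rw [abs_div, abs_of_pos (by linarith : (0 : ℝ) < (μ i : ℝ)), div_le_div_iff₀ (by linarith)
      (by linarith)]
    have h4 : |SS G (ep θ) a (cl μ (SS G (ep θ) a) p i)| ≤ y / 40 := by
      refine g3.trans ?_
      apply div_le_div_of_nonneg_left hy0.le (by norm_num)
      linarith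
    have h5 := mul_le_mul_of_nonneg_right h4 (by linarith : (0 : ℝ) ≤ 40 * (μ i : ℝ))
    linarith
  have hW : ∀ c, 0 ≤ gg B μ r (i + 1) c ∧ gg B μ r (i + 1) c ≤ ((B : ℝ) / B.totient) ^ n := by
    intro c
    obtain ⟨h4, h5, -⟩ := gg_bd hB hμ r (i + 1) c
    exact ⟨h4, h5.trans (pow_le_pow_right₀ hq1 hr)⟩
  have key := hY1 y hy1 (μ i) (hμ i) (gg B μ r (i + 1)) (fun c => gg_mod hμ r (i + 1) c) hW
    (cl μ (SS G (ep θ) a) p i) hq hq' (SS G (ep θ) a (cl μ (SS G (ep θ) a) p i) / μ i) hz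
  have hps : 2 * (cl μ (SS G (ep θ) a) p i : ℝ) + 1 +
      μ i * (SS G (ep θ) a (cl μ (SS G (ep θ) a) p i) / μ i) = ps μ (SS G (ep θ) a) p i := by
    unfold ps
    rw [mul_div_cancel₀ _ (by linarith : (μ i : ℝ) ≠ 0)]
  rw [hps] at key
  exact key

end Pool.Agent.PCy
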