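import Pool.Agent.PCy.FinY
import Pool.Agent.PCx.InfX

/-!
# Infinitely many parameters

Copy and adapt `Pool/Agent/PCx/InfX.lean` (with its private lemmas), with `ε = ep θ`: for `b` in the box
`G b q = g q + q^θ ∑' j, (if j < m then 0 else b j)/(log q)^j` for `q ≥ 9` and `0` for `q < 9`, so
`|G b q| ≤ C q^θ + 2 q^θ ≤ c q^θ` with a natural number `c ≥ C + 2` (`Ad c θ (G b)`).  `fin_dimX` becomes `fin_dimY`; `si_small'` (public in InfX),
`TZ_two`, `MM_log`, `nt_congr`, `ae_comb`, `ae_box` as there (`ep θ q → 0`, `g q/q → 0`).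
-/

namespace Pool.Agent.PCy

open MeasureTheory Filter Topology Pool.Agent.PCn Pool.Agent.PCx

theorem ep_lim {θ : ℝ} (h1 : θ < 1) : Tendsto (ep θ) atTop (𝓝 0) := by
  have tX : Tendsto (fun x : ℕ => (x : ℝ)) atTop atTop := tendsto_natCast_atTop_atTop
  have h2 := (tendsto_rpow_neg_atTop (y := 1 - θ) (by linarith)).comp tX
  refine h2.congr fun q => ?_
  unfold ep
  simp only [Function.comp_apply, neg_sub]

private theorem InfY_C {θ : ℝ} {g : ℕ → ℝ} {C : ℝ} (hg : ∀ q : ℕ, |g q| ≤ C * (q : ℝ) ^ θ) :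
    0 ≤ C := by
  have h := (abs_nonneg _).trans (hg 1)
  rwa [Nat.cast_one, Real.one_rpow, mul_one] at h

private theorem InfY_ep {q : ℕ} (hq : 1 ≤ q) (θ : ℝ) : ep θ q * q = (q : ℝ) ^ θ := by
  have h0 : (0 : ℝ) < q := by exact_mod_cast hq
  unfold ep
  rw [Real.rpow_sub_one h0.ne']
  field_simp

theorem g_lim {θ : ℝ} (h1 : θ < 1) {g : ℕ → ℝ} {C : ℝ} (hg : ∀ q : ℕ, |g q| ≤ C * (q : ℝ) ^ θ) :
    Tendsto (fun q : ℕ => g q / q) atTop (𝓝 0) := by
  have h2 := (ep_lim h1).const_mul C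
  rw [mul_zero] at h2
  refine squeeze_zero_norm' ?_ h2
  filter_upwards [eventually_ge_atTop 1] with q hq
  have h0 : (0 : ℝ) < q := by exact_mod_cast hq
  rw [Real.norm_eq_abs, abs_div, abs_of_pos h0, div_le_iff₀ h0, mul_assoc, InfY_ep hq]
  exact hg q

private theorem InfY_log {q : ℕ} (hq : 9 ≤ q) : 2 ≤ Real.log q := by
  have h9 : (9 : ℝ) ≤ q := by exact_mod_cast hq
  rw [Real.le_log_iff_exp_le (by linarith)]
  refine le_trans ?_ h9
  have h1 : Real.exp 2 = Real.exp 1 * Real.exp 1 := by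
    rw [← Real.exp_add]; norm_num
  have h2 := Real.exp_one_lt_d9
  have h3 := Real.exp_pos 1
  rw [h1]
  nlinarith

private theorem InfY_term {q : ℕ} (hq : 9 ≤ q) {a : ℕ → ℝ} (ha : ∀ j, a j ∈ Set.Icc (0 : ℝ) 1)
    (j : ℕ) : ‖a j / Real.log q ^ j‖ ≤ (1 / 2 : ℝ) ^ j := by
  have h1 := InfY_log hq
  have h2 : (2 : ℝ) ^ j ≤ Real.log q ^ j := pow_le_pow_left₀ (by norm_num) h1 j
  have h3 : (0 : ℝ) < 2 ^ j := by positivity
  rw [norm_div, Real.norm_eq_abs, abs_of_nonneg (ha j).1, Real.norm_eq_abs,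
    abs_of_pos (lt_of_lt_of_le h3 h2), one_div, inv_pow, ← one_div]
  exact div_le_div₀ zero_le_one (ha j).2 h3 h2

private theorem InfY_summable {q : ℕ} (hq : 9 ≤ q) {a : ℕ → ℝ}
    (ha : ∀ j, a j ∈ Set.Icc (0 : ℝ) 1) : Summable fun j : ℕ => a j / Real.log q ^ j :=
  Summable.of_norm_bounded summable_geometric_two (InfY_term hq ha)

private theorem InfY_bound {q : ℕ} (hq : 9 ≤ q) {a : ℕ → ℝ}
    (ha : ∀ j, a j ∈ Set.Icc (0 : ℝ) 1) : |∑' j : ℕ, a j / Real.log q ^ j| ≤ 2 := by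
  have h := tsum_of_norm_bounded hasSum_geometric_two (InfY_term hq ha)
  rwa [Real.norm_eq_abs] at h

/-- the parameters cut off to the unit interval -/
private noncomputable def InfY_cl (a : ℕ → ℝ) (j : ℕ) : ℝ := max 0 (min 1 (a j))

private theorem InfY_cl_mem (a : ℕ → ℝ) (j : ℕ) : InfY_cl a j ∈ Set.Icc (0 : ℝ) 1 :=
  ⟨le_max_left _ _, max_le zero_le_one (min_le_left _ _)⟩

private theorem InfY_cl_eq {a : ℕ → ℝ} {j : ℕ} (h : a j ∈ Set.Icc (0 : ℝ) 1) :
    InfY_cl a j = a j := by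
  unfold InfY_cl
  rw [min_eq_right h.2, max_eq_right h.1]

/-- the map, with the parameters cut off, and `0` below `9` -/
private noncomputable def InfY_S (g ε : ℕ → ℝ) (a : ℕ → ℝ) (q : ℕ) : ℝ :=
  if 9 ≤ q then SI g ε (InfY_cl a) q else 0

private theorem InfY_S_meas (g ε : ℕ → ℝ) (q : ℕ) :
    Measurable fun a : ℕ → ℝ => InfY_S g ε a q := by
  unfold InfY_S
  by_cases hq : 9 ≤ q
  · simp only [if_pos hq]
    unfold SI
    refine Measurable.const_add (Measurable.const_mul ?_ _) _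
    refine measurable_of_tendsto_metrizable
      (f := fun N : ℕ => fun a : ℕ → ℝ => ∑ j ∈ Finset.range N, InfY_cl a j / Real.log q ^ j)
      (fun N => ?_) ?_
    · refine Finset.measurable_fun_sum _ fun j _ => ?_
      unfold InfY_cl
      exact ((measurable_const.max (measurable_const.min (measurable_pi_apply j)))).div_const _
    · rw [tendsto_pi_nhds]
      intro a
      exact (InfY_summable hq (InfY_cl_mem a)).hasSum.tendsto_sum_nat
  · simp only [if_neg hq]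
    exact measurable_const

private theorem InfY_TZ_meas {X : Type*} [MeasurableSpace X] (Z : ℕ → ℕ) (S : X → ℕ → ℝ)
    (hS : ∀ q, Measurable (fun x => S x q)) (q : ℕ) :
    Measurable fun x => TZ Z (S x) q := by
  unfold TZ Tr
  have h1 : Measurable fun x => ⌊S x q / (MM Z q : ℝ)⌋ :=
    Int.measurable_floor.comp ((hS q).div_const _)
  exact (Measurable.of_discrete
    (f := fun z : ℤ => (2 * (q : ℤ) + 1 + (MM Z q : ℤ) * z).toNat)).comp h1

private theorem InfY_iter_meas {X : Type*} [MeasurableSpace X] (Z : ℕ → ℕ) (S : X → ℕ → ℝ)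
    (hS : ∀ q, Measurable (fun x => S x q)) (p i : ℕ) :
    Measurable fun x => (TZ Z (S x))^[i] p := by
  induction i with
  | zero => simp
  | succ i ih =>
    simp only [Function.iterate_succ_apply']
    have h1 : Measurable fun z : X × ℕ => TZ Z (S z.1) z.2 :=
      measurable_from_prod_countable_left fun q => InfY_TZ_meas Z S hS q
    have h2 : Measurable fun x => ((x, (TZ Z (S x))^[i] p) : X × ℕ) := measurable_id'.prodMk ih
    have h3 : Measurable ((fun z : X × ℕ => TZ Z (S z.1) z.2) ∘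
        fun x => ((x, (TZ Z (S x))^[i] p) : X × ℕ)) := h1.comp h2
    simp only [Function.comp_def] at h3
    exact h3

open Classical in
private theorem InfY_NT_meas (Z : ℕ → ℕ) (g ε : ℕ → ℝ) (n x : ℕ) :
    Measurable fun a : ℕ → ℝ => (NT (TZ Z (InfY_S g ε a)) n x : ℝ) := by
  have h1 : ∀ a : ℕ → ℝ, (NT (TZ Z (InfY_S g ε a)) n x : ℝ) = ∑ p ∈ Finset.range (x + 1),
      if ∀ i ≤ n, ((TZ Z (InfY_S g ε a))^[i] p).Prime then (1 : ℝ) else 0 := by
    intro a
    unfold NT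
    rw [Finset.card_filter]
    push_cast
    rfl
  simp only [h1]
  refine Finset.measurable_fun_sum _ fun p _ => ?_
  refine Measurable.ite ?_ measurable_const measurable_const
  have h2 : {a : ℕ → ℝ | ∀ i ≤ n, ((TZ Z (InfY_S g ε a))^[i] p).Prime} =
      ⋂ i : ℕ, ⋂ _ : i ≤ n, {a : ℕ → ℝ | ((TZ Z (InfY_S g ε a))^[i] p).Prime} := by
    ext a
    simp
  rw [h2]
  refine MeasurableSet.iInter fun i => MeasurableSet.iInter fun _ => ?_
  exact InfY_iter_meas Z (InfY_S g ε) (InfY_S_meas g ε) p i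
    (MeasurableSet.of_discrete (s := {k : ℕ | k.Prime}))

/-- the base function: the terms from `m` on, and `0` below `9` -/
private noncomputable def InfY_G (g ε : ℕ → ℝ) (m : ℕ) (b : ℕ → ℝ) (q : ℕ) : ℝ :=
  if 9 ≤ q then SI g ε (fun j => if j < m then 0 else b j) q else 0

private theorem InfY_split {m q : ℕ} (hq : 9 ≤ q) (g ε : ℕ → ℝ) (x : Fin m → ℝ) (b : ℕ → ℝ)
    (hx : ∀ j, x j ∈ Set.Icc (0 : ℝ) 1) (hb : ∀ j, b j ∈ Set.Icc (0 : ℝ) 1) :
    SS (InfY_G g ε m b) ε x q = InfY_S g ε (comb m x b) q := by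
  have hc : ∀ j, comb m x b j ∈ Set.Icc (0 : ℝ) 1 := by
    intro j
    unfold comb
    split_ifs with h
    · exact hx _
    · exact hb _
  have hc' : InfY_cl (comb m x b) = comb m x b := by
    funext j
    exact InfY_cl_eq (hc j)
  have hd : ∀ j, (if j < m then 0 else b j) ∈ Set.Icc (0 : ℝ) 1 := by
    intro j
    split_ifs with h
    · exact ⟨le_rfl, zero_le_one⟩
    · exact hb _
  unfold InfY_S
  rw [if_pos hq, hc']
  unfold SS pf InfY_G SI
  rw [if_pos hq]
  have h1 : ∑' j : ℕ, comb m x b j / Real.log q ^ j =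
      (∑ j : Fin m, x j / Real.log q ^ (j : ℕ)) +
        ∑' j : ℕ, (if j < m then 0 else b j) / Real.log q ^ j := by
    rw [← (InfY_summable hq hc).sum_add_tsum_nat_add m,
      ← (InfY_summable hq hd).sum_add_tsum_nat_add m]
    have h2 : ∑ i ∈ Finset.range m, (if i < m then 0 else b i) / Real.log q ^ i = 0 := by
      refine Finset.sum_eq_zero fun i hi => ?_
      rw [if_pos (Finset.mem_range.1 hi), zero_div]
    have h3 : ∑ i ∈ Finset.range m, comb m x b i / Real.log q ^ i =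
        ∑ j : Fin m, x j / Real.log q ^ (j : ℕ) := by
      rw [← Fin.sum_univ_eq_sum_range (fun i => comb m x b i / Real.log q ^ i) m]
      refine Finset.sum_congr rfl fun j _ => ?_
      have : comb m x b j = x j := by
        unfold comb
        rw [dif_pos j.2]
      rw [this]
    have h4 : ∀ i : ℕ, comb m x b (i + m) / Real.log q ^ (i + m) =
        (if i + m < m then 0 else b (i + m)) / Real.log q ^ (i + m) := by
      intro i
      have h5 : ¬ i + m < m := by omega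
      rw [if_neg h5]
      unfold comb
      rw [dif_neg h5]
    rw [h2, h3, tsum_congr h4, zero_add]
  rw [h1]
  ring

private theorem InfY_adm {θ : ℝ} {g : ℕ → ℝ} {C : ℝ} (hg : ∀ q : ℕ, |g q| ≤ C * (q : ℝ) ^ θ)
    {c : ℕ} (hc : C + 2 ≤ c) (m : ℕ) (b : ℕ → ℝ) (hb : ∀ j, b j ∈ Set.Icc (0 : ℝ) 1) :
    Ad c θ (InfY_G g (ep θ) m b) := by
  intro q
  have hd : ∀ j, (if j < m then 0 else b j) ∈ Set.Icc (0 : ℝ) 1 := by
    intro j
    split_ifs with h
    · exact ⟨le_rfl, zero_le_one⟩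
    · exact hb _
  have hq1 : 0 ≤ (q : ℝ) ^ θ := Real.rpow_nonneg (Nat.cast_nonneg q) θ
  unfold InfY_G
  split_ifs with hq
  · have h1 := InfY_bound hq hd
    unfold SI
    refine (abs_add_le _ _).trans ?_
    rw [InfY_ep (by omega), abs_mul, abs_of_nonneg hq1]
    have h2 : (q : ℝ) ^ θ * |∑' j : ℕ, (if j < m then 0 else b j) / Real.log q ^ j| ≤
        (q : ℝ) ^ θ * 2 := mul_le_mul_of_nonneg_left h1 hq1
    have h3 := mul_le_mul_of_nonneg_right hc hq1
    have h4 := hg q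
    linarith
  · rw [abs_zero]
    positivity

theorem inf_dimY {θ : ℝ} (h : 1 / 2 < θ) (h1 : θ < 1) {Z : ℕ → ℕ}
    (hZ : ∀ j, 2 ^ (j + 10) * (Z j + 1) ≤ Z (j + 1)) (hZ2 : ∀ j, Real.exp (QQ (j + 1)) ≤ Z j)
    (hthr : ∀ j n l c : ℕ, n ≤ j → 10 ≤ l → l ≤ j → c ≤ j → ∀ y : ℝ, (Z j : ℝ) ≤ 2 ^ (j + 5) * y →
      ∀ G : ℕ → ℝ, Ad c θ G → ∀ μ : ℕ → ℕ, (∀ i, μ i ∣ QQ (j + 1)) →
      (∫ a in Cu (2 * n), (VL μ (SS G (ep θ) a) n y ((1 + 1 / (l : ℝ)) * y) -
        kapL (QQ (j + 1)) μ n * (1 / (l : ℝ) * y)) ^ 2) ≤ y ^ 2 / Real.log y ^ 2)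
    {g : ℕ → ℝ} {C : ℝ} (hg : ∀ q : ℕ, |g q| ≤ C * (q : ℝ) ^ θ) (n : ℕ) :
    ∀ᵐ a ∂muI, Tendsto (fun x : ℕ =>
      (NT (TZ Z (SI g (ep θ) a)) n x : ℝ) * Real.log x ^ (n + 1) / x) atTop (𝓝 (BH n)) := by
  obtain ⟨c, hc⟩ : ∃ c : ℕ, C + 2 ≤ c := ⟨⌈C + 2⌉₊, Nat.le_ceil _⟩
  have hM := MM_log hZ hZ2
  have hg0 := g_lim h1 hg
  have hε := ep_lim h1
  have key : ∀ᵐ a ∂muI, Tendsto (fun x : ℕ => (NT (TZ Z (InfY_S g (ep θ) a)) n x : ℝ) *
      Real.log x ^ (n + 1) / x) atTop (𝓝 (BH n)) := by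
    refine ae_comb (2 * n) ?_ ?_
    · refine measurableSet_tendsto _ fun x => ?_
      exact ((InfY_NT_meas Z g (ep θ) n x).mul_const _).div_const _
    · filter_upwards [ae_box] with b hb
      filter_upwards [fin_dimY h h1 hZ hZ2 hthr n c _ (InfY_adm hg hc (2 * n) b hb),
        ae_restrict_mem (μ := (volume : Measure (Fin (2 * n) → ℝ))) (s := Cu (2 * n))
          measurableSet_Icc] with x hxx hxC
      have hx' : ∀ j, x j ∈ Set.Icc (0 : ℝ) 1 := fun j => ⟨hxC.1 j, hxC.2 j⟩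
      have hc : ∀ j, comb (2 * n) x b j ∈ Set.Icc (0 : ℝ) 1 := by
        intro j
        unfold comb
        split_ifs with h
        · exact hx' _
        · exact hb _
      have hS : Tendsto (fun q : ℕ => SS (InfY_G g (ep θ) (2 * n) b) (ep θ) x q / q) atTop
          (𝓝 0) := by
        refine (si_small' hg0 hε _ hc).congr' ?_
        filter_upwards [eventually_ge_atTop 9] with q hq
        rw [InfY_split hq g (ep θ) x b hx' hb]
        unfold InfY_S
        rw [if_pos hq]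
        have hc' : InfY_cl (comb (2 * n) x b) = comb (2 * n) x b := by
          funext j
          exact InfY_cl_eq (hc j)
        rw [hc']
      refine nt_congr _ _ (TZ_two hM hS) 9 (fun q hq => ?_) n _ hxx
      unfold TZ Tr
      rw [InfY_split hq g (ep θ) x b hx' hb]
  filter_upwards [key, ae_box] with a ha hb
  have hcl : InfY_cl a = a := by
    funext j
    exact InfY_cl_eq (hb j)
  have hS : Tendsto (fun q : ℕ => InfY_S g (ep θ) a q / q) atTop (𝓝 0) := by
    refine (si_small' hg0 hε a hb).congr' ?_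
    filter_upwards [eventually_ge_atTop 9] with q hq
    unfold InfY_S
    rw [if_pos hq, hcl]
  refine nt_congr _ _ (TZ_two hM hS) 9 (fun q hq => ?_) n _ ha
  unfold TZ Tr InfY_S
  rw [if_pos hq, hcl]

end Pool.Agent.PCy
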