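import Pool.Agent.PCy.MomY
import Pool.Agent.PCx.ThrX

/-!
# The thresholds

As `thrX` in `Pool/Agent/PCx/ThrX.lean` (copy the private definitions and lemmas about the recursion), with `momY` for all `n, l, c ≤ j`
(`10 ≤ l`, `r = 1 + 1/l`, `m = 2n`, `B = QQ (j+1)`).
-/

namespace Pool.Agent.PCy

open MeasureTheory Pool.Agent.PCn Pool.Agent.PCx

/-- the thresholds -/
private def ThrY_Z (W : ℕ → ℕ) : ℕ → ℕ
  | 0 => W 0
  | j + 1 => W (j + 1) + 2 ^ (j + 10) * (ThrY_Z W j + 1)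

private theorem ThrY_Z_le (W : ℕ → ℕ) (j : ℕ) : W j ≤ ThrY_Z W j := by
  cases j with
  | zero => exact le_rfl
  | succ j => exact Nat.le_add_right _ _

theorem thrY {θ : ℝ} (h : 1 / 2 < θ) (h1 : θ < 1) : ∃ Z : ℕ → ℕ,
    (∀ j, 2 ^ (j + 10) * (Z j + 1) ≤ Z (j + 1)) ∧ (∀ j, Real.exp (QQ (j + 1)) ≤ Z j) ∧
    ∀ j n l c : ℕ, n ≤ j → 10 ≤ l → l ≤ j → c ≤ j → ∀ y : ℝ, (Z j : ℝ) ≤ 2 ^ (j + 5) * y →
    ∀ G : ℕ → ℝ, Ad c θ G → ∀ μ : ℕ → ℕ, (∀ i, μ i ∣ QQ (j + 1)) →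
    (∫ a in Cu (2 * n), (VL μ (SS G (ep θ) a) n y ((1 + 1 / (l : ℝ)) * y) -
      kapL (QQ (j + 1)) μ n * (1 / (l : ℝ) * y)) ^ 2) ≤ y ^ 2 / Real.log y ^ 2 := by
  have h2 : ∀ j n l c : ℕ, ∃ Y : ℝ, 10 ≤ l → ∀ y ≥ Y, ∀ G : ℕ → ℝ, Ad c θ G → ∀ μ : ℕ → ℕ,
      (∀ i, μ i ∣ QQ (j + 1)) →
      (∫ a in Cu (2 * n), (VL μ (SS G (ep θ) a) n y ((1 + 1 / (l : ℝ)) * y) -
        kapL (QQ (j + 1)) μ n * (1 / (l : ℝ) * y)) ^ 2) ≤ y ^ 2 / Real.log y ^ 2 := by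
    intro j n l c
    by_cases hl : 10 ≤ l
    · have hl' : (10 : ℝ) ≤ l := by exact_mod_cast hl
      have hl0 : 0 < 1 / (l : ℝ) := by positivity
      have hl1 : 1 / (l : ℝ) ≤ 1 / 10 := one_div_le_one_div_of_le (by norm_num) hl'
      obtain ⟨Y, -, hm⟩ := momY (c : ℝ) h h1 (QQ (j + 1)) n (2 * n) (QQ_pos _) le_rfl
        (1 + 1 / (l : ℝ)) (by linarith) (by linarith)
      refine ⟨Y, fun _ y hy G hG μ hμ => ?_⟩
      have h3 := hm y hy G hG μ hμ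
      have h4 : 1 + 1 / (l : ℝ) - 1 = 1 / (l : ℝ) := by ring
      rw [h4] at h3
      exact h3
    · exact ⟨0, fun h' => absurd h' hl⟩
  choose Y hY using h2
  obtain ⟨W, hW⟩ : ∃ W : ℕ → ℕ, W = fun j => ⌈Real.exp (QQ (j + 1))⌉₊ +
      ∑ n ∈ Finset.range (j + 1), ∑ l ∈ Finset.range (j + 1), ∑ c ∈ Finset.range (j + 1),
        ⌈2 ^ (j + 5) * |Y j n l c|⌉₊ :=
    ⟨_, rfl⟩
  refine ⟨ThrY_Z W, fun j => Nat.le_add_left _ _, fun j => ?_, ?_⟩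
  · have h2 : ⌈Real.exp (QQ (j + 1))⌉₊ ≤ ThrY_Z W j := by
      refine le_trans ?_ (ThrY_Z_le W j)
      rw [hW]
      exact Nat.le_add_right _ _
    exact (Nat.le_ceil _).trans (by exact_mod_cast h2)
  · intro j n l c hn hl hlj hc y hy
    have h2 : ⌈2 ^ (j + 5) * |Y j n l c|⌉₊ ≤ ThrY_Z W j := by
      refine le_trans ?_ (ThrY_Z_le W j)
      have h3 : ⌈2 ^ (j + 5) * |Y j n l c|⌉₊ ≤
          ∑ c ∈ Finset.range (j + 1), ⌈2 ^ (j + 5) * |Y j n l c|⌉₊ :=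
        Finset.single_le_sum (f := fun c => ⌈2 ^ (j + 5) * |Y j n l c|⌉₊)
          (fun _ _ => Nat.zero_le _) (Finset.mem_range.2 (by omega))
      have h4 : ∑ c ∈ Finset.range (j + 1), ⌈2 ^ (j + 5) * |Y j n l c|⌉₊ ≤
          ∑ l ∈ Finset.range (j + 1), ∑ c ∈ Finset.range (j + 1),
            ⌈2 ^ (j + 5) * |Y j n l c|⌉₊ :=
        Finset.single_le_sum
          (f := fun l => ∑ c ∈ Finset.range (j + 1), ⌈2 ^ (j + 5) * |Y j n l c|⌉₊)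
          (fun _ _ => Nat.zero_le _) (Finset.mem_range.2 (by omega))
      have h5 : ∑ l ∈ Finset.range (j + 1), ∑ c ∈ Finset.range (j + 1),
            ⌈2 ^ (j + 5) * |Y j n l c|⌉₊ ≤
          ∑ n ∈ Finset.range (j + 1), ∑ l ∈ Finset.range (j + 1), ∑ c ∈ Finset.range (j + 1),
            ⌈2 ^ (j + 5) * |Y j n l c|⌉₊ :=
        Finset.single_le_sum
          (f := fun n => ∑ l ∈ Finset.range (j + 1), ∑ c ∈ Finset.range (j + 1),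
            ⌈2 ^ (j + 5) * |Y j n l c|⌉₊)
          (fun _ _ => Nat.zero_le _) (Finset.mem_range.2 (by omega))
      rw [hW]
      exact ((h3.trans h4).trans h5).trans (Nat.le_add_left _ _)
    have h3 : (2 ^ (j + 5) * |Y j n l c| : ℝ) ≤ 2 ^ (j + 5) * y := by
      refine ((Nat.le_ceil _).trans ?_).trans hy
      exact_mod_cast h2
    have h4 : |Y j n l c| ≤ y := le_of_mul_le_mul_left h3 (by positivity)
    exact hY j n l c hl y ((le_abs_self _).trans h4)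

end Pool.Agent.PCy
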