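import Pool.Agent.PCy.InfY
import Pool.Agent.PCy.ThrY
import Pool.Agent.PCx.MainX

/-!
# Exact lengths

As `Pool/Agent/PCx/MainX.lean` (with its private lemmas): `Z` from `thrY`, `Mf = MM Z`, `inf_dimY` for all `n`.
-/

namespace Pool.Agent.PCy

open MeasureTheory Filter Topology Pool.Agent.PCn Pool.Agent.PCx

open Classical in
/-- the number of the `p ≤ x` which start a chain of exact length `n + 1` -/
private noncomputable def MainY_E (T : ℕ → ℕ) (n x : ℕ) : ℕ :=
  ((Finset.range (x + 1)).filter (fun p => (∀ i < n + 1, (T^[i] p).Prime) ∧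
    1 < (T^[n + 1] p) ∧ ¬ (T^[n + 1] p).Prime)).card

open Classical in
private theorem MainY_upper (T : ℕ → ℕ) (n x : ℕ) :
    MainY_E T n x + NT T (n + 1) x ≤ NT T n x := by
  unfold MainY_E NT
  rw [← Finset.card_union_of_disjoint]
  · refine Finset.card_le_card ?_
    intro p hp
    rcases Finset.mem_union.1 hp with hp | hp
    · obtain ⟨h1, h2, -⟩ := Finset.mem_filter.1 hp
      exact Finset.mem_filter.2 ⟨h1, fun i hi => h2 i (by omega)⟩
    · obtain ⟨h1, h2⟩ := Finset.mem_filter.1 hp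
      exact Finset.mem_filter.2 ⟨h1, fun i hi => h2 i (by omega)⟩
  · rw [Finset.disjoint_left]
    intro p hp hp'
    exact (Finset.mem_filter.1 hp).2.2.2 ((Finset.mem_filter.1 hp').2 (n + 1) le_rfl)

open Classical in
private theorem MainY_lower {T : ℕ → ℕ} {P : ℕ} (hP : ∀ p ≥ P, ∀ i, 2 ≤ T^[i] p)
    (n x : ℕ) : NT T n x ≤ MainY_E T n x + NT T (n + 1) x + P := by
  have hsub : (Finset.range (x + 1)).filter (fun p => ∀ i ≤ n, (T^[i] p).Prime) ⊆
      (((Finset.range (x + 1)).filter (fun p => (∀ i < n + 1, (T^[i] p).Prime) ∧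
        1 < (T^[n + 1] p) ∧ ¬ (T^[n + 1] p).Prime)) ∪
      ((Finset.range (x + 1)).filter (fun p => ∀ i ≤ n + 1, (T^[i] p).Prime))) ∪
        Finset.range P := by
    intro p hp
    obtain ⟨h1, h2⟩ := Finset.mem_filter.1 hp
    by_cases hpP : p < P
    · exact Finset.mem_union_right _ (Finset.mem_range.2 hpP)
    · refine Finset.mem_union_left _ ?_
      by_cases hpr : (T^[n + 1] p).Prime
      · refine Finset.mem_union_right _ (Finset.mem_filter.2 ⟨h1, fun i hi => ?_⟩)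
        rcases Nat.lt_or_ge n i with hi' | hi'
        · have : i = n + 1 := by omega
          rw [this]
          exact hpr
        · exact h2 i hi'
      · refine Finset.mem_union_left _ (Finset.mem_filter.2 ⟨h1, fun i hi => h2 i (by omega),
          ?_, hpr⟩)
        have := hP p (by omega) (n + 1)
        omega
  have h1 := Finset.card_le_card hsub
  have h2 := (Finset.card_union_le (((Finset.range (x + 1)).filter
    (fun p => (∀ i < n + 1, (T^[i] p).Prime) ∧
        1 < (T^[n + 1] p) ∧ ¬ (T^[n + 1] p).Prime)) ∪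
      ((Finset.range (x + 1)).filter (fun p => ∀ i ≤ n + 1, (T^[i] p).Prime)))
        (Finset.range P))
  have h3 := Finset.card_union_le ((Finset.range (x + 1)).filter
    (fun p => (∀ i < n + 1, (T^[i] p).Prime) ∧
        1 < (T^[n + 1] p) ∧ ¬ (T^[n + 1] p).Prime))
      ((Finset.range (x + 1)).filter (fun p => ∀ i ≤ n + 1, (T^[i] p).Prime))
  rw [Finset.card_range] at h2
  unfold NT MainY_E
  omega

private theorem MainY_log (n : ℕ) :
    Tendsto (fun x : ℕ => Real.log x ^ n / x) atTop (𝓝 0) := by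
  have h := (Real.isLittleO_pow_log_id_atTop (n := n)).tendsto_div_nhds_zero
  exact h.comp tendsto_natCast_atTop_atTop

private theorem MainY_lim {T : ℕ → ℕ} {P : ℕ} (hP : ∀ p ≥ P, ∀ i, 2 ≤ T^[i] p)
    (n : ℕ) (κ κ' : ℝ)
    (h : Tendsto (fun x : ℕ => (NT T n x : ℝ) * Real.log x ^ (n + 1) / x) atTop (𝓝 κ))
    (h' : Tendsto (fun x : ℕ => (NT T (n + 1) x : ℝ) * Real.log x ^ (n + 1 + 1) / x) atTop
      (𝓝 κ')) :
    Tendsto (fun x : ℕ => (MainY_E T n x : ℝ) * Real.log x ^ (n + 1) / x) atTop (𝓝 κ) := by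
  have hlog : Tendsto (fun x : ℕ => (Real.log x)⁻¹) atTop (𝓝 0) :=
    tendsto_inv_atTop_zero.comp (Real.tendsto_log_atTop.comp tendsto_natCast_atTop_atTop)
  have h1 : Tendsto (fun x : ℕ => (NT T (n + 1) x : ℝ) * Real.log x ^ (n + 1) / x) atTop
      (𝓝 0) := by
    have h2 := h'.mul hlog
    rw [mul_zero] at h2
    refine h2.congr' ?_
    filter_upwards [eventually_ge_atTop 3] with x hx
    have hx' : (1 : ℝ) < x := by
      have : (3 : ℝ) ≤ x := by exact_mod_cast hx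
      linarith
    have hl : Real.log x ≠ 0 := (Real.log_pos hx').ne'
    field_simp
    ring
  have h3 : Tendsto (fun x : ℕ => (P : ℝ) * (Real.log x ^ (n + 1) / x)) atTop (𝓝 0) := by
    have := (MainY_log (n + 1)).const_mul (P : ℝ)
    rwa [mul_zero] at this
  have hup : Tendsto (fun x : ℕ => (NT T n x : ℝ) * Real.log x ^ (n + 1) / x -
      (NT T (n + 1) x : ℝ) * Real.log x ^ (n + 1) / x) atTop (𝓝 κ) := by
    have := h.sub h1
    rwa [sub_zero] at this
  have hlo : Tendsto (fun x : ℕ => (NT T n x : ℝ) * Real.log x ^ (n + 1) / x -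
      (NT T (n + 1) x : ℝ) * Real.log x ^ (n + 1) / x -
      (P : ℝ) * (Real.log x ^ (n + 1) / x)) atTop (𝓝 κ) := by
    have := hup.sub h3
    rwa [sub_zero] at this
  refine tendsto_of_tendsto_of_tendsto_of_le_of_le' hlo hup ?_ ?_
  · filter_upwards [eventually_ge_atTop 3] with x hx
    have hx' : (1 : ℝ) < x := by
      have : (3 : ℝ) ≤ x := by exact_mod_cast hx
      linarith
    have hw : 0 ≤ Real.log x ^ (n + 1) / x :=
      div_nonneg (pow_nonneg (Real.log_pos hx').le _) (by linarith)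
    have hn : (NT T n x : ℝ) ≤ MainY_E T n x + NT T (n + 1) x + P := by
      exact_mod_cast MainY_lower hP n x
    have := mul_le_mul_of_nonneg_right hn hw
    rw [mul_div_assoc, mul_div_assoc, mul_div_assoc]
    linarith
  · filter_upwards [eventually_ge_atTop 3] with x hx
    have hx' : (1 : ℝ) < x := by
      have : (3 : ℝ) ≤ x := by exact_mod_cast hx
      linarith
    have hw : 0 ≤ Real.log x ^ (n + 1) / x :=
      div_nonneg (pow_nonneg (Real.log_pos hx').le _) (by linarith)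
    have hn : (MainY_E T n x : ℝ) + NT T (n + 1) x ≤ NT T n x := by
      exact_mod_cast MainY_upper T n x
    have := mul_le_mul_of_nonneg_right hn hw
    rw [mul_div_assoc, mul_div_assoc, mul_div_assoc]
    linarith

open Classical in
theorem mainY {θ : ℝ} (h : 1 / 2 < θ) (h1 : θ < 1) :
    ∃ Mf : ℕ → ℕ, (∀ q, 0 < Mf q) ∧ (∀ d : ℕ, 0 < d → ∀ᶠ q : ℕ in atTop, d ∣ Mf q) ∧
      (∀ᶠ q : ℕ in atTop, (Mf q : ℝ) ≤ Real.log q) ∧
      ∀ (g : ℕ → ℝ) (C : ℝ), (∀ q : ℕ, |g q| ≤ C * (q : ℝ) ^ θ) →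
      ∀ᵐ a ∂muI, ∀ k : ℕ, 1 ≤ k → Tendsto (fun x : ℕ =>
        (((Finset.range (x + 1)).filter (fun p =>
          (∀ i < k, ((fun q => Tr (Mf q) (SI g (ep θ) a) q)^[i] p).Prime) ∧
          1 < ((fun q => Tr (Mf q) (SI g (ep θ) a) q)^[k] p) ∧
          ¬ ((fun q => Tr (Mf q) (SI g (ep θ) a) q)^[k] p).Prime)).card : ℝ) *
          Real.log x ^ k / x) atTop (𝓝 (BH (k - 1))) := by
  obtain ⟨Z, hZ1, hZ2, hthr⟩ := thrY h h1
  refine ⟨MM Z, fun q => QQ_pos _, fun d hd => MM_dvd hZ1 hd, MM_log hZ1 hZ2, ?_⟩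
  intro g C hg
  have hZ3 := fun n : ℕ => inf_dimY h h1 hZ1 hZ2 hthr hg n
  have h2 : ∀ᵐ a ∂muI, ∀ n : ℕ,
      Tendsto (fun x : ℕ => (NT (TZ Z (SI g (ep θ) a)) n x : ℝ) * Real.log x ^ (n + 1) / x) atTop
        (𝓝 (BH n)) := ae_all_iff.2 hZ3
  filter_upwards [h2, ae_box] with a ha hbox
  intro k hk
  obtain ⟨n, rfl⟩ : ∃ n, k = n + 1 := ⟨k - 1, by omega⟩
  obtain ⟨P, hP⟩ := iter_large
    (TZ_two (MM_log hZ1 hZ2) (si_small' (g_lim h1 hg) (ep_lim h1) a hbox)) 2
  have h3 := MainY_lim hP n (BH n) (BH (n + 1)) (ha n) (ha (n + 1))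
  exact h3

end Pool.Agent.PCy
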