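import Pool.Agent.PCy.BasY
import Pool.Agent.PCy.FlowY
import Pool.Agent.PCn.Interp
import Pool.Agent.PCx.StepU

/-!
# One step of a chain, motion of length `y^τ`

As `step_unif` and `stepU` in `Pool/Agent/PCx/StepU.lean` (copy and adapt; `SS_div`, `T_div` are there).  Let `η = eta θ m`,
`t = ty θ y = y^τ`, `τ = (θ + 1/2)/2`.  `stepY`: for `i` with `F i ≠ 0` take the vector `v i` of `interp` (nodes `I i`, moving node `q i`,
`Y := 2^(n+2) y`, `D := y^(1-η)`, `e := ep θ (q i) / M`), for the other `i` take `v i = 0`.  Then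
`|v_j| ≤ (2^(n+3) y^η log(2^(n+2) y)^2)^(|I|) M/(q i)^θ`, `|I| ≤ m - 1`, `(q i)^θ ≥ (7/8 y)^θ ≥ y^θ/2`, so
`|v_j| ≤ ρ := 2 B (2^(n+3) log(2^(n+2) y)^2)^(m-1) y^(η (m-1) - θ)` (if `m = 0` there is no `i` with `F i ≠ 0`), and `t ρ = polylog * y^(τ - θ + η (m-1))`,
where `τ - θ = -(θ - 1/2)/2` and `η (m - 1) ≤ (θ - 1/2)(m-1)/(2(m+1))`, so the exponent is at most `-(θ-1/2)/(m+1) ≤ -2η`, and
`4 m 2^m t ρ ≤ y^(-η)` for large `y` (`logsY`; this needs an upper bound for `log` only), `t ρ ≤ 1/4`.  `flowE` with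
`H i z = F i * f i ((2 (q i) + 1 + M ⌊z⌋).toNat)`, `ℓ a = SS G (ep θ) a (q (π a)) / M`, `K = KF * Kf`, `κ i := F i * κ i`,
`E a := KF * E a`.
-/

namespace Pool.Agent.PCy

open MeasureTheory Pool.Agent.PCn Pool.Agent.PCx

private theorem StepY_SS (G ε : ℕ → ℝ) {m : ℕ} (a v : Fin m → ℝ) (s : ℝ) (r : ℕ) :
    SS G ε (a + s • v) r =
      SS G ε a r + s * (ε r * r * ∑ j : Fin m, v j / Real.log r ^ (j : ℕ)) := by
  unfold SS pf
  have e1 : ∑ j : Fin m, (a + s • v) j / Real.log r ^ (j : ℕ) =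
      ∑ j : Fin m, a j / Real.log r ^ (j : ℕ) + s * ∑ j : Fin m, v j / Real.log r ^ (j : ℕ) := by
    rw [Finset.mul_sum, ← Finset.sum_add_distrib]
    refine Finset.sum_congr rfl fun j _ => ?_
    simp only [Pi.add_apply, Pi.smul_apply, smul_eq_mul]
    ring
  rw [e1]
  ring

private theorem StepY_meas (G ε : ℕ → ℝ) {m : ℕ} {ι : Type} [Countable ι] [MeasurableSpace ι]
    [MeasurableSingletonClass ι] (π : (Fin m → ℝ) → ι) (hπ : Measurable π) (q : ι → ℕ) :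
    Measurable fun a : Fin m → ℝ => SS G ε a (q (π a)) := by
  unfold SS pf
  have h1 : ∀ g : ι → ℝ, Measurable fun a : Fin m → ℝ => g (π a) := fun g =>
    (measurable_of_countable g).comp hπ
  refine (h1 fun i => G (q i)).add ((h1 fun i => ε (q i) * q i).mul ?_)
  refine Finset.measurable_sum _ fun j _ => ?_
  exact (measurable_pi_apply j).div (h1 fun i => Real.log (q i) ^ (j : ℕ))

/-- the bound for the coordinates of the vectors of the motion -/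
private noncomputable def StepY_rho (θ : ℝ) (B n m : ℕ) (y : ℝ) : ℝ :=
  m * (2 * B * (2 ^ (n + 3) * Real.log (2 ^ (n + 2) * y) ^ 2) ^ (m - 1) *
    y ^ (eta θ m * ((m : ℝ) - 1) - θ))

/-- the vectors of the motion -/
private theorem StepY_vec {θ : ℝ} (h : 1 / 2 < θ) (h1 : θ < 1) (B n m M : ℕ) (hM : 0 < M)
    (hMB : M ≤ B) {y : ℝ} (hy4 : 4 ≤ y)
    (I : Finset ℕ) (q : ℕ) (hI : I.card < m) (hq : 7 / 8 * y ≤ q) (hq2 : (q : ℝ) ≤ 2 ^ (n + 2) * y)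
    (hr : ∀ r ∈ I, 7 / 8 * y ≤ r ∧ (r : ℝ) ≤ 2 ^ (n + 2) * y ∧
          y ^ (1 - eta θ m) ≤ |(r : ℝ) - q|) :
    ∃ v : Fin m → ℝ, (∀ r ∈ I, ∑ j : Fin m, v j / Real.log r ^ (j : ℕ) = 0) ∧
      ep θ q * q * ∑ j : Fin m, v j / Real.log q ^ (j : ℕ) = M ∧
      ∀ j, |v j| ≤ StepY_rho θ B n m y := by
  have h3 : ∀ r : ℕ, 7 / 8 * y ≤ r → 3 ≤ r := by
    intro r hr
    have : (3 : ℝ) ≤ r := by linarith
    exact_mod_cast this
  have hy0 : 0 < y := by linarith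
  have hy1 : 1 ≤ y := by linarith
  have hqpos : (0 : ℝ) < q := by linarith
  have hM' : (0 : ℝ) < M := by exact_mod_cast hM
  have hMB' : (M : ℝ) ≤ B := by exact_mod_cast hMB
  have hep : 0 < ep θ q := Real.rpow_pos_of_pos hqpos _
  have hη : 0 < eta θ m := eta_pos h h1 m
  have hm1 : 1 ≤ m := by omega
  have hm1' : (1 : ℝ) ≤ m := by exact_mod_cast hm1
  obtain ⟨v, hv1, hv2, hv3⟩ := interp I q hI (2 ^ (n + 2) * y) (y ^ (1 - eta θ m)) (ep θ q / M)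
    (h3 q hq) hq2 (fun r h => ⟨h3 r (hr r h).1, (hr r h).2.1⟩) (Real.rpow_pos_of_pos hy0 _)
    (fun r h => (hr r h).2.2) (div_pos hep hM')
  refine ⟨v, hv1, ?_, fun j => (hv3 j).trans ?_⟩
  · have : ep θ q / M * q * ∑ j : Fin m, v j / Real.log q ^ (j : ℕ) =
      (ep θ q * q * ∑ j : Fin m, v j / Real.log q ^ (j : ℕ)) / M := by ring
    rw [this, div_eq_one_iff_eq hM'.ne'] at hv2
    exact hv2
  obtain ⟨X, hX⟩ : ∃ X, X = Real.log (2 ^ (n + 2) * y) := ⟨_, rfl⟩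
  have hlq : Real.log q ≤ X := by
    rw [hX]
    exact Real.log_le_log hqpos hq2
  have hlq1 : 1 ≤ Real.log q := by
    rw [Real.le_log_iff_exp_le hqpos]
    have := Real.exp_one_lt_d9
    linarith
  have hX1 : 1 ≤ X := hlq1.trans hlq
  have hB : 2 * (2 ^ (n + 2) * y) * Real.log (2 ^ (n + 2) * y) ^ 2 / y ^ (1 - eta θ m) =
      2 ^ (n + 3) * X ^ 2 * y ^ eta θ m := by
    rw [← hX]
    have e1 : y = y ^ (1 - eta θ m) * y ^ eta θ m := by
      rw [← Real.rpow_add hy0]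
      simp
    have e2 : 0 < y ^ (1 - eta θ m) := Real.rpow_pos_of_pos hy0 _
    rw [div_eq_iff e2.ne']
    calc 2 * (2 ^ (n + 2) * y) * X ^ 2 = 2 ^ (n + 3) * X ^ 2 * y := by ring
      _ = 2 ^ (n + 3) * X ^ 2 * (y ^ (1 - eta θ m) * y ^ eta θ m) := by rw [← e1]
      _ = 2 ^ (n + 3) * X ^ 2 * y ^ eta θ m * y ^ (1 - eta θ m) := by ring
  rw [hB]
  have hyη : 1 ≤ y ^ eta θ m := Real.one_le_rpow hy1 hη.le
  have hB1 : 1 ≤ 2 ^ (n + 3) * X ^ 2 * y ^ eta θ m := by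
    have g1 : (1 : ℝ) ≤ 2 ^ (n + 3) := one_le_pow₀ (by norm_num)
    have g2 : (1 : ℝ) ≤ X ^ 2 := one_le_pow₀ hX1
    have g3 : 0 ≤ (2 : ℝ) ^ (n + 3) * X ^ 2 := by positivity
    have g4 : 1 ≤ (2 : ℝ) ^ (n + 3) * X ^ 2 := one_le_mul_of_one_le_of_one_le g1 g2
    exact one_le_mul_of_one_le_of_one_le g4 hyη
  have hP : (2 ^ (n + 3) * X ^ 2 * y ^ eta θ m) ^ I.card ≤
      (2 ^ (n + 3) * X ^ 2) ^ (m - 1) * y ^ (eta θ m * ((m : ℝ) - 1)) := by
    refine (pow_le_pow_right₀ hB1 (show I.card ≤ m - 1 by omega)).trans ?_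
    rw [mul_pow]
    apply le_of_eq
    congr 1
    rw [← Real.rpow_natCast, ← Real.rpow_mul hy0.le]
    congr 2
    rw [Nat.cast_sub hm1]
    simp
  have hE : 1 / (ep θ q / M * q) ≤ 2 * B * y ^ (-θ) := by
    have g1 : ep θ q * q = (q : ℝ) ^ θ := by
      unfold ep
      have : (q : ℝ) ^ (θ - 1) * (q : ℝ) = (q : ℝ) ^ (θ - 1) * (q : ℝ) ^ (1 : ℝ) := by
        rw [Real.rpow_one]
      rw [this, ← Real.rpow_add hqpos]
      congr 1
      ring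
    have g2 : (7 / 8 * y) ^ θ ≤ (q : ℝ) ^ θ :=
      Real.rpow_le_rpow (by positivity) hq (by linarith)
    have g3 : (7 / 8 * y) ^ θ = (7 / 8 : ℝ) ^ θ * y ^ θ :=
      Real.mul_rpow (by norm_num) hy0.le
    have g4 : (7 / 8 : ℝ) ≤ (7 / 8 : ℝ) ^ θ := by
      have := Real.rpow_le_rpow_of_exponent_ge (show (0 : ℝ) < 7 / 8 by norm_num)
        (by norm_num) h1.le
      rwa [Real.rpow_one] at this
    have hyθ : 0 < y ^ θ := Real.rpow_pos_of_pos hy0 _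
    have g5 : 1 / 2 * y ^ θ ≤ (q : ℝ) ^ θ := by
      rw [g3] at g2
      have g6 := mul_le_mul_of_nonneg_right g4 hyθ.le
      linarith
    have g6 : ep θ q / M * q = (q : ℝ) ^ θ / M := by rw [← g1]; ring
    rw [g6, Real.rpow_neg hy0.le, one_div_div]
    have g7 : 0 < (q : ℝ) ^ θ := Real.rpow_pos_of_pos hqpos _
    rw [div_le_iff₀ g7]
    have g8 : (1 : ℝ) ≤ 2 * (y ^ θ)⁻¹ * (q : ℝ) ^ θ := by
      have g9 := mul_le_mul_of_nonneg_left g5 (show (0 : ℝ) ≤ 2 * (y ^ θ)⁻¹ by positivity)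
      have g10 : 2 * (y ^ θ)⁻¹ * (1 / 2 * y ^ θ) = 1 := by
        field_simp
      linarith
    have hB0 : (0 : ℝ) ≤ B := Nat.cast_nonneg B
    have g11 := mul_le_mul_of_nonneg_left g8 hB0
    calc (M : ℝ) ≤ B * 1 := by linarith
      _ ≤ B * (2 * (y ^ θ)⁻¹ * (q : ℝ) ^ θ) := g11
      _ = 2 * B * (y ^ θ)⁻¹ * (q : ℝ) ^ θ := by ring
  have hpos : 0 ≤ 2 * B * (2 ^ (n + 3) * X ^ 2) ^ (m - 1) *
      y ^ (eta θ m * ((m : ℝ) - 1) - θ) := by
    have := Real.rpow_nonneg hy0.le (eta θ m * ((m : ℝ) - 1) - θ)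
    positivity
  have hd : 0 < ep θ q / M * q := mul_pos (div_pos hep hM') hqpos
  calc (2 ^ (n + 3) * X ^ 2 * y ^ eta θ m) ^ I.card / (ep θ q / M * q)
      = (2 ^ (n + 3) * X ^ 2 * y ^ eta θ m) ^ I.card * (1 / (ep θ q / M * q)) := by ring
    _ ≤ ((2 ^ (n + 3) * X ^ 2) ^ (m - 1) * y ^ (eta θ m * ((m : ℝ) - 1))) *
        (2 * B * y ^ (-θ)) := by
        apply mul_le_mul hP hE (by positivity)
        have := Real.rpow_nonneg hy0.le (eta θ m * ((m : ℝ) - 1))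
        positivity
    _ = 2 * B * (2 ^ (n + 3) * X ^ 2) ^ (m - 1) *
        y ^ (eta θ m * ((m : ℝ) - 1) - θ) := by
        rw [sub_eq_add_neg (eta θ m * ((m : ℝ) - 1)) θ, Real.rpow_add hy0]
        ring
    _ ≤ m * (2 * B * (2 ^ (n + 3) * X ^ 2) ^ (m - 1) *
        y ^ (eta θ m * ((m : ℝ) - 1) - θ)) := by
        have := mul_le_mul_of_nonneg_right hm1' hpos
        linarith
    _ = StepY_rho θ B n m y := by
        unfold StepY_rho
        rw [← hX]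

/-- the motion is small -/
private theorem StepY_small {θ : ℝ} (h : 1 / 2 < θ) (h1 : θ < 1) (B n m : ℕ) :
    ∃ Y : ℝ, 4 ≤ Y ∧ ∀ y ≥ Y, 0 ≤ StepY_rho θ B n m y ∧
      4 * (m : ℝ) * 2 ^ m * (ty θ y * StepY_rho θ B n m y) ≤ y ^ (-(eta θ m)) ∧
      ty θ y * StepY_rho θ B n m y ≤ 1 / 4 := by
  have hη : 0 < eta θ m := eta_pos h h1 m
  obtain ⟨Y1, hY13, hY1⟩ := logsY n (2 * (m - 1)) (eta θ m / 2) (half_pos hη)
  obtain ⟨C, hC⟩ : ∃ C : ℝ, C = 4 * (m : ℝ) * 2 ^ m * (m * (2 * B * (2 ^ (n + 3)) ^ (m - 1))) :=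
    ⟨_, rfl⟩
  obtain ⟨Y2, hY2⟩ := Filter.eventually_atTop.1
    ((tendsto_rpow_atTop (half_pos hη)).eventually_ge_atTop C)
  refine ⟨max (max Y1 Y2) 4, le_max_right _ _, fun y hy => ?_⟩
  have hy1 : Y1 ≤ y := (le_max_left _ _).trans ((le_max_left _ _).trans hy)
  have hy2 : Y2 ≤ y := (le_max_right _ _).trans ((le_max_left _ _).trans hy)
  have hy4 : 4 ≤ y := (le_max_right _ _).trans hy
  have hy0 : 0 < y := by linarith
  have hyone : 1 ≤ y := by linarith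
  obtain ⟨-, -, -, hl⟩ := hY1 y hy1
  have hCy : C ≤ y ^ (eta θ m / 2) := hY2 y hy2
  obtain ⟨X, hX⟩ : ∃ X, X = Real.log (2 ^ (n + 2) * y) := ⟨_, rfl⟩
  have h2y : (1 : ℝ) ≤ 2 ^ (n + 2) * y := by
    have : (1 : ℝ) ≤ 2 ^ (n + 2) := one_le_pow₀ (by norm_num)
    exact one_le_mul_of_one_le_of_one_le this hyone
  have hX0 : 0 ≤ X := by
    rw [hX]
    exact Real.log_nonneg h2y
  have hXX : X ≤ Real.log (2 ^ (n + 4) * y) := by
    rw [hX]
    apply Real.log_le_log (by linarith)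
    apply mul_le_mul_of_nonneg_right _ hy0.le
    exact pow_le_pow_right₀ (by norm_num) (by omega)
  have hXl : X ^ (2 * (m - 1)) ≤ y ^ (eta θ m / 2) := (pow_le_pow_left₀ hX0 hXX _).trans hl
  have hρ0 : 0 ≤ StepY_rho θ B n m y := by
    unfold StepY_rho
    have := Real.rpow_nonneg hy0.le (eta θ m * ((m : ℝ) - 1) - θ)
    positivity
  have hty0 : 0 < ty θ y := Real.rpow_pos_of_pos hy0 _
  have hexp : (θ + 1 / 2) / 2 + (eta θ m * ((m : ℝ) - 1) - θ) ≤ -(2 * eta θ m) := by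
    have g1 := eta_le' (θ := θ) m
    rw [le_div_iff₀ (by positivity)] at g1
    linarith
  have key : 4 * (m : ℝ) * 2 ^ m * (ty θ y * StepY_rho θ B n m y) ≤ y ^ (-(eta θ m)) := by
    have e1 : 4 * (m : ℝ) * 2 ^ m * (ty θ y * StepY_rho θ B n m y) =
        C * X ^ (2 * (m - 1)) * y ^ ((θ + 1 / 2) / 2 + (eta θ m * ((m : ℝ) - 1) - θ)) := by
      unfold StepY_rho ty
      rw [← hX, hC, Real.rpow_add hy0, mul_pow, pow_mul]
      ring
    rw [e1]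
    have e2 : y ^ ((θ + 1 / 2) / 2 + (eta θ m * ((m : ℝ) - 1) - θ)) ≤ y ^ (-(2 * eta θ m)) :=
      Real.rpow_le_rpow_of_exponent_le hyone hexp
    have hC0 : 0 ≤ C := by rw [hC]; positivity
    have e3 : C * X ^ (2 * (m - 1)) ≤ y ^ (eta θ m / 2) * y ^ (eta θ m / 2) :=
      mul_le_mul hCy hXl (by positivity) (Real.rpow_nonneg hy0.le _)
    have e4 : y ^ (eta θ m / 2) * y ^ (eta θ m / 2) = y ^ eta θ m := by
      rw [← Real.rpow_add hy0]
      congr 1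
      ring
    rw [e4] at e3
    calc C * X ^ (2 * (m - 1)) * y ^ ((θ + 1 / 2) / 2 + (eta θ m * ((m : ℝ) - 1) - θ))
        ≤ y ^ eta θ m * y ^ (-(2 * eta θ m)) :=
          mul_le_mul e3 e2 (Real.rpow_nonneg hy0.le _) (Real.rpow_nonneg hy0.le _)
      _ = y ^ (-(eta θ m)) := by
          rw [← Real.rpow_add hy0]
          congr 1
          ring
  refine ⟨hρ0, key, ?_⟩
  have hone : y ^ (-(eta θ m)) ≤ 1 := by
    rw [Real.rpow_neg hy0.le]
    exact inv_le_one_of_one_le₀ (Real.one_le_rpow hyone hη.le)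
  rcases Nat.eq_zero_or_pos m with hm | hm
  · have : StepY_rho θ B n m y = 0 := by
      unfold StepY_rho
      rw [hm]
      simp
    rw [this]
    norm_num
  · have hm' : (1 : ℝ) ≤ m := by exact_mod_cast hm
    have h2m : (1 : ℝ) ≤ 2 ^ m := one_le_pow₀ (by norm_num)
    have hz : 0 ≤ ty θ y * StepY_rho θ B n m y := mul_nonneg hty0.le hρ0
    have g1 : (1 : ℝ) ≤ m * 2 ^ m := one_le_mul_of_one_le_of_one_le hm' h2m
    have g2 := mul_le_mul_of_nonneg_right g1 hz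
    have g3 : 4 * (m : ℝ) * 2 ^ m * (ty θ y * StepY_rho θ B n m y) =
        4 * ((m : ℝ) * 2 ^ m * (ty θ y * StepY_rho θ B n m y)) := by ring
    rw [g3] at key
    linarith

theorem stepY {θ : ℝ} (h : 1 / 2 < θ) (h1 : θ < 1) (B n m : ℕ) :
    ∃ Y : ℝ, 3 ≤ Y ∧ ∀ y ≥ Y, ∀ (G : ℕ → ℝ) (M : ℕ), 0 < M → M ≤ B →
      ∀ (ι : Type) [Countable ι] [MeasurableSpace ι]
      [MeasurableSingletonClass ι] (π : (Fin m → ℝ) → ι), Measurable π →
      ∀ (I : ι → Finset ℕ) (q : ι → ℕ) (F : ι → ℝ) (f : ι → ℕ → ℝ) (κ : ι → ℝ) (KF Kf : ℝ)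
        (E : (Fin m → ℝ) → ℝ), 0 ≤ KF → 0 ≤ Kf →
      (∀ a a' : Fin m → ℝ, (∀ r ∈ I (π a), SS G (ep θ) a r = SS G (ep θ) a' r) →
        π a' = π a) →
      (∀ i, F i ≠ 0 → (I i).card < m ∧ 7 / 8 * y ≤ q i ∧ (q i : ℝ) ≤ 2 ^ (n + 2) * y ∧
        ∀ r ∈ I i, 7 / 8 * y ≤ r ∧ (r : ℝ) ≤ 2 ^ (n + 2) * y ∧
          y ^ (1 - eta θ m) ≤ |(r : ℝ) - q i|) →
      (∀ i, |F i| ≤ KF) →
      (∀ i c, |f i c| ≤ Kf) →
      IntegrableOn E (Cu m) → (∀ a ∈ Cu m, 0 ≤ E a) →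
      (∀ a ∈ Cu m, F (π a) ≠ 0 →
        |(1 / ty θ y) * (∫ s in (0 : ℝ)..ty θ y,
          f (π a) ((2 * (q (π a) : ℤ) + 1 +
            M * ⌊SS G (ep θ) a (q (π a)) / M + s⌋).toNat)) - κ (π a)| ≤ E a) →
      |(∫ a in Cu m, F (π a) * f (π a) (Tr M (SS G (ep θ) a) (q (π a)))) -
        ∫ a in Cu m, F (π a) * κ (π a)| ≤
        KF * (∫ a in Cu m, E a) + KF * Kf * y ^ (-(eta θ m)) := by
  classical
  obtain ⟨Y0, hY04, hY0⟩ := StepY_small h h1 B n m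
  refine ⟨Y0, by linarith, ?_⟩
  intro y hyY G M hM hMB ι _ _ _ π hπ I q F f κ KF Kf E hKF hKf hdep hgeom hF hf hEint hE0 havg
  have hy4 : 4 ≤ y := hY04.trans hyY
  have hy0 : 0 < y := by linarith
  have hM' : (0 : ℝ) < M := by exact_mod_cast hM
  obtain ⟨hρ0, hsmall, htρ4⟩ := hY0 y hyY
  obtain ⟨ρ, hρ⟩ : ∃ ρ, ρ = StepY_rho θ B n m y := ⟨_, rfl⟩
  rw [← hρ] at hρ0 hsmall htρ4
  have hex : ∀ i, ∃ v : Fin m → ℝ, (∀ j, |v j| ≤ ρ) ∧
      (∀ r ∈ I i, ∑ j : Fin m, v j / Real.log r ^ (j : ℕ) = 0) ∧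
      (F i ≠ 0 → ep θ (q i) * q i * ∑ j : Fin m, v j / Real.log (q i) ^ (j : ℕ) = M) := by
    intro i
    by_cases hFi : F i = 0
    · refine ⟨0, fun j => by simpa using hρ0, fun r _ => by simp, fun h => absurd hFi h⟩
    · obtain ⟨h11, h2, h3, h4⟩ := hgeom i hFi
      obtain ⟨v, hv1, hv2, hv3⟩ := StepY_vec h h1 B n m M hM hMB hy4 (I i) (q i) h11 h2 h3 h4
      exact ⟨v, fun j => by rw [hρ]; exact hv3 j, hv1, fun _ => hv2⟩
  choose v hv1 hv2 hv3 using hex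
  have hinv : ∀ (a : Fin m → ℝ) (s : ℝ), π (a + s • v (π a)) = π a := by
    intro a s
    refine hdep a _ fun r hr => ?_
    rw [StepY_SS, hv2 (π a) r hr]
    ring
  obtain ⟨H, hH⟩ : ∃ H : ι → ℝ → ℝ, H = fun i z =>
      F i * f i ((2 * (q i : ℤ) + 1 + M * ⌊z⌋).toNat) := ⟨_, rfl⟩
  have hHm : ∀ i, Measurable (H i) := by
    intro i
    rw [hH]
    exact (measurable_of_countable (fun k : ℤ =>
      F i * f i ((2 * (q i : ℤ) + 1 + M * k).toNat))).comp Int.measurable_floor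
  have hHb : ∀ i z, |H i z| ≤ KF * Kf := by
    intro i z
    rw [hH]
    simp only
    rw [abs_mul]
    exact mul_le_mul (hF i) (hf i _) (abs_nonneg _) hKF
  have hslide : ∀ (a : Fin m → ℝ) (s : ℝ), (∃ z, H (π a) z ≠ 0) →
      (fun a : Fin m → ℝ => SS G (ep θ) a (q (π a)) / M) (a + s • v (π a)) =
        (fun a : Fin m → ℝ => SS G (ep θ) a (q (π a)) / M) a + s := by
    rintro a s ⟨z, hz⟩
    have hFa : F (π a) ≠ 0 := by
      intro h0
      apply hz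
      rw [hH]
      simp only
      rw [h0, zero_mul]
    simp only
    rw [hinv a s, StepY_SS, hv3 (π a) hFa]
    field_simp
  have ht0 : 0 < ty θ y := Real.rpow_pos_of_pos hy0 _
  have havg' : ∀ a ∈ Set.Icc (0 : Fin m → ℝ) 1,
      |(1 / ty θ y) * (∫ s in (0 : ℝ)..ty θ y,
        H (π a) ((fun a : Fin m → ℝ => SS G (ep θ) a (q (π a)) / M) a + s)) -
        (fun i => F i * κ i) (π a)| ≤ (fun a => KF * E a) a := by
    intro a ha
    rw [hH]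
    simp only
    rw [intervalIntegral.integral_const_mul]
    by_cases hFa : F (π a) = 0
    · rw [hFa]
      simp only [zero_mul, mul_zero, sub_zero, abs_zero]
      exact mul_nonneg hKF (hE0 a ha)
    · have g1 := havg a ha hFa
      have g2 : (1 / ty θ y) * (F (π a) * ∫ s in (0 : ℝ)..ty θ y,
          f (π a) ((2 * (q (π a) : ℤ) + 1 + M * ⌊SS G (ep θ) a (q (π a)) / M + s⌋).toNat)) -
          F (π a) * κ (π a) = F (π a) * ((1 / ty θ y) * (∫ s in (0 : ℝ)..ty θ y,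
          f (π a) ((2 * (q (π a) : ℤ) + 1 + M * ⌊SS G (ep θ) a (q (π a)) / M + s⌋).toNat)) -
          κ (π a)) := by ring
      rw [g2, abs_mul]
      exact mul_le_mul (hF _) g1 (abs_nonneg _) hKF
  have hflow := flowE π hπ v ρ hρ0 hv1 hinv (fun a : Fin m → ℝ => SS G (ep θ) a (q (π a)) / M)
    ((StepY_meas G (ep θ) π hπ q).div_const _) H hHm (KF * Kf) hHb hslide (fun i => F i * κ i)
    (ty θ y) ht0 htρ4 (fun a => KF * E a) (hEint.const_mul KF) havg'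
  rw [integral_const_mul] at hflow
  have hfin : KF * Kf * (4 * (m : ℝ) * 2 ^ m * (ty θ y * ρ)) ≤ KF * Kf * y ^ (-(eta θ m)) :=
    mul_le_mul_of_nonneg_left hsmall (mul_nonneg hKF hKf)
  rw [hH] at hflow
  simp only at hflow
  unfold Cu Tr
  linarith

end Pool.Agent.PCy
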