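import Pool.Agent.PCy.GgY
import Pool.Agent.PCy.TwoY

/-!
# The expectation for two chains

Adapt `Pool/Agent/PCx/PairX.lean`; no event of separation is needed here (`twoY` has the deterministic condition).
`J_i = ∫_{Cu m} (∏_{j=1}^i θ(c_j) θ(c'_j)) gg B μ (n-i) i c_i * gg B μ (n-i) i c'_i`, `J_0 = gg B μ n 0 p * gg B μ n 0 p'`.  For `i < n`, `twoY`
twice: first the moving chain `p'` of index `i`, the other chain `p` with `k = i + 1` (`i + k ≤ 2n - 1 < m`),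
`F = (∏_{j ≤ i} θ(c_j) θ(c'_j)) θ(c_{i+1}) gg B μ (n-i-1) (i+1) c_{i+1}`, `f c = thc (2^(n+4) y) c * gg B μ (n-i-1) (i+1) c`,
`κ = gg B μ (n-i) i c'_i`; then the moving chain `p` with `f` the same, the other chain `p'` with `k = i`,
`F = (∏_{j ≤ i} θ(c_j) θ(c'_j)) gg B μ (n-i) i c'_i`.  `KF = Λ^(2n) R^n` (`Λ = log(2^(n+4) y)`, `R = B/φ(B)`; at most `2i + 1 ≤ 2n - 1` factors `θ`),
`Kf = Λ R^n`, `E a = R^n B ph(ps) + y^(-1/4)` (`avg_clY`).  So
`|J_n - J_0| ≤ Λ^(2n) R^(2n) B (EE p + EE p') + 2n (Λ^(2n) R^n y^(-1/4) + Λ^(2n+1) R^(2n) y^(-η))`, which is at most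
`(log y)^(2n+2) (EE p + EE p') + y^(-η/2)` for large `y` (`Λ ≤ 2 log y`, `logsY`).
-/

namespace Pool.Agent.PCy

open MeasureTheory Pool.Agent.PCn Pool.Agent.PCx

/-- the two products -/
private noncomputable def PairY_W (r s : ℕ) (x x' : ℕ → ℕ) : ℝ :=
  (∏ j ∈ Finset.Icc 1 r, th (x j)) * ∏ j ∈ Finset.Icc 1 s, th (x' j)

private theorem PairY_W_congr (r s : ℕ) (x x' z z' : ℕ → ℕ)
    (h1 : ∀ j ≤ r, z j = x j) (h2 : ∀ j ≤ s, z' j = x' j) :
    PairY_W r s z z' = PairY_W r s x x' := by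
  unfold PairY_W
  have e2 : (∏ j ∈ Finset.Icc 1 r, th (z j)) = ∏ j ∈ Finset.Icc 1 r, th (x j) := by
    refine Finset.prod_congr rfl fun j hj => ?_
    rw [h1 j (Finset.mem_Icc.1 hj).2]
  have e3 : (∏ j ∈ Finset.Icc 1 s, th (z' j)) = ∏ j ∈ Finset.Icc 1 s, th (x' j) := by
    refine Finset.prod_congr rfl fun j hj => ?_
    rw [h2 j (Finset.mem_Icc.1 hj).2]
  rw [e2, e3]

private theorem PairY_W_tr (r s R R' : ℕ) (x x' : ℕ → ℕ) (h1 : r ≤ R) (h2 : s ≤ R') :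
    PairY_W r s (tr R x) (tr R' x') = PairY_W r s x x' := by
  refine PairY_W_congr r s x x' _ _ (fun j hj => ?_) (fun j hj => ?_)
  · simp [tr, le_trans hj h1]
  · simp [tr, le_trans hj h2]

private theorem PairY_W_succ_right (r s : ℕ) (x x' : ℕ → ℕ) :
    PairY_W r (s + 1) x x' = PairY_W r s x x' * th (x' (s + 1)) := by
  unfold PairY_W
  rw [Finset.prod_Icc_succ_top (by omega : 1 ≤ s + 1)]
  ring

private theorem PairY_W_succ_left (r s : ℕ) (x x' : ℕ → ℕ) :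
    PairY_W (r + 1) s x x' = PairY_W r s x x' * th (x (r + 1)) := by
  unfold PairY_W
  rw [Finset.prod_Icc_succ_top (by omega : 1 ≤ r + 1)]
  ring

private theorem PairY_W_nonneg (r s : ℕ) (x x' : ℕ → ℕ)
    (h1 : ∀ j ∈ Finset.Icc 1 r, 0 ≤ th (x j)) (h2 : ∀ j ∈ Finset.Icc 1 s, 0 ≤ th (x' j)) :
    0 ≤ PairY_W r s x x' :=
  mul_nonneg (Finset.prod_nonneg h1) (Finset.prod_nonneg h2)

private theorem PairY_W_le (r s : ℕ) (x x' : ℕ → ℕ) (B : ℝ) (hB : 1 ≤ B) (K : ℕ)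
    (hK : r + s ≤ K)
    (h1 : ∀ j ∈ Finset.Icc 1 r, 0 ≤ th (x j) ∧ th (x j) ≤ B)
    (h2 : ∀ j ∈ Finset.Icc 1 s, 0 ≤ th (x' j) ∧ th (x' j) ≤ B) :
    PairY_W r s x x' ≤ B ^ K := by
  have hB0 : 0 ≤ B := by linarith
  have p1 : (∏ j ∈ Finset.Icc 1 r, th (x j)) ≤ B ^ r := by
    calc (∏ j ∈ Finset.Icc 1 r, th (x j)) ≤ ∏ j ∈ Finset.Icc 1 r, B :=
          Finset.prod_le_prod (fun j hj => (h1 j hj).1) (fun j hj => (h1 j hj).2)
      _ = B ^ r := by simp
  have p2 : (∏ j ∈ Finset.Icc 1 s, th (x' j)) ≤ B ^ s := by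
    calc (∏ j ∈ Finset.Icc 1 s, th (x' j)) ≤ ∏ j ∈ Finset.Icc 1 s, B :=
          Finset.prod_le_prod (fun j hj => (h2 j hj).1) (fun j hj => (h2 j hj).2)
      _ = B ^ s := by simp
  calc PairY_W r s x x' ≤ B ^ r * B ^ s :=
        mul_le_mul p1 p2 (Finset.prod_nonneg fun j hj => (h2 j hj).1) (by positivity)
    _ = B ^ (r + s) := by rw [pow_add]
    _ ≤ B ^ K := pow_le_pow_right₀ hB hK

private theorem PairY_Cu_meas (m : ℕ) : MeasurableSet (Cu m) := measurableSet_Icc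

private theorem PairY_Cu_vol (m : ℕ) : volume (Cu m) = 1 := by
  unfold Cu
  rw [Real.volume_Icc_pi]
  simp

private theorem PairY_Cu_real (m : ℕ) : volume.real (Cu m) = 1 := by
  rw [Measure.real, PairY_Cu_vol]
  simp

/-- measurability of `W` along the chains -/
private theorem PairY_W_meas (μ : ℕ → ℕ) (G ε : ℕ → ℝ) (m : ℕ) (p p' r s : ℕ) :
    Measurable (fun a : Fin m → ℝ =>
      PairY_W r s (cl μ (SS G ε a) p) (cl μ (SS G ε a) p')) := by
  have h := measurable_trX (X := Fin m → ℝ) μ (fun a => SS G ε a)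
    (fun q => measurable_SS G ε q) p p' r s (PairY_W r s)
  have e : (fun a : Fin m → ℝ => PairY_W r s (tr r (cl μ (SS G ε a) p))
      (tr s (cl μ (SS G ε a) p'))) =
      fun a : Fin m → ℝ => PairY_W r s (cl μ (SS G ε a) p) (cl μ (SS G ε a) p') := by
    funext a
    exact PairY_W_tr r s _ _ _ _ (le_refl _) (le_refl _)
  rw [← e]
  exact h

private theorem PairY_g_meas (μ : ℕ → ℕ) (G ε : ℕ → ℝ) (m : ℕ) (p j : ℕ) (g : ℕ → ℝ) :
    Measurable (fun a : Fin m → ℝ => g (cl μ (SS G ε a) p j)) :=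
  (measurable_of_countable g).comp
    (measurable_cl (X := Fin m → ℝ) μ (fun a => SS G ε a) (fun q => measurable_SS G ε q) p j)

/-- the integral of the induction -/
private noncomputable def PairY_J (B : ℕ) (μ : ℕ → ℕ) (G ε : ℕ → ℝ) (n m : ℕ) (p p' i : ℕ) :
    ℝ :=
  ∫ a in Cu m, PairY_W i i (cl μ (SS G ε a) p) (cl μ (SS G ε a) p') *
    (gg B μ (n - i) i (cl μ (SS G ε a) p i) * gg B μ (n - i) i (cl μ (SS G ε a) p' i))

/-- one step: the inequality between the integrals -/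
private theorem PairY_stepJ (c : ℝ) {θ : ℝ} (h : 1 / 2 < θ) (h1 : θ < 1) (B n m : ℕ) (hB : 0 < B)
    (hm : 2 * n ≤ m) :
    ∃ Y : ℝ, 3 ≤ Y ∧ ∀ y ≥ Y, ∀ i < n, ∀ G : ℕ → ℝ, Ad c θ G → ∀ μ : ℕ → ℕ, (∀ i, μ i ∣ B) →
    ∀ p p' : ℕ, y < p → (p : ℝ) ≤ 11 / 10 * y → y < p' →
    (p' : ℝ) ≤ 11 / 10 * y → 2 * y ^ (1 - eta θ m) ≤ |(p : ℝ) - p'| →
    PairY_J B μ G (ep θ) n m p p' (i + 1) ≤ PairY_J B μ G (ep θ) n m p p' i +
      (Real.log (2 ^ (n + 4) * y) ^ (2 * n) * ((B : ℝ) / B.totient) ^ n *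
        (((B : ℝ) / B.totient) ^ n * B *
          ((∫ a in Cu m, ph B (μ i * ty θ y) (ps μ (SS G (ep θ) a) p i)) +
            ∫ a in Cu m, ph B (μ i * ty θ y) (ps μ (SS G (ep θ) a) p' i)) +
          2 * y ^ (-(1 / 4) : ℝ)) +
        2 * (Real.log (2 ^ (n + 4) * y) ^ (2 * n) * ((B : ℝ) / B.totient) ^ n *
          (Real.log (2 ^ (n + 4) * y) * ((B : ℝ) / B.totient) ^ n) * y ^ (-(eta θ m)))) := by
  obtain ⟨Y1, h1', H1⟩ := twoY c h h1 B n m hB
  obtain ⟨Y2, h2, H2⟩ := avg_clY c h h1 B n m hB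
  obtain ⟨Y3, h3, H3⟩ := logsY n (2 * n) 1 (by norm_num)
  obtain ⟨Y4, h4, H4⟩ := thY c h h1 B n m hB
  refine ⟨max (max Y1 Y2) (max Y3 Y4), le_max_of_le_left (le_max_of_le_left h1'), ?_⟩
  intro y hyA i hi G hG μ hμ p p' hp1 hp2 hq1 hq2 hpp
  obtain ⟨r, hr⟩ : ∃ r, n = i + 1 + r := ⟨n - (i + 1), by omega⟩
  have hr1 : n - (i + 1) = r := by omega
  have hr2 : n - i = r + 1 := by omega
  have hy1 : Y1 ≤ y := le_trans (le_trans (le_max_left _ _) (le_max_left _ _)) hyA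
  have hy2 : Y2 ≤ y := le_trans (le_trans (le_max_right _ _) (le_max_left _ _)) hyA
  have hy3 : Y3 ≤ y := le_trans (le_trans (le_max_left _ _) (le_max_right _ _)) hyA
  have hy4 : Y4 ≤ y := le_trans (le_trans (le_max_right _ _) (le_max_right _ _)) hyA
  have hy0 : 3 ≤ y := le_trans h3 hy3
  have hypos : 0 < y := by linarith
  set D : ℝ := (B : ℝ) / B.totient with hD
  have hgg := fun r i x => gg_bd hB hμ r i x
  have hD1 : 1 ≤ D := (hgg 0 0 0).2.2
  have hD0 : 0 ≤ D := by linarith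
  have hDn0 : 0 ≤ D ^ n := by positivity
  have hgn : ∀ r ≤ n, ∀ i x, gg B μ r i x ≤ D ^ n := fun r hr i x =>
    (hgg r i x).2.1.trans (pow_le_pow_right₀ hD1 hr)
  obtain ⟨hl1, -, -, -⟩ := H3 y hy3
  set L : ℝ := Real.log (2 ^ (n + 4) * y) with hL
  have hL0 : 0 ≤ L := by linarith
  have hLn : 0 ≤ L ^ (2 * n) := by positivity
  have hth : ∀ a ∈ Cu m, ∀ j ≤ n, 0 ≤ th (cl μ (SS G (ep θ) a) p j) ∧
      th (cl μ (SS G (ep θ) a) p j) ≤ L ∧
      thc (2 ^ (n + 4) * y) (cl μ (SS G (ep θ) a) p j) = th (cl μ (SS G (ep θ) a) p j) :=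
    fun a ha j hj => H4 y hy4 G hG a ha μ hμ p hp1 hp2 j hj
  have hth' : ∀ a ∈ Cu m, ∀ j ≤ n, 0 ≤ th (cl μ (SS G (ep θ) a) p' j) ∧
      th (cl μ (SS G (ep θ) a) p' j) ≤ L ∧
      thc (2 ^ (n + 4) * y) (cl μ (SS G (ep θ) a) p' j) = th (cl μ (SS G (ep θ) a) p' j) :=
    fun a ha j hj => H4 y hy4 G hG a ha μ hμ p' hq1 hq2 j hj
  have hthc : ∀ c : ℕ, |thc (2 ^ (n + 4) * y) c * gg B μ r (i + 1) c| ≤ L * D ^ n := by
    intro c
    have hc : |thc (2 ^ (n + 4) * y) c| ≤ L := by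
      unfold thc th
      split_ifs with hc1 hc2
      · have hc0 : (1 : ℝ) ≤ c := by exact_mod_cast hc2.one_lt.le
        rw [abs_of_nonneg (Real.log_nonneg hc0)]
        exact Real.log_le_log (by linarith) hc1
      · simp only [abs_zero]; linarith
      · simp only [abs_zero]; linarith
    rw [abs_mul, abs_of_nonneg (hgg r (i + 1) c).1]
    exact mul_le_mul hc (hgn r (by omega) _ _) (hgg _ _ _).1 hL0
  have hWb : ∀ a ∈ Cu m, ∀ r s : ℕ, r ≤ n → s ≤ n → r + s ≤ 2 * n →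
      0 ≤ PairY_W r s (cl μ (SS G (ep θ) a) p) (cl μ (SS G (ep θ) a) p') ∧
      PairY_W r s (cl μ (SS G (ep θ) a) p) (cl μ (SS G (ep θ) a) p') ≤ L ^ (2 * n) := by
    intro a ha r s hr hs hrs
    constructor
    · exact PairY_W_nonneg _ _ _ _
        (fun j hj => (hth a ha j (le_trans (Finset.mem_Icc.1 hj).2 hr)).1)
        (fun j hj => (hth' a ha j (le_trans (Finset.mem_Icc.1 hj).2 hs)).1)
    · refine PairY_W_le _ _ _ _ L hl1 (2 * n) hrs (fun j hj => ?_) (fun j hj => ?_)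
      · have := hth a ha j (le_trans (Finset.mem_Icc.1 hj).2 hr)
        exact ⟨this.1, this.2.1⟩
      · have := hth' a ha j (le_trans (Finset.mem_Icc.1 hj).2 hs)
        exact ⟨this.1, this.2.1⟩
  -- the mean error functions
  have hEint : ∀ q : ℕ, IntegrableOn (fun a : Fin m → ℝ => D ^ n * B *
      ph B (μ i * ty θ y) (ps μ (SS G (ep θ) a) q i) + y ^ (-(1 / 4) : ℝ)) (Cu m) := by
    intro q
    refine Integrable.add ?_ ?_
    · exact (phps_int B (μ i * ty θ y) μ G (ep θ) m q i).const_mul _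
    · refine integrableOn_const ?_
      rw [PairY_Cu_vol]; exact ENNReal.one_ne_top
  have hEval : ∀ q : ℕ, (∫ a in Cu m, (D ^ n * B *
      ph B (μ i * ty θ y) (ps μ (SS G (ep θ) a) q i) + y ^ (-(1 / 4) : ℝ))) =
      D ^ n * B * (∫ a in Cu m, ph B (μ i * ty θ y) (ps μ (SS G (ep θ) a) q i)) +
        y ^ (-(1 / 4) : ℝ) := by
    intro q
    rw [integral_add]
    · rw [integral_const_mul, setIntegral_const, PairY_Cu_real, one_smul]
    · exact (phps_int B (μ i * ty θ y) μ G (ep θ) m q i).const_mul _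
    · refine integrableOn_const ?_
      rw [PairY_Cu_vol]; exact ENNReal.one_ne_top
  have hE0 : ∀ q : ℕ, ∀ a ∈ Cu m, 0 ≤ D ^ n * B *
      ph B (μ i * ty θ y) (ps μ (SS G (ep θ) a) q i) + y ^ (-(1 / 4) : ℝ) := by
    intro q a _
    have hp0 : 0 ≤ ph B (μ i * ty θ y) (ps μ (SS G (ep θ) a) q i) :=
      ph_nonneg B (mul_nonneg (Nat.cast_nonneg _) (ty_pos θ hypos).le) _
    have hy' : 0 ≤ y ^ (-(1 / 4) : ℝ) := Real.rpow_nonneg hypos.le _
    have hBn : (0 : ℝ) ≤ B := Nat.cast_nonneg _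
    have := mul_nonneg (mul_nonneg hDn0 hBn) hp0
    linarith
  -- first application: the chain of `p'`
  have A1 := H1 y hy1 G hG μ hμ p' p hq1 hq2 hp1 hp2 i (i + 1) hi (le_refl _) (by omega)
    (by intro _; rw [abs_sub_comm]; exact hpp)
    (fun x' x => PairY_W (i + 1) i x x' * gg B μ r (i + 1) (x (i + 1)))
    (fun _ _ c => thc (2 ^ (n + 4) * y) c * gg B μ r (i + 1) c)
    (fun x' _ => gg B μ (r + 1) i (x' i)) (L ^ (2 * n) * D ^ n) (L * D ^ n)
    (fun a => D ^ n * B * ph B (μ i * ty θ y) (ps μ (SS G (ep θ) a) p' i) +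
      y ^ (-(1 / 4) : ℝ)) (mul_nonneg hLn hDn0) (mul_nonneg hL0 hDn0)
    (by
      intro a ha
      have hw := hWb a ha (i + 1) i (by omega) (by omega) (by omega)
      have e1 : tr (i + 1) (cl μ (SS G (ep θ) a) p) (i + 1) = cl μ (SS G (ep θ) a) p (i + 1) := by
        simp [tr]
      simp only [e1]
      rw [PairY_W_tr (i + 1) i (i + 1) i _ _ (le_refl _) (le_refl _),
        abs_of_nonneg (mul_nonneg hw.1 (hgg _ _ _).1)]
      exact mul_le_mul hw.2 (hgn r (by omega) _ _) (hgg _ _ _).1 hLn)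
    (fun a ha c => hthc c) (hEint p') (hE0 p')
    (by
      intro a ha _
      have e1 : tr i (cl μ (SS G (ep θ) a) p') i = cl μ (SS G (ep θ) a) p' i := by
        simp [tr]
      simp only [e1]
      exact H2 y hy2 G hG μ hμ a ha p' hq1 hq2 i hi r (by omega))
  have A2 := H1 y hy1 G hG μ hμ p p' hp1 hp2 hq1 hq2 i i hi (by omega) (by omega)
    (fun hk => by omega)
    (fun x x' => PairY_W i i x x' * gg B μ (r + 1) i (x' i))
    (fun _ _ c => thc (2 ^ (n + 4) * y) c * gg B μ r (i + 1) c)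
    (fun x _ => gg B μ (r + 1) i (x i)) (L ^ (2 * n) * D ^ n) (L * D ^ n)
    (fun a => D ^ n * B * ph B (μ i * ty θ y) (ps μ (SS G (ep θ) a) p i) +
      y ^ (-(1 / 4) : ℝ)) (mul_nonneg hLn hDn0) (mul_nonneg hL0 hDn0)
    (by
      intro a ha
      have hw := hWb a ha i i (by omega) (by omega) (by omega)
      have e1 : tr i (cl μ (SS G (ep θ) a) p') i = cl μ (SS G (ep θ) a) p' i := by
        simp [tr]
      simp only [e1]
      rw [PairY_W_tr i i i i _ _ (le_refl _) (le_refl _),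
        abs_of_nonneg (mul_nonneg hw.1 (hgg _ _ _).1)]
      exact mul_le_mul hw.2 (hgn (r + 1) (by omega) _ _) (hgg _ _ _).1 hLn)
    (fun a ha c => hthc c) (hEint p) (hE0 p)
    (by
      intro a ha _
      have e1 : tr i (cl μ (SS G (ep θ) a) p) i = cl μ (SS G (ep θ) a) p i := by
        simp [tr]
      simp only [e1]
      exact H2 y hy2 G hG μ hμ a ha p hp1 hp2 i hi r (by omega))
  rw [hEval p'] at A1
  rw [hEval p] at A2
  have B1 : (∫ a in Cu m, (fun x' x => PairY_W (i + 1) i x x' *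
      gg B μ r (i + 1) (x (i + 1))) (tr i (cl μ (SS G (ep θ) a) p'))
      (tr (i + 1) (cl μ (SS G (ep θ) a) p)) *
      (fun _ _ c => thc (2 ^ (n + 4) * y) c * gg B μ r (i + 1) c) (tr i (cl μ (SS G (ep θ) a) p'))
      (tr (i + 1) (cl μ (SS G (ep θ) a) p)) (cl μ (SS G (ep θ) a) p' (i + 1))) =
      ∫ a in Cu m, PairY_W (i + 1) (i + 1) (cl μ (SS G (ep θ) a) p) (cl μ (SS G (ep θ) a) p') *
        (gg B μ r (i + 1) (cl μ (SS G (ep θ) a) p (i + 1)) *
          gg B μ r (i + 1) (cl μ (SS G (ep θ) a) p' (i + 1))) := by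
    refine setIntegral_congr_fun (PairY_Cu_meas m) fun a ha => ?_
    have e1 : tr (i + 1) (cl μ (SS G (ep θ) a) p) (i + 1) = cl μ (SS G (ep θ) a) p (i + 1) := by
      simp [tr]
    simp only [e1]
    rw [PairY_W_tr (i + 1) i (i + 1) i _ _ (le_refl _) (le_refl _),
      (hth' a ha (i + 1) (by omega)).2.2, PairY_W_succ_right]
    ring
  have B2 : (∫ a in Cu m, (fun x' x => PairY_W (i + 1) i x x' *
      gg B μ r (i + 1) (x (i + 1))) (tr i (cl μ (SS G (ep θ) a) p'))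
      (tr (i + 1) (cl μ (SS G (ep θ) a) p)) * (fun x' _ => gg B μ (r + 1) i (x' i))
      (tr i (cl μ (SS G (ep θ) a) p')) (tr (i + 1) (cl μ (SS G (ep θ) a) p))) =
      ∫ a in Cu m, PairY_W (i + 1) i (cl μ (SS G (ep θ) a) p) (cl μ (SS G (ep θ) a) p') *
        (gg B μ r (i + 1) (cl μ (SS G (ep θ) a) p (i + 1)) *
          gg B μ (r + 1) i (cl μ (SS G (ep θ) a) p' i)) := by
    refine setIntegral_congr_fun (PairY_Cu_meas m) fun a ha => ?_
    have e1 : tr (i + 1) (cl μ (SS G (ep θ) a) p) (i + 1) = cl μ (SS G (ep θ) a) p (i + 1) := by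
      simp [tr]
    have e2 : tr i (cl μ (SS G (ep θ) a) p') i = cl μ (SS G (ep θ) a) p' i := by
      simp [tr]
    simp only [e1, e2]
    rw [PairY_W_tr (i + 1) i (i + 1) i _ _ (le_refl _) (le_refl _)]
    ring
  have B3 : (∫ a in Cu m, (fun x x' => PairY_W i i x x' * gg B μ (r + 1) i (x' i))
      (tr i (cl μ (SS G (ep θ) a) p)) (tr i (cl μ (SS G (ep θ) a) p')) *
      (fun _ _ c => thc (2 ^ (n + 4) * y) c * gg B μ r (i + 1) c) (tr i (cl μ (SS G (ep θ) a) p))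
      (tr i (cl μ (SS G (ep θ) a) p')) (cl μ (SS G (ep θ) a) p (i + 1))) =
      ∫ a in Cu m, PairY_W (i + 1) i (cl μ (SS G (ep θ) a) p) (cl μ (SS G (ep θ) a) p') *
        (gg B μ r (i + 1) (cl μ (SS G (ep θ) a) p (i + 1)) *
          gg B μ (r + 1) i (cl μ (SS G (ep θ) a) p' i)) := by
    refine setIntegral_congr_fun (PairY_Cu_meas m) fun a ha => ?_
    have e2 : tr i (cl μ (SS G (ep θ) a) p') i = cl μ (SS G (ep θ) a) p' i := by
      simp [tr]
    simp only [e2]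
    rw [PairY_W_tr i i i i _ _ (le_refl _) (le_refl _), (hth a ha (i + 1) (by omega)).2.2,
      PairY_W_succ_left]
    ring
  have B4 : (∫ a in Cu m, (fun x x' => PairY_W i i x x' * gg B μ (r + 1) i (x' i))
      (tr i (cl μ (SS G (ep θ) a) p)) (tr i (cl μ (SS G (ep θ) a) p')) *
      (fun x _ => gg B μ (r + 1) i (x i)) (tr i (cl μ (SS G (ep θ) a) p))
      (tr i (cl μ (SS G (ep θ) a) p'))) =
      ∫ a in Cu m, PairY_W i i (cl μ (SS G (ep θ) a) p) (cl μ (SS G (ep θ) a) p') *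
        (gg B μ (r + 1) i (cl μ (SS G (ep θ) a) p i) *
          gg B μ (r + 1) i (cl μ (SS G (ep θ) a) p' i)) := by
    refine setIntegral_congr_fun (PairY_Cu_meas m) fun a ha => ?_
    have e1 : tr i (cl μ (SS G (ep θ) a) p) i = cl μ (SS G (ep θ) a) p i := by
      simp [tr]
    have e2 : tr i (cl μ (SS G (ep θ) a) p') i = cl μ (SS G (ep θ) a) p' i := by
      simp [tr]
    simp only [e1, e2]
    rw [PairY_W_tr i i i i _ _ (le_refl _) (le_refl _)]
    ring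
  rw [B1, B2] at A1
  rw [B3, B4] at A2
  have C1 := (abs_le.1 A1).2
  have C2 := (abs_le.1 A2).2
  unfold PairY_J
  rw [hr1, hr2]
  linarith

theorem pairY (c : ℝ) {θ : ℝ} (h : 1 / 2 < θ) (h1 : θ < 1) (B n m : ℕ) (hB : 0 < B)
    (hm : 2 * n ≤ m) :
    ∃ Y : ℝ, 3 ≤ Y ∧ ∀ y ≥ Y, ∀ G : ℕ → ℝ, Ad c θ G → ∀ μ : ℕ → ℕ, (∀ i, μ i ∣ B) →
    ∀ p p' : ℕ, y < p → (p : ℝ) ≤ 11 / 10 * y → y < p' →
    (p' : ℝ) ≤ 11 / 10 * y → 2 * y ^ (1 - eta θ m) ≤ |(p : ℝ) - p'| →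
    (∫ a in Cu m, ∏ i ∈ Finset.Icc 1 n,
      th (cl μ (SS G (ep θ) a) p i) * th (cl μ (SS G (ep θ) a) p' i)) ≤
      gg B μ n 0 p * gg B μ n 0 p' +
        Real.log y ^ (2 * n + 2) * (EE θ B n m G μ y p + EE θ B n m G μ y p') +
        y ^ (-(eta θ m / 2)) := by
  have hη := eta_pos h h1 m
  have hη4 : eta θ m ≤ 1 / 4 := by
    have := eta_le (θ := θ) m
    linarith
  set D : ℝ := (B : ℝ) / B.totient with hD
  obtain ⟨Y1, h1', H1⟩ := PairY_stepJ c h h1 B n m hB hm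
  obtain ⟨Y2, h2, H2⟩ := logsY n (2 * n + 1) (eta θ m / 4) (by positivity)
  obtain ⟨Y3, hY3⟩ := Filter.eventually_atTop.1
    (Real.tendsto_log_atTop.eventually_ge_atTop (4 ^ n * D ^ (2 * n) * B))
  obtain ⟨Y4, hY4⟩ := Filter.eventually_atTop.1
    ((tendsto_rpow_atTop (by positivity : 0 < eta θ m / 4)).eventually_ge_atTop
      (4 * n * D ^ (2 * n)))
  refine ⟨max (max Y1 Y2) (max Y3 Y4), le_max_of_le_left (le_max_of_le_left h1'), ?_⟩
  intro y hyA G hG μ hμ p p' hp1 hp2 hq1 hq2 hpp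
  have hy1 : Y1 ≤ y := le_trans (le_trans (le_max_left _ _) (le_max_left _ _)) hyA
  have hy2 : Y2 ≤ y := le_trans (le_trans (le_max_right _ _) (le_max_left _ _)) hyA
  have hy3 : Y3 ≤ y := le_trans (le_trans (le_max_left _ _) (le_max_right _ _)) hyA
  have hy4 : Y4 ≤ y := le_trans (le_trans (le_max_right _ _) (le_max_right _ _)) hyA
  have hy0 : 3 ≤ y := le_trans h2 hy2
  have hypos : 0 < y := by linarith
  have hgg := fun r i x => gg_bd hB hμ r i x
  have hD1 : 1 ≤ D := (hgg 0 0 0).2.2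
  obtain ⟨hl1, hl2, hly, hLp⟩ := H2 y hy2
  set L : ℝ := Real.log (2 ^ (n + 4) * y) with hL
  have hL0 : 0 ≤ L := by linarith
  set P : ℕ → ℝ := fun i => ∫ a in Cu m, ph B (μ i * ty θ y) (ps μ (SS G (ep θ) a) p i) with hP
  set P' : ℕ → ℝ := fun i => ∫ a in Cu m, ph B (μ i * ty θ y) (ps μ (SS G (ep θ) a) p' i)
    with hP'
  set C : ℝ := L ^ (2 * n) * D ^ n * (2 * y ^ (-(1 / 4) : ℝ)) +
    2 * (L ^ (2 * n) * D ^ n * (L * D ^ n) * y ^ (-(eta θ m))) with hC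
  have key : ∀ i ≤ n, PairY_J B μ G (ep θ) n m p p' i ≤
      gg B μ n 0 p * gg B μ n 0 p' +
        L ^ (2 * n) * D ^ n * (D ^ n * B * (∑ j ∈ Finset.range i, (P j + P' j))) + i * C := by
    intro i
    induction i with
    | zero =>
      intro _
      unfold PairY_J
      have e : (∫ a in Cu m, PairY_W 0 0 (cl μ (SS G (ep θ) a) p) (cl μ (SS G (ep θ) a) p') *
          (gg B μ (n - 0) 0 (cl μ (SS G (ep θ) a) p 0) *
            gg B μ (n - 0) 0 (cl μ (SS G (ep θ) a) p' 0))) =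
          ∫ a in Cu m, gg B μ n 0 p * gg B μ n 0 p' := by
        refine setIntegral_congr_fun (PairY_Cu_meas m) fun a _ => ?_
        simp [PairY_W, cl]
      rw [e, setIntegral_const, PairY_Cu_real, one_smul]
      simp
    | succ i ih =>
      intro hi
      have s1 := H1 y hy1 i (by omega) G hG μ hμ p p' hp1 hp2 hq1 hq2 hpp
      have s2 := ih (by omega)
      have s3 : PairY_J B μ G (ep θ) n m p p' (i + 1) ≤ PairY_J B μ G (ep θ) n m p p' i +
          (L ^ (2 * n) * D ^ n * (D ^ n * B * (P i + P' i)) + C) := by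
        refine s1.trans (le_of_eq ?_)
        rw [hC]
        ring
      rw [Finset.sum_range_succ]
      push_cast
      nlinarith [s2, s3]
  have hlast := key n (le_refl _)
  unfold PairY_J at hlast
  simp only [Nat.sub_self, gg, mul_one] at hlast
  have hint : (∫ a in Cu m, ∏ i ∈ Finset.Icc 1 n,
      th (cl μ (SS G (ep θ) a) p i) * th (cl μ (SS G (ep θ) a) p' i)) =
      ∫ a in Cu m, PairY_W n n (cl μ (SS G (ep θ) a) p) (cl μ (SS G (ep θ) a) p') := by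
    refine setIntegral_congr_fun (PairY_Cu_meas m) fun a _ => ?_
    simp only [PairY_W]
    rw [Finset.prod_mul_distrib]
  rw [hint]
  refine hlast.trans ?_
  have hsum : (∑ j ∈ Finset.range n, (P j + P' j)) =
      EE θ B n m G μ y p + EE θ B n m G μ y p' := by
    rw [EE_eq, EE_eq, Finset.sum_add_distrib]
  have hE0 : 0 ≤ EE θ B n m G μ y p + EE θ B n m G μ y p' :=
    add_nonneg (EE_nonneg θ B n m G μ hypos.le p) (EE_nonneg θ B n m G μ hypos.le p')
  rw [hsum]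
  -- the coefficient of the errors
  have hco : L ^ (2 * n) * D ^ n * (D ^ n * B) ≤ Real.log y ^ (2 * n + 2) := by
    have a1 : L ^ (2 * n) ≤ (2 * Real.log y) ^ (2 * n) := pow_le_pow_left₀ hL0 hl2 _
    have a2 : (2 * Real.log y) ^ (2 * n) = 4 ^ n * Real.log y ^ (2 * n) := by
      rw [mul_pow, pow_mul]
      norm_num
    have a3 := hY3 y hy3
    have a4 : Real.log y ≤ Real.log y ^ 2 := le_self_pow₀ hly (by norm_num)
    have hnn : 0 ≤ D ^ n * (D ^ n * B) := by positivity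
    have hlp : 0 ≤ Real.log y ^ (2 * n) := by positivity
    calc L ^ (2 * n) * D ^ n * (D ^ n * B) = L ^ (2 * n) * (D ^ n * (D ^ n * B)) := by ring
      _ ≤ 4 ^ n * Real.log y ^ (2 * n) * (D ^ n * (D ^ n * B)) :=
          mul_le_mul_of_nonneg_right (a1.trans (le_of_eq a2)) hnn
      _ = Real.log y ^ (2 * n) * (4 ^ n * D ^ (2 * n) * B) := by ring
      _ ≤ Real.log y ^ (2 * n) * Real.log y ^ 2 :=
          mul_le_mul_of_nonneg_left (a3.trans a4) hlp
      _ = Real.log y ^ (2 * n + 2) := by rw [← pow_add]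
  -- the last error
  have herr : (n : ℝ) * C ≤ y ^ (-(eta θ m / 2)) := by
    have b1 : y ^ (-(1 / 4) : ℝ) ≤ y ^ (-(eta θ m)) :=
      Real.rpow_le_rpow_of_exponent_le (by linarith) (by linarith)
    have b0 : 0 ≤ y ^ (-(eta θ m)) := Real.rpow_nonneg hypos.le _
    have hDn1 : 1 ≤ D ^ n := one_le_pow₀ hD1
    have hLL : L ^ (2 * n) ≤ L ^ (2 * n + 1) := pow_le_pow_right₀ hl1 (by omega)
    have hDD : D ^ n ≤ D ^ (2 * n) := pow_le_pow_right₀ hD1 (by omega)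
    have hLn0 : 0 ≤ L ^ (2 * n + 1) := by positivity
    have hD2 : 0 ≤ D ^ (2 * n) := by positivity
    have c1 : L ^ (2 * n) * D ^ n * (2 * y ^ (-(1 / 4) : ℝ)) ≤
        L ^ (2 * n + 1) * D ^ (2 * n) * (2 * y ^ (-(eta θ m))) := by
      refine mul_le_mul (mul_le_mul hLL hDD (by positivity) hLn0) (by linarith) ?_
        (by positivity)
      have : 0 ≤ y ^ (-(1 / 4) : ℝ) := Real.rpow_nonneg hypos.le _
      linarith
    have c2 : 2 * (L ^ (2 * n) * D ^ n * (L * D ^ n) * y ^ (-(eta θ m))) =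
        L ^ (2 * n + 1) * D ^ (2 * n) * (2 * y ^ (-(eta θ m))) := by
      rw [pow_succ, two_mul n, pow_add D n n]
      ring
    have c3 : C ≤ 4 * D ^ (2 * n) * (L ^ (2 * n + 1) * y ^ (-(eta θ m))) := by
      rw [hC]
      nlinarith [c1, c2]
    have c4 : L ^ (2 * n + 1) * y ^ (-(eta θ m)) ≤ y ^ (-(eta θ m / 4)) * y ^ (-(eta θ m / 2)) := by
      calc L ^ (2 * n + 1) * y ^ (-(eta θ m)) ≤ y ^ (eta θ m / 4) * y ^ (-(eta θ m)) :=
            mul_le_mul_of_nonneg_right hLp b0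
        _ = y ^ (-(eta θ m / 4)) * y ^ (-(eta θ m / 2)) := by
            rw [← Real.rpow_add hypos, ← Real.rpow_add hypos]
            congr 1
            ring
    have c5 : 4 * n * D ^ (2 * n) * y ^ (-(eta θ m / 4)) ≤ 1 := by
      have := hY4 y hy4
      rw [Real.rpow_neg hypos.le, ← div_eq_mul_inv, div_le_one (Real.rpow_pos_of_pos hypos _)]
      exact this
    have b2 : 0 ≤ y ^ (-(eta θ m / 2)) := Real.rpow_nonneg hypos.le _
    calc (n : ℝ) * C ≤ n * (4 * D ^ (2 * n) * (L ^ (2 * n + 1) * y ^ (-(eta θ m)))) :=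
          mul_le_mul_of_nonneg_left c3 (Nat.cast_nonneg _)
      _ ≤ n * (4 * D ^ (2 * n) * (y ^ (-(eta θ m / 4)) * y ^ (-(eta θ m / 2)))) := by
          refine mul_le_mul_of_nonneg_left ?_ (Nat.cast_nonneg _)
          exact mul_le_mul_of_nonneg_left c4 (by positivity)
      _ = (4 * n * D ^ (2 * n) * y ^ (-(eta θ m / 4))) * y ^ (-(eta θ m / 2)) := by ring
      _ ≤ 1 * y ^ (-(eta θ m / 2)) := mul_le_mul_of_nonneg_right c5 b2
      _ = y ^ (-(eta θ m / 2)) := one_mul _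
  have hmain : L ^ (2 * n) * D ^ n * (D ^ n * B * (EE θ B n m G μ y p + EE θ B n m G μ y p')) ≤
      Real.log y ^ (2 * n + 2) * (EE θ B n m G μ y p + EE θ B n m G μ y p') := by
    calc L ^ (2 * n) * D ^ n * (D ^ n * B * (EE θ B n m G μ y p + EE θ B n m G μ y p'))
        = (L ^ (2 * n) * D ^ n * (D ^ n * B)) *
          (EE θ B n m G μ y p + EE θ B n m G μ y p') := by ring
      _ ≤ _ := mul_le_mul_of_nonneg_right hco hE0
  linarith

end Pool.Agent.PCy
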