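import Pool.Agent.PCy.SglY
import Pool.Agent.PCy.PairY
import Pool.Agent.PCy.ErrY
import Pool.Agent.PCx.SgdX

/-!
# The second moment of a window

Adapt `Pool/Agent/PCx/MomX.lean` (its private lemmas `MomX_integral_sq`, `MomX_est`, ...).  `P = Ioc ⌊y⌋₊ ⌊r y⌋₊`, `w_p = th p ≤ Λ = log(2^(n+4) y) ≤ 2 log y`,
`f_p(a) = ∏_{i=1}^n θ(c_i)`, `VL = ∑_{p ∈ P} w_p f_p`, `κ = kapL B μ n`, `g_p = gg B μ n 0 p`, `E_p = EE θ B n m G μ y p ≥ 0`.
`∫ (VL - κ (r-1) y)² = ∑ w_p w_p' ∫ f_p f_p' - 2 κ (r-1) y ∑ w_p ∫ f_p + κ² (r-1)² y²`.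
Pairs with `|p - p'| ≥ 2 y^(1-η)` (`pairY`): `∫ f_p f_p' ≤ g_p g_p' + (log y)^(2n+2) (E_p + E_p') + y^(-η/2)`.  The other pairs, at most
`y (4 y^(1-η) + 1)` of them: `∫ f_p f_p' ≤ Λ^(2n)`.  `sglY`: `∫ f_p ≥ g_p - (log y)^(2n+2) E_p - y^(-η/2)`.  So the second moment is at most
`(∑ w_p g_p - κ (r-1) y)² + Λ² (2 (log y)^(2n+2) y ∑ E_p + y² y^(-η/2)) + Λ^(2n+2) y (4 y^(1-η) + 1)
  + 2 κ (r-1) y Λ ((log y)^(2n+2) ∑ E_p + y y^(-η/2))`.
`errY` with `A = 2n + 8`: `∑_{p ∈ P} E_p ≤ y/(log y)^(2n+8)` (`P ⊆ Ioc ⌊y⌋₊ ⌊11/10 y⌋₊`), `sum_gg`: the first square is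
`≤ (C y exp(-(log y)^(1/25)))²`, `kapL_bd`: `κ ≤ (B/φ(B))^n`.  Every term is `≤ y²/(5 (log y)²)` for large `y`.
-/

namespace Pool.Agent.PCy

open MeasureTheory Pool.Agent.PCn Pool.Agent.PCx

private theorem MomY_vol_Cu (m : ℕ) : volume (Cu m) = 1 := by
  unfold Cu
  rw [Real.volume_Icc_pi]
  simp

/-- number of the elements close to `p` -/
private theorem MomY_card_close (P : Finset ℕ) (p : ℕ) {δ : ℝ} (hδ : 0 ≤ δ) :
    ((P.filter (fun p' : ℕ => |(p : ℝ) - p'| < δ)).card : ℝ) ≤ 2 * δ + 1 := by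
  have hsub : P.filter (fun p' : ℕ => |(p : ℝ) - p'| < δ) ⊆
      Finset.Icc ⌈(p : ℝ) - δ⌉₊ ⌊(p : ℝ) + δ⌋₊ := by
    intro q hq
    rw [Finset.mem_filter] at hq
    obtain ⟨_, hq⟩ := hq
    rw [abs_lt] at hq
    rw [Finset.mem_Icc]
    refine ⟨Nat.ceil_le.2 (by linarith), Nat.le_floor (by linarith)⟩
  have h1 := Finset.card_le_card hsub
  rw [Nat.card_Icc] at h1
  have h2 : ((⌊(p : ℝ) + δ⌋₊ + 1 - ⌈(p : ℝ) - δ⌉₊ : ℕ) : ℝ) ≤ 2 * δ + 1 := by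
    rcases le_total ⌈(p : ℝ) - δ⌉₊ (⌊(p : ℝ) + δ⌋₊ + 1) with hle | hle
    · rw [Nat.cast_sub hle]
      push_cast
      have h3 := Nat.le_ceil ((p : ℝ) - δ)
      have h4 := Nat.floor_le (show 0 ≤ (p : ℝ) + δ by positivity)
      linarith
    · rw [Nat.sub_eq_zero_of_le hle]
      simp only [Nat.cast_zero]
      linarith
  exact le_trans (by exact_mod_cast h1) h2

private theorem MomY_integral_sq {X : Type*} [MeasurableSpace X] {μ : Measure X}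
    [IsProbabilityMeasure μ] (P : Finset ℕ) (w : ℕ → ℝ) (f : ℕ → X → ℝ) (E B : ℝ)
    (hf : ∀ p ∈ P, Measurable (f p)) (hb : ∀ p ∈ P, ∀ᵐ a ∂μ, 0 ≤ f p a ∧ f p a ≤ B) :
    (∫ a, (∑ p ∈ P, w p * f p a - E) ^ 2 ∂μ) =
      ∑ p ∈ P, ∑ p' ∈ P, w p * w p' * (∫ a, f p a * f p' a ∂μ) -
        2 * E * ∑ p ∈ P, w p * (∫ a, f p a ∂μ) + E ^ 2 := by
  have hi1 : ∀ p ∈ P, Integrable (f p) μ := by
    intro p hp
    refine Integrable.mono' (integrable_const B) (hf p hp).aestronglyMeasurable ?_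
    filter_upwards [hb p hp] with a ha
    rw [Real.norm_eq_abs, abs_of_nonneg ha.1]
    exact ha.2
  have hi2 : ∀ p ∈ P, ∀ p' ∈ P, Integrable (fun a => f p a * f p' a) μ := by
    intro p hp p' hp'
    refine Integrable.mono' (integrable_const (B * B))
      ((hf p hp).mul (hf p' hp')).aestronglyMeasurable ?_
    filter_upwards [hb p hp, hb p' hp'] with a ha ha'
    rw [Real.norm_eq_abs, abs_of_nonneg (mul_nonneg ha.1 ha'.1)]
    exact mul_le_mul ha.2 ha'.2 ha'.1 (ha.1.trans ha.2)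
  have hexp : ∀ a, (∑ p ∈ P, w p * f p a - E) ^ 2 =
      ((∑ p ∈ P, ∑ p' ∈ P, w p * w p' * (f p a * f p' a)) -
        (∑ p ∈ P, (2 * E * w p) * f p a)) + E ^ 2 := by
    intro a
    have h1 : (∑ p ∈ P, w p * f p a) ^ 2 =
        ∑ p ∈ P, ∑ p' ∈ P, w p * w p' * (f p a * f p' a) := by
      rw [sq, Finset.sum_mul_sum]
      refine Finset.sum_congr rfl fun p _ => Finset.sum_congr rfl fun p' _ => ?_
      ring
    have h2 : (∑ p ∈ P, (2 * E * w p) * f p a) = 2 * E * ∑ p ∈ P, w p * f p a := by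
      rw [Finset.mul_sum]
      refine Finset.sum_congr rfl fun p _ => ?_
      ring
    rw [← h1, h2]
    ring
  simp_rw [hexp]
  have hI1 : Integrable (fun a => ∑ p ∈ P, ∑ p' ∈ P, w p * w p' * (f p a * f p' a)) μ := by
    refine integrable_finsetSum _ fun p hp => integrable_finsetSum _ fun p' hp' => ?_
    exact (hi2 p hp p' hp').const_mul _
  have hI2 : Integrable (fun a => ∑ p ∈ P, (2 * E * w p) * f p a) μ := by
    refine integrable_finsetSum _ fun p hp => ?_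
    exact (hi1 p hp).const_mul _
  have hI3 : Integrable (fun a => (∑ p ∈ P, ∑ p' ∈ P, w p * w p' * (f p a * f p' a)) -
      ∑ p ∈ P, (2 * E * w p) * f p a) μ := hI1.sub hI2
  rw [integral_add hI3 (integrable_const _), integral_sub hI1 hI2]
  rw [integral_finsetSum _ (fun p hp => integrable_finsetSum _ fun p' hp' =>
    (hi2 p hp p' hp').const_mul _)]
  rw [integral_finsetSum _ (fun p hp => (hi1 p hp).const_mul _)]
  have e1 : ∑ p ∈ P, (∫ a, ∑ p' ∈ P, w p * w p' * (f p a * f p' a) ∂μ) =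
      ∑ p ∈ P, ∑ p' ∈ P, w p * w p' * (∫ a, f p a * f p' a ∂μ) := by
    refine Finset.sum_congr rfl fun p hp => ?_
    rw [integral_finsetSum _ (fun p' hp' => (hi2 p hp p' hp').const_mul _)]
    refine Finset.sum_congr rfl fun p' hp' => ?_
    rw [integral_const_mul]
  have e2 : ∑ p ∈ P, (∫ a, (2 * E * w p) * f p a ∂μ) =
      2 * E * ∑ p ∈ P, w p * (∫ a, f p a ∂μ) := by
    rw [Finset.mul_sum]
    refine Finset.sum_congr rfl fun p hp => ?_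
    rw [integral_const_mul]
    ring
  rw [e1, e2]
  simp

/-- the estimate of the second moment, real numbers only -/
private theorem MomY_est (P : Finset ℕ) (w g J Er : ℕ → ℝ) (JJ : ℕ → ℕ → ℝ)
    (E Λ y δ e L B : ℝ)
    (hE : 0 ≤ E) (hδ : 0 ≤ δ) (he : 0 ≤ e) (hL : 0 ≤ L) (hB : 0 ≤ B)
    (hw0 : ∀ p ∈ P, 0 ≤ w p) (hw : ∀ p ∈ P, w p ≤ Λ) (hΛ : 0 ≤ Λ) (hg : ∀ p ∈ P, 0 ≤ g p)
    (hEr : ∀ p ∈ P, 0 ≤ Er p) (hP : (P.card : ℝ) ≤ y)
    (hJ : ∀ p ∈ P, |J p - g p| ≤ L * Er p + e)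
    (hJ1 : ∀ p ∈ P, ∀ p' ∈ P, δ ≤ |(p : ℝ) - p'| →
      JJ p p' ≤ g p * g p' + L * (Er p + Er p') + e)
    (hJ2 : ∀ p ∈ P, ∀ p' ∈ P, JJ p p' ≤ B) :
    ∑ p ∈ P, ∑ p' ∈ P, w p * w p' * JJ p p' - 2 * E * ∑ p ∈ P, w p * J p + E ^ 2 ≤
      (∑ p ∈ P, w p * g p - E) ^ 2 + Λ ^ 2 * (2 * L * y * ∑ p ∈ P, Er p + y ^ 2 * e) +
        Λ ^ 2 * B * (y * (2 * δ + 1)) + 2 * E * (Λ * (L * ∑ p ∈ P, Er p + y * e)) := by
  have hy : 0 ≤ y := le_trans (Nat.cast_nonneg _) hP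
  have hS0 : 0 ≤ ∑ p ∈ P, Er p := Finset.sum_nonneg hEr
  have h1 : ∑ p ∈ P, w p * g p - Λ * (L * ∑ p ∈ P, Er p + y * e) ≤ ∑ p ∈ P, w p * J p := by
    have h11 : ∑ p ∈ P, w p * g p - ∑ p ∈ P, Λ * (L * Er p + e) ≤ ∑ p ∈ P, w p * J p := by
      rw [← Finset.sum_sub_distrib]
      refine Finset.sum_le_sum fun p hp => ?_
      have h12 := (abs_le.1 (hJ p hp)).1
      have h13 : 0 ≤ L * Er p + e := add_nonneg (mul_nonneg hL (hEr p hp)) he
      have h14 : w p * (L * Er p + e) ≤ Λ * (L * Er p + e) :=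
        mul_le_mul_of_nonneg_right (hw p hp) h13
      have h15 : w p * (g p - (L * Er p + e)) ≤ w p * J p :=
        mul_le_mul_of_nonneg_left (by linarith) (hw0 p hp)
      have h16 : w p * (g p - (L * Er p + e)) = w p * g p - w p * (L * Er p + e) := by ring
      linarith
    have h17 : ∑ p ∈ P, Λ * (L * Er p + e) ≤ Λ * (L * ∑ p ∈ P, Er p + y * e) := by
      rw [← Finset.mul_sum, Finset.sum_add_distrib, ← Finset.mul_sum, Finset.sum_const,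
        nsmul_eq_mul]
      refine mul_le_mul_of_nonneg_left ?_ hΛ
      have := mul_le_mul_of_nonneg_right hP he
      linarith
    linarith
  have h2 : ∑ p ∈ P, ∑ p' ∈ P, w p * w p' * JJ p p' ≤
      (∑ p ∈ P, w p * g p) ^ 2 + Λ ^ 2 * (2 * L * y * ∑ p ∈ P, Er p + y ^ 2 * e) +
        Λ ^ 2 * B * (y * (2 * δ + 1)) := by
    have h21 : ∀ p ∈ P, ∀ p' ∈ P, w p * w p' * JJ p p' ≤
        (w p * g p) * (w p' * g p') + Λ ^ 2 * (L * (Er p + Er p') + e) +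
          Λ ^ 2 * B * (if |(p : ℝ) - p'| < δ then 1 else 0) := by
      intro p hp p' hp'
      have hww : 0 ≤ w p * w p' := mul_nonneg (hw0 p hp) (hw0 p' hp')
      have hww2 : w p * w p' ≤ Λ ^ 2 := by
        rw [sq]
        exact mul_le_mul (hw p hp) (hw p' hp') (hw0 p' hp') hΛ
      have hEE : 0 ≤ L * (Er p + Er p') + e :=
        add_nonneg (mul_nonneg hL (add_nonneg (hEr p hp) (hEr p' hp'))) he
      by_cases hc : |(p : ℝ) - p'| < δ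
      · rw [if_pos hc, mul_one]
        have h3 : w p * w p' * JJ p p' ≤ w p * w p' * B :=
          mul_le_mul_of_nonneg_left (hJ2 p hp p' hp') hww
        have h4 : w p * w p' * B ≤ Λ ^ 2 * B := mul_le_mul_of_nonneg_right hww2 hB
        have h5 : 0 ≤ (w p * g p) * (w p' * g p') :=
          mul_nonneg (mul_nonneg (hw0 p hp) (hg p hp)) (mul_nonneg (hw0 p' hp') (hg p' hp'))
        have h6 : 0 ≤ Λ ^ 2 * (L * (Er p + Er p') + e) := mul_nonneg (sq_nonneg _) hEE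
        linarith
      · rw [if_neg hc, mul_zero, add_zero]
        have h3 : w p * w p' * JJ p p' ≤
            w p * w p' * (g p * g p' + L * (Er p + Er p') + e) :=
          mul_le_mul_of_nonneg_left (hJ1 p hp p' hp' (not_lt.1 hc)) hww
        have h4 : w p * w p' * (L * (Er p + Er p') + e) ≤ Λ ^ 2 * (L * (Er p + Er p') + e) :=
          mul_le_mul_of_nonneg_right hww2 hEE
        calc w p * w p' * JJ p p' ≤ w p * w p' * (g p * g p' + L * (Er p + Er p') + e) := h3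
          _ = (w p * g p) * (w p' * g p') + w p * w p' * (L * (Er p + Er p') + e) := by ring
          _ ≤ _ := by linarith
    calc ∑ p ∈ P, ∑ p' ∈ P, w p * w p' * JJ p p'
        ≤ ∑ p ∈ P, ∑ p' ∈ P, ((w p * g p) * (w p' * g p') +
            Λ ^ 2 * (L * (Er p + Er p') + e) +
          Λ ^ 2 * B * (if |(p : ℝ) - p'| < δ then 1 else 0)) :=
          Finset.sum_le_sum fun p hp => Finset.sum_le_sum fun p' hp' => h21 p hp p' hp'
      _ = (∑ p ∈ P, w p * g p) ^ 2 + ∑ p ∈ P, ∑ p' ∈ P, Λ ^ 2 * (L * (Er p + Er p') + e) +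
          Λ ^ 2 * B * ∑ p ∈ P, ∑ p' ∈ P, (if |(p : ℝ) - p'| < δ then (1 : ℝ) else 0) := by
          simp_rw [Finset.sum_add_distrib]
          congr 1
          · congr 1
            rw [sq, Finset.sum_mul_sum]
          · rw [Finset.mul_sum]
            refine Finset.sum_congr rfl fun p _ => ?_
            rw [Finset.mul_sum]
      _ ≤ (∑ p ∈ P, w p * g p) ^ 2 + Λ ^ 2 * (2 * L * y * ∑ p ∈ P, Er p + y ^ 2 * e) +
          Λ ^ 2 * B * (y * (2 * δ + 1)) := by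
          have h3 : ∑ p ∈ P, ∑ p' ∈ P, Λ ^ 2 * (L * (Er p + Er p') + e) ≤
              Λ ^ 2 * (2 * L * y * ∑ p ∈ P, Er p + y ^ 2 * e) := by
            have h31 : ∑ p ∈ P, ∑ p' ∈ P, Λ ^ 2 * (L * (Er p + Er p') + e) =
                Λ ^ 2 * (2 * L * (P.card * ∑ p ∈ P, Er p) + (P.card * P.card) * e) := by
              simp_rw [← Finset.mul_sum, Finset.sum_add_distrib, ← Finset.mul_sum,
                Finset.sum_add_distrib, Finset.sum_const, nsmul_eq_mul, ← Finset.mul_sum]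
              ring
            rw [h31]
            refine mul_le_mul_of_nonneg_left ?_ (sq_nonneg _)
            have h32 : (P.card : ℝ) * ∑ p ∈ P, Er p ≤ y * ∑ p ∈ P, Er p :=
              mul_le_mul_of_nonneg_right hP hS0
            have h33 : (P.card : ℝ) * P.card ≤ y * y :=
              mul_le_mul hP hP (Nat.cast_nonneg _) hy
            have h34 := mul_le_mul_of_nonneg_left h32 (show 0 ≤ 2 * L by linarith)
            have h35 := mul_le_mul_of_nonneg_right h33 he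
            nlinarith [h34, h35]
          have h4 : ∑ p ∈ P, ∑ p' ∈ P, (if |(p : ℝ) - p'| < δ then (1 : ℝ) else 0) ≤
              y * (2 * δ + 1) := by
            calc ∑ p ∈ P, ∑ p' ∈ P, (if |(p : ℝ) - p'| < δ then (1 : ℝ) else 0)
                ≤ ∑ p ∈ P, (2 * δ + 1) := by
                  refine Finset.sum_le_sum fun p _ => ?_
                  rw [Finset.sum_ite, Finset.sum_const, Finset.sum_const, nsmul_eq_mul,
                    mul_one, smul_zero, add_zero]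
                  exact MomY_card_close P p hδ
              _ = P.card * (2 * δ + 1) := by rw [Finset.sum_const, nsmul_eq_mul]
              _ ≤ y * (2 * δ + 1) := mul_le_mul_of_nonneg_right hP (by linarith)
          have h6 := mul_le_mul_of_nonneg_left h4 (mul_nonneg (sq_nonneg Λ) hB)
          linarith
  have h3 := mul_le_mul_of_nonneg_left h1 (show 0 ≤ 2 * E by linarith)
  nlinarith [h2, h3]

/-- the numbers -/
private theorem MomY_large (C K0 η : ℝ) (hη : 0 < η) : ∃ Y : ℝ, 3 ≤ Y ∧ ∀ y ≥ Y,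
    40 ≤ Real.log y ^ 2 ∧ (6 + |K0|) * y ^ (-(η / 4)) ≤ 1 / 5 ∧ |K0| ≤ 1 / 5 * Real.log y ^ 3 ∧
      C ^ 2 * Real.log y ^ 2 * Real.exp (-(Real.log y) ^ (1 / 25 : ℝ)) ^ 2 ≤ 1 / 5 := by
  have hlog := Real.tendsto_log_atTop
  have e1 : ∀ᶠ y : ℝ in Filter.atTop, 7 + 5 * |K0| ≤ Real.log y :=
    hlog.eventually_ge_atTop _
  have e2 : ∀ᶠ y : ℝ in Filter.atTop, (6 + |K0|) * y ^ (-(η / 4)) ≤ 1 / 5 := by
    have h := (tendsto_rpow_neg_atTop (show 0 < η / 4 by linarith)).const_mul (6 + |K0|)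
    rw [mul_zero] at h
    exact h.eventually_le_const (by norm_num)
  have e3 : ∀ᶠ y : ℝ in Filter.atTop,
      C ^ 2 * Real.log y ^ 2 * Real.exp (-(Real.log y) ^ (1 / 25 : ℝ)) ^ 2 ≤ 1 / 5 := by
    have h := tendsto_rpow_mul_exp_neg_mul_atTop_nhds_zero 50 2 (by norm_num)
    have h2 : Filter.Tendsto (fun y : ℝ => Real.log y ^ (1 / 25 : ℝ)) Filter.atTop Filter.atTop :=
      (tendsto_rpow_atTop (by norm_num)).comp hlog
    have h3 := (h.comp h2).const_mul (C ^ 2)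
    rw [mul_zero] at h3
    filter_upwards [h3.eventually_le_const (show (0 : ℝ) < 1 / 5 by norm_num), e1] with y hy hy1
    have hl : 0 ≤ Real.log y := by
      have := abs_nonneg K0
      linarith
    refine le_trans (le_of_eq ?_) hy
    simp only [Function.comp_apply]
    rw [← Real.rpow_mul hl, ← Real.exp_nat_mul]
    have h4 : Real.log y ^ (1 / 25 * 50 : ℝ) = Real.log y ^ 2 := by
      rw [← Real.rpow_natCast]
      norm_num
    rw [h4, mul_assoc]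
    congr 3
    push_cast
    ring
  obtain ⟨Y1, hY1⟩ := Filter.eventually_atTop.1 (e1.and (e2.and e3))
  refine ⟨max 3 Y1, le_max_left _ _, fun y hy => ?_⟩
  obtain ⟨h1, h2, h3⟩ := hY1 y ((le_max_right _ _).trans hy)
  have hK := abs_nonneg K0
  have hl : 7 ≤ Real.log y := by linarith
  have hl2 : 49 ≤ Real.log y ^ 2 := by nlinarith
  refine ⟨by linarith, h2, ?_, h3⟩
  have h4 : Real.log y ^ 3 = Real.log y ^ 2 * Real.log y := by ring
  rw [h4]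
  nlinarith

/-- the final estimate, real numbers only -/
private theorem MomY_fin {y η ℓ Λ K0 kp r C W SE : ℝ} {n : ℕ} (hy : 3 ≤ y) (hη0 : 0 < η)
    (hη1 : η ≤ 1) (hℓ1 : 1 ≤ ℓ) (hℓΛ : ℓ ≤ Λ) (hΛℓ : Λ ≤ 2 * ℓ)
    (hΛy : Λ ^ (2 * n + 4) ≤ y ^ (η / 4)) (hkp0 : 0 ≤ kp) (hkp : kp ≤ K0) (hr : 1 < r)
    (hr2 : r ≤ 11 / 10) (hSE0 : 0 ≤ SE) (hSE : SE ≤ y / ℓ ^ (2 * n + 8))
    (hW : |W| ≤ C * y * Real.exp (-ℓ ^ (1 / 25 : ℝ)))
    (h1 : 40 ≤ ℓ ^ 2) (h2 : (6 + |K0|) * y ^ (-(η / 4)) ≤ 1 / 5) (h3 : |K0| ≤ 1 / 5 * ℓ ^ 3)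
    (h4 : C ^ 2 * ℓ ^ 2 * Real.exp (-ℓ ^ (1 / 25 : ℝ)) ^ 2 ≤ 1 / 5) :
    W ^ 2 + Λ ^ 2 * (2 * ℓ ^ (2 * n + 2) * y * SE + y ^ 2 * y ^ (-(η / 2))) +
      Λ ^ 2 * Λ ^ (2 * n) * (y * (2 * (2 * y ^ (1 - η)) + 1)) +
      2 * (kp * ((r - 1) * y)) * (Λ * (ℓ ^ (2 * n + 2) * SE + y * y ^ (-(η / 2)))) ≤
      y ^ 2 / ℓ ^ 2 := by
  have hy0 : 0 < y := by linarith
  have hℓ0 : 0 < ℓ := by linarith
  have hΛ1 : 1 ≤ Λ := hℓ1.trans hℓΛ
  have hΛ0 : 0 < Λ := by linarith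
  have hK0 : 0 ≤ K0 := hkp0.trans hkp
  rw [abs_of_nonneg hK0] at h2 h3
  obtain ⟨u, hu⟩ : ∃ u : ℝ, u = y ^ (-(η / 4)) := ⟨_, rfl⟩
  rw [← hu] at h2
  have hu0 : 0 < u := by rw [hu]; exact Real.rpow_pos_of_pos hy0 _
  have hu1 : u ≤ 1 := by
    rw [hu]
    exact Real.rpow_le_one_of_one_le_of_nonpos (by linarith) (by linarith)
  have hmul : y ^ (η / 4) * u = 1 := by
    rw [hu, ← Real.rpow_add hy0, add_neg_cancel, Real.rpow_zero]
  have e2 : y ^ (-(η / 2)) = u * u := by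
    rw [hu, ← Real.rpow_add hy0]
    congr 1
    ring
  have e3 : y ^ (1 - η) = y * (u * u * (u * u)) := by
    rw [hu, ← Real.rpow_add hy0, ← Real.rpow_add hy0]
    nth_rewrite 2 [← Real.rpow_one y]
    rw [← Real.rpow_add hy0]
    congr 1
    ring
  have e4 : 1 ≤ y ^ (1 - η) := Real.one_le_rpow (by linarith) (by linarith)
  -- `Λ ^ k u ≤ 1` for `k ≤ 2 n + 4`
  have hΛu : ∀ k : ℕ, k ≤ 2 * n + 4 → Λ ^ k * u ≤ 1 := by
    intro k hk
    calc Λ ^ k * u ≤ y ^ (η / 4) * u := by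
          refine mul_le_mul_of_nonneg_right ?_ hu0.le
          exact (pow_le_pow_right₀ hΛ1 hk).trans hΛy
      _ = 1 := hmul
  rw [le_div_iff₀ (by positivity)]
  -- the terms times `ℓ ^ 2`
  have t1 : W ^ 2 * ℓ ^ 2 ≤ 1 / 5 * y ^ 2 := by
    have h5 : W ^ 2 ≤ (C * y * Real.exp (-ℓ ^ (1 / 25 : ℝ))) ^ 2 := by
      rw [← sq_abs W]
      exact pow_le_pow_left₀ (abs_nonneg _) hW 2
    calc W ^ 2 * ℓ ^ 2 ≤ (C * y * Real.exp (-ℓ ^ (1 / 25 : ℝ))) ^ 2 * ℓ ^ 2 := by gcongr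
      _ = (C ^ 2 * ℓ ^ 2 * Real.exp (-ℓ ^ (1 / 25 : ℝ)) ^ 2) * y ^ 2 := by ring
      _ ≤ 1 / 5 * y ^ 2 := by gcongr
  have hS : ℓ ^ (2 * n + 8) * SE ≤ y := by
    rw [le_div_iff₀ (by positivity)] at hSE
    linarith
  have t2 : Λ ^ 2 * (2 * ℓ ^ (2 * n + 2) * y * SE) * ℓ ^ 2 ≤ 1 / 5 * y ^ 2 := by
    have h5 : Λ ^ 2 ≤ (2 * ℓ) ^ 2 := by gcongr
    have h6 : ℓ ^ (2 * n + 8) * SE = (ℓ ^ (2 * n + 2) * ℓ ^ 2 * ℓ ^ 2 * SE) * ℓ ^ 2 := by ring
    have h7 : (ℓ ^ (2 * n + 2) * ℓ ^ 2 * ℓ ^ 2 * SE) * 40 ≤ y := by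
      calc (ℓ ^ (2 * n + 2) * ℓ ^ 2 * ℓ ^ 2 * SE) * 40
          ≤ (ℓ ^ (2 * n + 2) * ℓ ^ 2 * ℓ ^ 2 * SE) * ℓ ^ 2 := by gcongr
        _ = ℓ ^ (2 * n + 8) * SE := h6.symm
        _ ≤ y := hS
    calc Λ ^ 2 * (2 * ℓ ^ (2 * n + 2) * y * SE) * ℓ ^ 2
        ≤ (2 * ℓ) ^ 2 * (2 * ℓ ^ (2 * n + 2) * y * SE) * ℓ ^ 2 := by gcongr
      _ = (1 / 5 * y) * ((ℓ ^ (2 * n + 2) * ℓ ^ 2 * ℓ ^ 2 * SE) * 40) := by ring
      _ ≤ (1 / 5 * y) * y := by gcongr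
      _ = 1 / 5 * y ^ 2 := by ring
  have t3 : Λ ^ 2 * (y ^ 2 * y ^ (-(η / 2))) * ℓ ^ 2 ≤ u * y ^ 2 := by
    rw [e2]
    calc Λ ^ 2 * (y ^ 2 * (u * u)) * ℓ ^ 2 ≤ Λ ^ 2 * (y ^ 2 * (u * u)) * Λ ^ 2 := by gcongr
      _ = (Λ ^ 4 * u) * (u * y ^ 2) := by ring
      _ ≤ 1 * (u * y ^ 2) := by
          gcongr
          exact hΛu 4 (by omega)
      _ = u * y ^ 2 := one_mul _
  have t4 : Λ ^ 2 * Λ ^ (2 * n) * (y * (2 * (2 * y ^ (1 - η)) + 1)) * ℓ ^ 2 ≤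
      5 * (u * y ^ 2) := by
    calc Λ ^ 2 * Λ ^ (2 * n) * (y * (2 * (2 * y ^ (1 - η)) + 1)) * ℓ ^ 2
        ≤ Λ ^ 2 * Λ ^ (2 * n) * (y * (2 * (2 * y ^ (1 - η)) + y ^ (1 - η))) * Λ ^ 2 := by gcongr
      _ = 5 * (Λ ^ (2 * n + 4) * (y * y ^ (1 - η))) := by ring
      _ = 5 * ((Λ ^ (2 * n + 4) * u) * (u * (u * u)) * y ^ 2) := by
          rw [e3]
          ring
      _ ≤ 5 * (1 * (u * (1 * 1)) * y ^ 2) := by
          gcongr
          exact hΛu _ le_rfl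
      _ = 5 * (u * y ^ 2) := by ring
  have hkr : kp * (r - 1) ≤ K0 * (1 / 10) := by
    refine mul_le_mul hkp (by linarith) (by linarith) hK0
  have hkr0 : 0 ≤ kp * (r - 1) := mul_nonneg hkp0 (by linarith)
  have t5 : 2 * (kp * ((r - 1) * y)) * (Λ * (ℓ ^ (2 * n + 2) * SE)) * ℓ ^ 2 ≤
      1 / 5 * y ^ 2 := by
    calc 2 * (kp * ((r - 1) * y)) * (Λ * (ℓ ^ (2 * n + 2) * SE)) * ℓ ^ 2
        = 2 * (kp * (r - 1)) * y * (Λ * (ℓ ^ (2 * n + 2) * SE)) * ℓ ^ 2 := by ring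
      _ ≤ 2 * (K0 * (1 / 10)) * y * ((2 * ℓ) * (ℓ ^ (2 * n + 2) * SE)) * ℓ ^ 2 := by gcongr
      _ = (2 / 5 * K0) * (ℓ ^ (2 * n + 5) * SE) * y := by ring
      _ ≤ (2 / 5 * (1 / 5 * ℓ ^ 3)) * (ℓ ^ (2 * n + 5) * SE) * y := by gcongr
      _ = 2 / 25 * (ℓ ^ (2 * n + 8) * SE) * y := by ring
      _ ≤ 2 / 25 * y * y := by gcongr
      _ ≤ 1 / 5 * y ^ 2 := by nlinarith [sq_nonneg y]
  have t6 : 2 * (kp * ((r - 1) * y)) * (Λ * (y * y ^ (-(η / 2)))) * ℓ ^ 2 ≤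
      K0 * (u * y ^ 2) := by
    rw [e2]
    calc 2 * (kp * ((r - 1) * y)) * (Λ * (y * (u * u))) * ℓ ^ 2
        = 2 * (kp * (r - 1)) * y * (Λ * (y * (u * u))) * ℓ ^ 2 := by ring
      _ ≤ 2 * (K0 * (1 / 10)) * y * (Λ * (y * (u * u))) * Λ ^ 2 := by gcongr
      _ = 1 / 5 * K0 * (Λ ^ 3 * u) * (u * y ^ 2) := by ring
      _ ≤ 1 / 5 * K0 * 1 * (u * y ^ 2) := by
          gcongr
          exact hΛu 3 (by omega)
      _ ≤ K0 * (u * y ^ 2) := by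
          have : 0 ≤ K0 * (u * y ^ 2) := by positivity
          nlinarith
  have t7 : (6 + K0) * u * y ^ 2 ≤ 1 / 5 * y ^ 2 := by gcongr
  have hsum : (W ^ 2 + Λ ^ 2 * (2 * ℓ ^ (2 * n + 2) * y * SE + y ^ 2 * y ^ (-(η / 2))) +
      Λ ^ 2 * Λ ^ (2 * n) * (y * (2 * (2 * y ^ (1 - η)) + 1)) +
      2 * (kp * ((r - 1) * y)) * (Λ * (ℓ ^ (2 * n + 2) * SE + y * y ^ (-(η / 2))))) * ℓ ^ 2 =
      W ^ 2 * ℓ ^ 2 + Λ ^ 2 * (2 * ℓ ^ (2 * n + 2) * y * SE) * ℓ ^ 2 +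
      Λ ^ 2 * (y ^ 2 * y ^ (-(η / 2))) * ℓ ^ 2 +
      Λ ^ 2 * Λ ^ (2 * n) * (y * (2 * (2 * y ^ (1 - η)) + 1)) * ℓ ^ 2 +
      2 * (kp * ((r - 1) * y)) * (Λ * (ℓ ^ (2 * n + 2) * SE)) * ℓ ^ 2 +
      2 * (kp * ((r - 1) * y)) * (Λ * (y * y ^ (-(η / 2)))) * ℓ ^ 2 := by ring
  rw [hsum]
  have hyy : 0 ≤ y ^ 2 := sq_nonneg y
  nlinarith [t1, t2, t3, t4, t5, t6, t7]

theorem momY (c : ℝ) {θ : ℝ} (h : 1 / 2 < θ) (h1 : θ < 1) (B n m : ℕ) (hB : 0 < B)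
    (hm : 2 * n ≤ m) (r : ℝ) (hr : 1 < r) (hr2 : r ≤ 11 / 10) : ∃ Y : ℝ, 3 ≤ Y ∧ ∀ y ≥ Y,
    ∀ G : ℕ → ℝ, Ad c θ G → ∀ μ : ℕ → ℕ, (∀ i, μ i ∣ B) →
    (∫ a in Cu m, (VL μ (SS G (ep θ) a) n y (r * y) - kapL B μ n * ((r - 1) * y)) ^ 2) ≤
      y ^ 2 / Real.log y ^ 2 := by
  obtain ⟨Y1, hY1, hs⟩ := sglY c h h1 B n m hB (by omega)
  obtain ⟨Y2, hY2, hp2⟩ := pairY c h h1 B n m hB hm
  obtain ⟨Y3, hY3, herr⟩ := errY c h h1 B n m hB (by omega) (2 * n + 8)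
  obtain ⟨C3, hC3, hW⟩ := sum_gg B hB n r hr hr2
  obtain ⟨Y4, hY4, hth⟩ := thY c h h1 B n m hB
  have hη := eta_pos h h1 m
  have hη1 : eta θ m ≤ 1 := by
    have := eta_le (θ := θ) m
    linarith
  obtain ⟨Y5, hY5, hlog⟩ := logsY n (2 * n + 4) (eta θ m / 4) (by linarith)
  obtain ⟨K0, hK0⟩ : ∃ K0 : ℝ, K0 = ((B : ℝ) / B.totient) ^ n := ⟨_, rfl⟩
  obtain ⟨Y6, hY6, hlarge⟩ := MomY_large C3 K0 (eta θ m) hη
  refine ⟨max (max (max Y1 Y2) (max Y3 Y4)) (max (max Y5 Y6) (max (B : ℝ) 3)), ?_, ?_⟩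
  · exact le_trans (le_max_right _ _) (le_trans (le_max_right _ _) (le_max_right _ _))
  intro y hy G hGA μ hμ
  obtain ⟨kp, hkpdef⟩ : ∃ kp : ℝ, kp = kapL B μ n := ⟨_, rfl⟩
  have hkap : 0 ≤ kp := by rw [hkpdef]; exact (kapL_bd hB hμ n).1
  have hkap2 : kp ≤ K0 := by rw [hkpdef, hK0]; exact (kapL_bd hB hμ n).2
  rw [← hkpdef]
  have hya : max (max Y1 Y2) (max Y3 Y4) ≤ y := (le_max_left _ _).trans hy
  have hyb : max (max Y5 Y6) (max (B : ℝ) 3) ≤ y := (le_max_right _ _).trans hy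
  have hy1 : Y1 ≤ y := le_trans (le_trans (le_max_left _ _) (le_max_left _ _)) hya
  have hy2 : Y2 ≤ y := le_trans (le_trans (le_max_right _ _) (le_max_left _ _)) hya
  have hyE : Y3 ≤ y := le_trans (le_trans (le_max_left _ _) (le_max_right _ _)) hya
  have hy4 : Y4 ≤ y := le_trans (le_trans (le_max_right _ _) (le_max_right _ _)) hya
  have hy5 : Y5 ≤ y := le_trans (le_trans (le_max_left _ _) (le_max_left _ _)) hyb
  have hy6 : Y6 ≤ y := le_trans (le_trans (le_max_right _ _) (le_max_left _ _)) hyb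
  have hyM : (B : ℝ) ≤ y := le_trans (le_trans (le_max_left _ _) (le_max_right _ _)) hyb
  have hy3 : 3 ≤ y := le_trans (le_trans (le_max_right _ _) (le_max_right _ _)) hyb
  have hy0 : 0 < y := by linarith
  set P : Finset ℕ := Finset.Ioc ⌊y⌋₊ ⌊r * y⌋₊ with hPdef
  have hPmem : ∀ p ∈ P, y < (p : ℝ) ∧ (p : ℝ) ≤ 11 / 10 * y := by
    intro p hp
    rw [hPdef, Finset.mem_Ioc] at hp
    refine ⟨Nat.lt_of_floor_lt hp.1, ?_⟩
    have h1 : (p : ℝ) ≤ r * y := (Nat.le_floor_iff (by positivity)).1 hp.2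
    have h2 : r * y ≤ 11 / 10 * y := mul_le_mul_of_nonneg_right hr2 hy0.le
    linarith
  have hPcard : (P.card : ℝ) ≤ y := by
    rw [hPdef, Nat.card_Ioc]
    rcases le_total ⌊y⌋₊ ⌊r * y⌋₊ with hle | hle
    · rw [Nat.cast_sub hle]
      have h1 := Nat.floor_le (show 0 ≤ r * y by positivity)
      have h2 := Nat.lt_floor_add_one y
      have h3 : r * y ≤ 11 / 10 * y := mul_le_mul_of_nonneg_right hr2 hy0.le
      linarith
    · rw [Nat.sub_eq_zero_of_le hle]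
      simpa using hy0.le
  obtain ⟨hΛ1, hΛ2, hℓ1, hΛK⟩ := hlog y hy5
  obtain ⟨hn1, hn2, hn3, hn4⟩ := hlarge y hy6
  have hℓΛ : Real.log y ≤ Real.log (2 ^ (n + 4) * y) := by
    refine Real.log_le_log hy0 ?_
    have : (1 : ℝ) ≤ 2 ^ (n + 4) := one_le_pow₀ (by norm_num)
    nlinarith
  set Λ : ℝ := Real.log (2 ^ (n + 4) * y) with hΛdef
  have hΛ0 : 0 ≤ Λ := by linarith
  -- the functions
  set f : ℕ → (Fin m → ℝ) → ℝ := fun p a => ∏ i ∈ Finset.Icc 1 n, th (cl μ (SS G (ep θ) a) p i)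
    with hfdef
  have hth0 : ∀ c : ℕ, 0 ≤ th c := by
    intro c
    unfold th
    split_ifs
    · exact Real.log_natCast_nonneg c
    · exact le_rfl
  have hfm : ∀ p, Measurable (f p) := by
    intro p
    refine Finset.measurable_prod _ fun i _ => ?_
    exact (measurable_from_top (f := th)).comp
      (measurable_cl μ (fun a : Fin m → ℝ => SS G (ep θ) a)
        (fun q => measurable_SS G (ep θ) q) p i)
  have hfb : ∀ p ∈ P, ∀ a ∈ Cu m, 0 ≤ f p a ∧ f p a ≤ Λ ^ n := by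
    intro p hp a ha
    refine ⟨Finset.prod_nonneg fun i _ => hth0 _, ?_⟩
    calc f p a ≤ ∏ i ∈ Finset.Icc 1 n, Λ := by
          refine Finset.prod_le_prod (fun i _ => hth0 _) fun i hi => ?_
          exact (hth y hy4 G hGA a ha μ hμ p (hPmem p hp).1 (hPmem p hp).2 i
            (Finset.mem_Icc.1 hi).2).2.1
      _ = Λ ^ n := by rw [Finset.prod_const, Nat.card_Icc, Nat.add_sub_cancel]
  have hV : ∀ a : Fin m → ℝ, VL μ (SS G (ep θ) a) n y (r * y) = ∑ p ∈ P, th p * f p a := by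
    intro a
    unfold VL
    refine Finset.sum_congr rfl fun p _ => ?_
    rw [Finset.prod_range_succ', cl_zero, mul_comm]
    congr 1
    rw [hfdef]
    rw [Finset.range_eq_Ico, Finset.prod_Ico_add' (fun i => th (cl μ (SS G (ep θ) a) p i)) 0 n 1]
    rfl
  have hprob : IsProbabilityMeasure (volume.restrict (Cu m)) := by
    refine ⟨?_⟩
    rw [Measure.restrict_apply_univ, MomY_vol_Cu]
  have hmeas : MeasurableSet (Cu m) := by
    unfold Cu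
    exact measurableSet_Icc
  have hint := MomY_integral_sq (μ := volume.restrict (Cu m)) P (fun p => th p) f
    (kp * ((r - 1) * y)) (Λ ^ n) (fun p _ => hfm p) (by
      intro p hp
      filter_upwards [ae_restrict_mem hmeas] with a ha
      exact hfb p hp a ha)
  simp_rw [hV]
  rw [hint]
  have hgd0 : ∀ p, 0 ≤ gg B μ n 0 p := by
    intro p
    exact (gg_bd hB hμ n 0 p).1
  have hwΛ : ∀ p ∈ P, th p ≤ Λ := by
    intro p hp
    have h0 : (0 : Fin m → ℝ) ∈ Cu m := by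
      unfold Cu
      exact ⟨le_rfl, zero_le_one⟩
    have := (hth y hy4 G hGA 0 h0 μ hμ p (hPmem p hp).1 (hPmem p hp).2 0 (Nat.zero_le n)).2.1
    rwa [cl_zero] at this
  have hE0 : 0 ≤ kp * ((r - 1) * y) :=
    mul_nonneg hkap (mul_nonneg (by linarith) hy0.le)
  have key := MomY_est P (fun p => th p) (fun p => gg B μ n 0 p)
    (fun p => ∫ a in Cu m, f p a) (fun p => EE θ B n m G μ y p)
    (fun p p' => ∫ a in Cu m, f p a * f p' a)
    (kp * ((r - 1) * y)) Λ y (2 * y ^ (1 - eta θ m)) (y ^ (-(eta θ m / 2)))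
    (Real.log y ^ (2 * n + 2)) (Λ ^ (2 * n)) hE0 (by positivity) (by positivity)
    (by positivity) (by positivity) (fun p _ => hth0 p) hwΛ hΛ0 (fun p _ => hgd0 p)
    (fun p _ => EE_nonneg θ B n m G μ hy0.le p) hPcard
    (fun p hp => hs y hy1 G hGA μ hμ p (hPmem p hp).1 (hPmem p hp).2)
    (by
      intro p hp p' hp' hd
      have := hp2 y hy2 G hGA μ hμ p p' (hPmem p hp).1 (hPmem p hp).2 (hPmem p' hp').1
        (hPmem p' hp').2 hd
      simp_rw [Finset.prod_mul_distrib] at this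
      exact this)
    (by
      intro p hp p' hp'
      calc (∫ a in Cu m, f p a * f p' a) ≤ ∫ a in Cu m, Λ ^ (2 * n) := by
            refine setIntegral_mono_on ?_ (integrable_const _) hmeas ?_
            · refine Integrable.mono' (integrable_const (Λ ^ n * Λ ^ n))
                ((hfm p).mul (hfm p')).aestronglyMeasurable ?_
              filter_upwards [ae_restrict_mem hmeas] with a ha
              have h1 := hfb p hp a ha
              have h2 := hfb p' hp' a ha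
              rw [Real.norm_eq_abs, abs_of_nonneg (mul_nonneg h1.1 h2.1)]
              exact mul_le_mul h1.2 h2.2 h2.1 (h1.1.trans h1.2)
            · intro a ha
              have h1 := hfb p hp a ha
              have h2 := hfb p' hp' a ha
              calc f p a * f p' a ≤ Λ ^ n * Λ ^ n :=
                    mul_le_mul h1.2 h2.2 h2.1 (h1.1.trans h1.2)
                _ = Λ ^ (2 * n) := by rw [two_mul, pow_add]
        _ = Λ ^ (2 * n) := by simp)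
  refine le_trans key ?_
  have hSE : ∑ p ∈ P, EE θ B n m G μ y p ≤ y / Real.log y ^ (2 * n + 8) := by
    refine le_trans ?_ (herr y hyE G hGA μ hμ)
    refine Finset.sum_le_sum_of_subset_of_nonneg ?_ fun p _ _ => EE_nonneg θ B n m G μ hy0.le p
    rw [hPdef]
    refine Finset.Ioc_subset_Ioc_right ?_
    exact Nat.floor_le_floor (mul_le_mul_of_nonneg_right hr2 hy0.le)
  have hWW := hW μ hμ y (by linarith) hyM
  rw [← hkpdef] at hWW
  exact MomY_fin (W := ∑ p ∈ P, th p * gg B μ n 0 p - kp * ((r - 1) * y))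
    (SE := ∑ p ∈ P, EE θ B n m G μ y p) (C := C3) (K0 := K0) hy3 hη hη1 hℓ1 hℓΛ hΛ2 hΛK hkap
    hkap2 hr hr2 (Finset.sum_nonneg fun p _ => EE_nonneg θ B n m G μ hy0.le p) hSE hWW hn1 hn2
    hn3 hn4

end Pool.Agent.PCy
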