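import Pool.Agent.PCy.Short

/-!
# The mean value of the error function

`[y, 2^(n+3) y]` is the union of the `n + 3` intervals `(X, 2X]`, `X = 2^j y`, `j < n + 3`, and a point.  For each of them and each class `b`
prime to `B`: `h = M y^τ`, `τ = (θ + 1/2)/2`, satisfies `X^θ' ≤ h ≤ X` with `θ' = (τ + 1/2)/2` for large `y` (`X ≤ 2^(n+3) y`, `θ' < τ < 1`, `M ≤ B`), so by
`shortB` with `A := 2 A + 2` and the Cauchy-Schwarz inequality `∫_X^{2X} |RR| ≤ (X * X h²/(log X)^(2A+2))^(1/2) = X h/(log X)^(A+1)`.  Sum over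
`b` (at most `B`) and `j`: `∫ ph ≤ B (n + 3) 2^(n+3) y/(log y)^(A+1) ≤ y/(log y)^A` for large `y`.  (`RR` is bounded and measurable on bounded
intervals: `ph_bd`, `RR_meas`; `|RR| ≤ h ph` for a class prime to `B`, `B > 0`.)
-/

namespace Pool.Agent.PCy

open MeasureTheory

private theorem PhInt_RR_le {B b : ℕ} {h x : ℝ} (hh : 0 < h)
    (hb : b ∈ (Finset.range B).filter (fun b => Nat.Coprime b B)) :
    |RR B b h x| ≤ h * ph B h x := by
  unfold ph
  rw [← mul_assoc, mul_one_div_cancel hh.ne', one_mul]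
  exact Finset.single_le_sum (f := fun b => |RR B b h x|) (fun _ _ => abs_nonneg _) hb

private theorem PhInt_RR_int {B b : ℕ} {h X : ℝ} (hh : 0 < h)
    (hb : b ∈ (Finset.range B).filter (fun b => Nat.Coprime b B)) :
    IntegrableOn (fun x => RR B b h x ^ 2) (Set.Ioc X (2 * X)) volume := by
  obtain ⟨K, hK0, hK⟩ := ph_bd B h (2 * X)
  refine Measure.integrableOn_of_bounded (M := (h * K) ^ 2) measure_Ioc_lt_top.ne
    ((RR_meas B b h).pow_const 2).aestronglyMeasurable ?_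
  rw [ae_restrict_iff' measurableSet_Ioc]
  refine Filter.Eventually.of_forall (fun x hx => ?_)
  have h1 := PhInt_RR_le (x := x) hh hb
  have h2 := (abs_le.1 (hK x hx.2)).2
  have h3 : |RR B b h x| ≤ h * K := h1.trans (mul_le_mul_of_nonneg_left h2 hh.le)
  rw [Real.norm_eq_abs, abs_pow]
  exact pow_le_pow_left₀ (abs_nonneg _) h3 2

private theorem PhInt_ph_int {B : ℕ} {h a b : ℝ} :
    IntegrableOn (fun x => ph B h x) (Set.Ioc a b) volume := by
  obtain ⟨K, hK0, hK⟩ := ph_bd B h b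
  refine Measure.integrableOn_of_bounded (M := K) measure_Ioc_lt_top.ne
    (ph_meas B h).aestronglyMeasurable ?_
  rw [ae_restrict_iff' measurableSet_Ioc]
  refine Filter.Eventually.of_forall (fun x hx => ?_)
  rw [Real.norm_eq_abs]
  exact hK x hx.2

private theorem PhInt_piece {B : ℕ} {h X L : ℝ} (hh : 0 < h) (hX : 0 < X) (hL : 0 < L)
    (H : ∀ b, Nat.Coprime b B → (∫ x in Set.Ioc X (2 * X), (RR B b h x) ^ 2) ≤ X * h ^ 2 / L ^ 2) :
    (∫ x in Set.Ioc X (2 * X), ph B h x) ≤ B * (X / L) := by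
  set s := (Finset.range B).filter (fun b => Nat.Coprime b B) with hs
  have hvol : volume.real (Set.Ioc X (2 * X)) = X := by
    rw [Measure.real, Real.volume_Ioc, ENNReal.toReal_ofReal (by linarith)]
    ring
  have hint : ∀ b ∈ s, IntegrableOn (fun x => RR B b h x ^ 2 * (L / (2 * h)) + h / (2 * L))
      (Set.Ioc X (2 * X)) volume := by
    intro b hb
    exact ((PhInt_RR_int hh hb).mul_const _).add (integrableOn_const measure_Ioc_lt_top.ne)
  have hpt : ∀ x, ph B h x ≤ 1 / h * ∑ b ∈ s, (RR B b h x ^ 2 * (L / (2 * h)) + h / (2 * L)) := by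
    intro x
    unfold ph
    apply mul_le_mul_of_nonneg_left _ (by positivity)
    apply Finset.sum_le_sum
    intro b _
    rw [← sq_abs]
    set u := |RR B b h x|
    have e : u ^ 2 * (L / (2 * h)) + h / (2 * L) - u = (u * L - h) ^ 2 / (2 * h * L) := by
      field_simp
      ring
    have h1 : 0 ≤ (u * L - h) ^ 2 / (2 * h * L) := by positivity
    linarith
  have hgint : IntegrableOn (fun x => 1 / h * ∑ b ∈ s, (RR B b h x ^ 2 * (L / (2 * h)) + h / (2 * L)))
      (Set.Ioc X (2 * X)) volume := by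
    apply Integrable.const_mul
    exact integrable_finsetSum s (fun b hb => hint b hb)
  have h2 : (∫ x in Set.Ioc X (2 * X), ph B h x) ≤
      ∫ x in Set.Ioc X (2 * X), 1 / h * ∑ b ∈ s, (RR B b h x ^ 2 * (L / (2 * h)) + h / (2 * L)) :=
    integral_mono PhInt_ph_int hgint hpt
  refine h2.trans ?_
  rw [integral_const_mul, integral_finsetSum s (fun b hb => hint b hb)]
  have h3 : ∀ b ∈ s, (∫ x in Set.Ioc X (2 * X), (RR B b h x ^ 2 * (L / (2 * h)) + h / (2 * L))) ≤
      h * (X / L) := by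
    intro b hb
    rw [integral_add ((PhInt_RR_int hh hb).mul_const _) (integrableOn_const measure_Ioc_lt_top.ne),
      integral_mul_const, setIntegral_const, hvol, smul_eq_mul]
    have hb2 := H b (Finset.mem_filter.1 hb).2
    have h4 : (∫ x in Set.Ioc X (2 * X), (RR B b h x) ^ 2) * (L / (2 * h)) ≤
        X * h ^ 2 / L ^ 2 * (L / (2 * h)) := mul_le_mul_of_nonneg_right hb2 (by positivity)
    have e : X * h ^ 2 / L ^ 2 * (L / (2 * h)) + X * (h / (2 * L)) = h * (X / L) := by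
      field_simp
      ring
    linarith
  calc 1 / h * ∑ b ∈ s, (∫ x in Set.Ioc X (2 * X), (RR B b h x ^ 2 * (L / (2 * h)) + h / (2 * L)))
      ≤ 1 / h * ∑ _b ∈ s, h * (X / L) :=
        mul_le_mul_of_nonneg_left (Finset.sum_le_sum h3) (by positivity)
    _ = s.card * (X / L) := by
        rw [Finset.sum_const, nsmul_eq_mul]
        field_simp
    _ ≤ B * (X / L) := by
        apply mul_le_mul_of_nonneg_right _ (by positivity)
        have h5 : s.card ≤ B := by
          rw [hs]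
          exact (Finset.card_filter_le _ _).trans (by rw [Finset.card_range])
        exact_mod_cast h5

private theorem PhInt_sum {B : ℕ} {h y D : ℝ} (hy : 0 < y) (N : ℕ)
    (H : ∀ j < N, (∫ x in Set.Ioc (2 ^ j * y) (2 * (2 ^ j * y)), ph B h x) ≤ D) :
    (∫ x in Set.Ioc y (2 ^ N * y), ph B h x) ≤ N * D := by
  induction N with
  | zero => simp
  | succ N ih =>
    have h1 := ih (fun j hj => H j (by omega))
    have h2 := H N (by omega)
    have e : (2 : ℝ) ^ (N + 1) * y = 2 * (2 ^ N * y) := by rw [pow_succ]; ring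
    have h3 : (1 : ℝ) ≤ 2 ^ N := one_le_pow₀ (by norm_num)
    have h4 : y ≤ 2 ^ N * y := by nlinarith
    have h5 : 2 ^ N * y ≤ 2 * (2 ^ N * y) := by linarith
    have h6 : Set.Ioc y (2 * (2 ^ N * y)) =
        Set.Ioc y (2 ^ N * y) ∪ Set.Ioc (2 ^ N * y) (2 * (2 ^ N * y)) :=
      (Set.Ioc_union_Ioc_eq_Ioc h4 h5).symm
    have h7 : Disjoint (Set.Ioc y (2 ^ N * y)) (Set.Ioc (2 ^ N * y) (2 * (2 ^ N * y))) := by
      rw [Set.disjoint_left]
      intro x hx hx'
      exact absurd hx.2 (not_le.2 hx'.1)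
    rw [e, h6, setIntegral_union h7 measurableSet_Ioc PhInt_ph_int PhInt_ph_int]
    push_cast
    linarith

theorem phInt (B : ℕ) (hB : 0 < B) {θ : ℝ} (h : 1 / 2 < θ) (h1 : θ < 1) (n A : ℕ) :
    ∃ Y : ℝ, 3 ≤ Y ∧ ∀ y ≥ Y, ∀ M : ℕ, M ∣ B →
      (∫ x in Set.Icc y (2 ^ (n + 3) * y), ph B (M * ty θ y) x) ≤ y / Real.log y ^ A := by
  obtain ⟨τ, hτ⟩ : ∃ τ, τ = (θ + 1 / 2) / 2 := ⟨_, rfl⟩
  have hτ1 : 1 / 2 < τ := by rw [hτ]; linarith
  have hτ2 : τ < 1 := by rw [hτ]; linarith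
  obtain ⟨θ', hθ'⟩ : ∃ θ', θ' = (τ + 1 / 2) / 2 := ⟨_, rfl⟩
  have hθ1 : 1 / 2 < θ' := by rw [hθ']; linarith
  have hθ2 : θ' < τ := by rw [hθ']; linarith
  obtain ⟨X0, hX03, hX0⟩ := shortB B hB θ' hθ1 (by linarith) (2 * (A + 1))
  set K : ℝ := (n + 3 : ℕ) * (B * 2 ^ (n + 3)) with hK
  have ev1 : ∀ᶠ y : ℝ in Filter.atTop, ((2 : ℝ) ^ (n + 3)) ^ θ' ≤ y ^ (τ - θ') :=
    (tendsto_rpow_atTop (by linarith)).eventually_ge_atTop _
  have ev2 : ∀ᶠ y : ℝ in Filter.atTop, (B : ℝ) ≤ y ^ (1 - τ) :=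
    (tendsto_rpow_atTop (by linarith)).eventually_ge_atTop _
  have ev3 : ∀ᶠ y : ℝ in Filter.atTop, K ≤ Real.log y :=
    Real.tendsto_log_atTop.eventually_ge_atTop _
  obtain ⟨Y, hY⟩ := Filter.eventually_atTop.1 ((ev1.and ev2).and ev3)
  refine ⟨max Y (max X0 3), (le_max_right _ _).trans (le_max_right _ _), ?_⟩
  intro y hy M hM
  have hyY : Y ≤ y := (le_max_left _ _).trans hy
  have hyX0 : X0 ≤ y := ((le_max_left _ _).trans (le_max_right _ _)).trans hy
  have hy3 : 3 ≤ y := ((le_max_right _ _).trans (le_max_right _ _)).trans hy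
  have hy0 : 0 < y := by linarith
  obtain ⟨⟨e1, e2⟩, e3⟩ := hY y hyY
  have hlogy : 0 < Real.log y := Real.log_pos (by linarith)
  have hM1 : 1 ≤ M := Nat.pos_of_dvd_of_pos hM hB
  have hMB : M ≤ B := Nat.le_of_dvd hB hM
  have hM1' : (1 : ℝ) ≤ M := by exact_mod_cast hM1
  have hMB' : (M : ℝ) ≤ B := by exact_mod_cast hMB
  have hty : ty θ y = y ^ τ := by rw [hτ]; rfl
  have htypos : 0 < y ^ τ := by positivity
  rw [hty]
  set k : ℝ := M * y ^ τ with hk
  have hk0 : 0 < k := by positivity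
  have hk1 : y ^ τ ≤ k := by rw [hk]; nlinarith
  have hk2 : k ≤ y := by
    calc k ≤ B * y ^ τ := mul_le_mul_of_nonneg_right hMB' htypos.le
      _ ≤ y ^ (1 - τ) * y ^ τ := mul_le_mul_of_nonneg_right e2 htypos.le
      _ = y := by
        rw [← Real.rpow_add hy0, sub_add_cancel, Real.rpow_one]
  rw [integral_Icc_eq_integral_Ioc]
  have hpiece : ∀ j < n + 3, (∫ x in Set.Ioc (2 ^ j * y) (2 * (2 ^ j * y)), ph B k x) ≤
      B * (2 ^ (n + 3) * y / Real.log y ^ (A + 1)) := by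
    intro j hj
    have h2j : (1 : ℝ) ≤ 2 ^ j := one_le_pow₀ (by norm_num)
    have h2j' : (2 : ℝ) ^ j ≤ 2 ^ (n + 3) := pow_le_pow_right₀ (by norm_num) hj.le
    have hXy : y ≤ 2 ^ j * y := by nlinarith
    have hX0' : 0 < 2 ^ j * y := by positivity
    have hXle : 2 ^ j * y ≤ 2 ^ (n + 3) * y := mul_le_mul_of_nonneg_right h2j' hy0.le
    have hlogX : Real.log y ≤ Real.log (2 ^ j * y) := Real.log_le_log hy0 hXy
    have hlogX0 : 0 < Real.log (2 ^ j * y) := hlogy.trans_le hlogX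
    have hXk : (2 ^ j * y) ^ θ' ≤ k := by
      calc (2 ^ j * y) ^ θ' ≤ (2 ^ (n + 3) * y) ^ θ' :=
            Real.rpow_le_rpow hX0'.le hXle (by linarith)
        _ = ((2 : ℝ) ^ (n + 3)) ^ θ' * y ^ θ' := Real.mul_rpow (by positivity) hy0.le
        _ ≤ y ^ (τ - θ') * y ^ θ' := mul_le_mul_of_nonneg_right e1 (by positivity)
        _ = y ^ τ := by rw [← Real.rpow_add hy0, sub_add_cancel]
        _ ≤ k := hk1
    have h1 := PhInt_piece (B := B) (h := k) (X := 2 ^ j * y) (L := Real.log (2 ^ j * y) ^ (A + 1)) hk0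
      hX0' (by positivity) (fun b hb => by
        have h2 := hX0 (2 ^ j * y) (hyX0.trans hXy) k hXk (hk2.trans hXy) b hb
        rw [← pow_mul, mul_comm (A + 1) 2]
        exact h2)
    refine h1.trans ?_
    apply mul_le_mul_of_nonneg_left _ (Nat.cast_nonneg _)
    apply div_le_div₀ (by positivity) hXle (by positivity)
    exact pow_le_pow_left₀ hlogy.le hlogX _
  have hsum := PhInt_sum hy0 (n + 3) hpiece
  refine hsum.trans ?_
  have e4 : ((n + 3 : ℕ) : ℝ) * (B * (2 ^ (n + 3) * y / Real.log y ^ (A + 1))) =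
      K * (y / Real.log y ^ (A + 1)) := by
    rw [hK]
    ring
  rw [e4]
  calc K * (y / Real.log y ^ (A + 1)) ≤ Real.log y * (y / Real.log y ^ (A + 1)) :=
        mul_le_mul_of_nonneg_right e3 (by positivity)
    _ = y / Real.log y ^ A := by
        rw [pow_succ]
        field_simp

end Pool.Agent.PCy
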