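import Pool.Agent.PCy.GgY
import Pool.Agent.PCy.TwoY

/-!
# The expectation for one chain

Adapt `Pool/Agent/PCx/SglX.lean`.  `Λ = log(2^(n+4) y)`, `R = B/φ(B)`.  `J_i = ∫ (∏_{j=1}^i θ(c_j)) * gg B μ (n-i) i c_i`,
`J_0 = gg B μ n 0 p`.  For `i < n`: `twoY` with `p' = p`, `k = 0`, `F x x' = ∏_{j=1}^i θ(x_j)`, `KF = Λ^n`,
`f x x' c = thc (2^(n+4) y) c * gg B μ (n-i-1) (i+1) c`, `Kf = Λ R^n`, `κ x x' = gg B μ (n-i) i (x i)`,
`E a = R^n B ph B (μ i * ty θ y) (ps μ S p i) + y^(-1/4)` (`avg_clY`; integrable: `phps_int`) gives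
`|J_{i+1} - J_i| ≤ Λ^n (R^n B ∫ ph(ps) + y^(-1/4)) + Λ^(n+1) R^n y^(-η)`.  Sum over `i` (`EE_eq`):
`|J_n - J_0| ≤ Λ^n R^n B EE + n Λ^n y^(-1/4) + n Λ^(n+1) R^n y^(-η)`, `Λ ≤ 2 log y` (`logsY`), so for large `y` this is
`≤ (log y)^(2n+2) EE + y^(-η/2)` (`η ≤ (1-θ)/2 ≤ 1/4`).
-/

namespace Pool.Agent.PCy

open MeasureTheory Pool.Agent.PCn Pool.Agent.PCx

private theorem SglY_vol (m : ℕ) : (∫ _a in Cu m, (1 : ℝ)) = 1 := by
  unfold Cu
  rw [setIntegral_const, smul_eq_mul, mul_one, measureReal_def, Real.volume_Icc_pi]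
  simp

private theorem SglY_thc_abs {X : ℝ} (hX : 1 ≤ Real.log X) (c : ℕ) : |thc X c| ≤ Real.log X := by
  unfold thc th
  split_ifs with h1 h2
  · have hc : (1 : ℝ) ≤ c := by exact_mod_cast h2.one_lt.le
    rw [abs_of_nonneg (Real.log_nonneg hc)]
    exact Real.log_le_log (by linarith) h1
  · rw [abs_zero]
    linarith
  · rw [abs_zero]
    linarith

private theorem SglY_const_int (m : ℕ) (x : ℝ) : IntegrableOn (fun _ : Fin m → ℝ => x) (Cu m) := by
  have h : (MeasureTheory.volume (Cu m)) ≠ ⊤ := by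
    unfold Cu
    rw [Real.volume_Icc_pi]
    simp
  exact integrableOn_const h

theorem sglY (c : ℝ) {θ : ℝ} (h : 1 / 2 < θ) (h1 : θ < 1) (B n m : ℕ) (hB : 0 < B) (hm : n ≤ m) :
    ∃ Y : ℝ, 3 ≤ Y ∧ ∀ y ≥ Y, ∀ G : ℕ → ℝ, Ad c θ G → ∀ μ : ℕ → ℕ, (∀ i, μ i ∣ B) →
    ∀ p : ℕ, y < p → (p : ℝ) ≤ 11 / 10 * y →
    |(∫ a in Cu m, ∏ i ∈ Finset.Icc 1 n, th (cl μ (SS G (ep θ) a) p i)) - gg B μ n 0 p| ≤
      Real.log y ^ (2 * n + 2) * EE θ B n m G μ y p + y ^ (-(eta θ m / 2)) := by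
  have hη := eta_pos h h1 m
  have hη2 : eta θ m ≤ 1 / 4 := (eta_le m).trans (by linarith)
  set η : ℝ := eta θ m with hηd
  obtain ⟨Y1, hY1, H1⟩ := twoY c h h1 B n m hB
  obtain ⟨Y2, hY2, H2⟩ := avg_clY c h h1 B n m hB
  obtain ⟨Y3, hY3, H3⟩ := thY c h h1 B n m hB
  obtain ⟨Y4, hY4, H4⟩ := logsY n (n + 1) (η / 8) (by positivity)
  set R : ℝ := (B : ℝ) / B.totient with hR
  obtain ⟨Y5, H5⟩ := Filter.eventually_atTop.1
    (Real.tendsto_log_atTop.eventually_ge_atTop (2 ^ n * R ^ n * B))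
  obtain ⟨Y6, H6⟩ := Filter.eventually_atTop.1
    ((tendsto_rpow_atTop (show (0 : ℝ) < η / 8 by positivity)).eventually_ge_atTop
      (n + n * R ^ n))
  refine ⟨max (max (max Y1 Y2) (max Y3 Y4)) (max Y5 Y6), ?_, ?_⟩
  · exact hY1.trans ((le_max_left _ _).trans ((le_max_left _ _).trans (le_max_left _ _)))
  intro y hy G hG μ hμ p hp1 hp2
  have hyY1 : y ≥ Y1 := ((le_max_left _ _).trans ((le_max_left _ _).trans (le_max_left _ _))).trans hy
  have hyY2 : y ≥ Y2 := ((le_max_right _ _).trans ((le_max_left _ _).trans (le_max_left _ _))).trans hy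
  have hyY3 : y ≥ Y3 := ((le_max_left _ _).trans ((le_max_right _ _).trans (le_max_left _ _))).trans hy
  have hyY4 : y ≥ Y4 := ((le_max_right _ _).trans ((le_max_right _ _).trans (le_max_left _ _))).trans hy
  have hyY5 : y ≥ Y5 := ((le_max_left _ _).trans (le_max_right _ _)).trans hy
  have hyY6 : y ≥ Y6 := ((le_max_right _ _).trans (le_max_right _ _)).trans hy
  have hy3 : 3 ≤ y := hY1.trans hyY1
  have hy0 : 0 < y := by linarith
  have hy1 : 1 ≤ y := by linarith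
  obtain ⟨hL1, hL2, hly1, hLpow⟩ := H4 y hyY4
  have hlogy := H5 y hyY5
  have hpowy := H6 y hyY6
  set X : ℝ := 2 ^ (n + 4) * y with hX
  have hR1 : 1 ≤ R := (gg_bd hB hμ 0 0 0).2.2
  have hR0 : 0 ≤ R := by linarith
  have hRn : 0 ≤ R ^ n := pow_nonneg hR0 n
  have hΛ0 : 0 ≤ Real.log X := by linarith
  have hty : 0 < ty θ y := ty_pos θ hy0
  set J : ℕ → ℝ := fun i => ∫ a in Cu m,
    (∏ j ∈ Finset.Icc 1 i, th (cl μ (SS G (ep θ) a) p j)) *
    gg B μ (n - i) i (cl μ (SS G (ep θ) a) p i) with hJ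
  set P : ℕ → ℝ := fun i => ∫ a in Cu m, ph B (μ i * ty θ y) (ps μ (SS G (ep θ) a) p i) with hP
  have hstep : ∀ i < n, |J (i + 1) - J i| ≤
      Real.log X ^ n * (R ^ n * B * P i + y ^ (-(1 / 4) : ℝ)) +
        Real.log X ^ n * (Real.log X * R ^ n) * y ^ (-η) := by
    intro i hi
    have key := H1 y hyY1 G hG μ hμ p p hp1 hp2 hp1 hp2 i 0 hi (Nat.zero_le _) (by omega)
      (by intro hk; omega)
      (fun x _ => ∏ j ∈ Finset.Icc 1 i, th (x j))
      (fun _ _ c => thc X c * gg B μ (n - i - 1) (i + 1) c)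
      (fun x _ => gg B μ (n - i) i (x i))
      (Real.log X ^ n) (Real.log X * R ^ n)
      (fun a => R ^ n * B * ph B (μ i * ty θ y) (ps μ (SS G (ep θ) a) p i) + y ^ (-(1 / 4) : ℝ))
      (pow_nonneg hΛ0 n) (mul_nonneg hΛ0 hRn)
    have hFeq : ∀ a : Fin m → ℝ, ∏ j ∈ Finset.Icc 1 i, th (tr i (cl μ (SS G (ep θ) a) p) j) =
        ∏ j ∈ Finset.Icc 1 i, th (cl μ (SS G (ep θ) a) p j) := by
      intro a
      refine Finset.prod_congr rfl fun j hj => ?_
      rw [tr, if_pos (Finset.mem_Icc.mp hj).2]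
    have htr : ∀ a : Fin m → ℝ, tr i (cl μ (SS G (ep θ) a) p) i = cl μ (SS G (ep θ) a) p i := by
      intro a
      rw [tr, if_pos le_rfl]
    have hint : IntegrableOn
        (fun a : Fin m → ℝ => ph B (μ i * ty θ y) (ps μ (SS G (ep θ) a) p i)) (Cu m) :=
      phps_int B _ μ G (ep θ) m p i
    have hintE : IntegrableOn (fun a : Fin m → ℝ =>
        R ^ n * B * ph B (μ i * ty θ y) (ps μ (SS G (ep θ) a) p i) + y ^ (-(1 / 4) : ℝ)) (Cu m) :=
      (hint.const_mul _).add (SglY_const_int m _)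
    have hph0 : ∀ x : ℝ, 0 ≤ ph B (μ i * ty θ y) x := fun x =>
      ph_nonneg B (mul_nonneg (Nat.cast_nonneg _) hty.le) x
    have hintval : (∫ a in Cu m, (R ^ n * B * ph B (μ i * ty θ y) (ps μ (SS G (ep θ) a) p i) +
        y ^ (-(1 / 4) : ℝ))) = R ^ n * B * P i + y ^ (-(1 / 4) : ℝ) := by
      rw [integral_add (hint.const_mul _) (SglY_const_int m _), integral_const_mul]
      congr 1
      have hv := SglY_vol m
      rw [setIntegral_const, smul_eq_mul, mul_one] at hv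
      rw [setIntegral_const, smul_eq_mul, hv, one_mul]
    have key2 := key ?_ ?_ hintE ?_ ?_
    · have e1 : (∫ a in Cu m, (∏ j ∈ Finset.Icc 1 i, th (tr i (cl μ (SS G (ep θ) a) p) j)) *
          (thc X (cl μ (SS G (ep θ) a) p (i + 1)) *
            gg B μ (n - i - 1) (i + 1) (cl μ (SS G (ep θ) a) p (i + 1)))) = J (i + 1) := by
        rw [hJ]
        refine setIntegral_congr_fun measurableSet_Icc fun a ha => ?_
        have h3 := (H3 y hyY3 G hG a ha μ hμ p hp1 hp2 (i + 1) hi).2.2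
        simp only [hFeq]
        rw [h3, Finset.prod_Icc_succ_top (by omega), ← mul_assoc, Nat.sub_sub]
      have e2 : (∫ a in Cu m, (∏ j ∈ Finset.Icc 1 i, th (tr i (cl μ (SS G (ep θ) a) p) j)) *
          gg B μ (n - i) i (tr i (cl μ (SS G (ep θ) a) p) i)) = J i := by
        simp only [hFeq, htr]
        rfl
      simp only [e1, e2] at key2
      rw [hintval] at key2
      exact key2
    · intro a ha
      simp only [hFeq]
      have hb : ∀ j ∈ Finset.Icc 1 i, 0 ≤ th (cl μ (SS G (ep θ) a) p j) ∧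
          th (cl μ (SS G (ep θ) a) p j) ≤ Real.log X := by
        intro j hj
        have hj2 := (Finset.mem_Icc.mp hj).2
        have := H3 y hyY3 G hG a ha μ hμ p hp1 hp2 j (by omega)
        exact ⟨this.1, this.2.1⟩
      rw [abs_of_nonneg (Finset.prod_nonneg fun j hj => (hb j hj).1)]
      calc ∏ j ∈ Finset.Icc 1 i, th (cl μ (SS G (ep θ) a) p j)
          ≤ ∏ j ∈ Finset.Icc 1 i, Real.log X :=
            Finset.prod_le_prod (fun j hj => (hb j hj).1) (fun j hj => (hb j hj).2)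
        _ = Real.log X ^ i := by simp
        _ ≤ Real.log X ^ n := pow_le_pow_right₀ hL1 (by omega)
    · intro a ha c
      rw [abs_mul]
      obtain ⟨g0, g1, _⟩ := gg_bd hB hμ (n - i - 1) (i + 1) c
      have g2 : gg B μ (n - i - 1) (i + 1) c ≤ R ^ n := by
        refine g1.trans ?_
        exact pow_le_pow_right₀ hR1 (by omega)
      rw [abs_of_nonneg g0]
      exact mul_le_mul (SglY_thc_abs hL1 c) g2 g0 hΛ0
    · intro a _
      have := hph0 (ps μ (SS G (ep θ) a) p i)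
      positivity
    · intro a ha _
      have h2 := H2 y hyY2 G hG μ hμ a ha p hp1 hp2 i hi (n - i - 1) (by omega)
      rw [show n - i - 1 + 1 = n - i by omega] at h2
      simp only [htr]
      exact h2
  have hind : ∀ i ≤ n, |J i - J 0| ≤ Real.log X ^ n * (R ^ n * B) * ∑ j ∈ Finset.range i, P j +
      i * (Real.log X ^ n * y ^ (-(1 / 4) : ℝ) +
        Real.log X ^ n * (Real.log X * R ^ n) * y ^ (-η)) := by
    intro i
    induction i with
    | zero =>
      intro _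
      simp
    | succ i ih =>
      intro hi
      have h1 := ih (by omega)
      have h2 := hstep i (by omega)
      have e : J (i + 1) - J 0 = (J (i + 1) - J i) + (J i - J 0) := by ring
      rw [e]
      refine (abs_add_le _ _).trans ?_
      rw [Finset.sum_range_succ]
      push_cast
      linarith
  have hJ0 : J 0 = gg B μ n 0 p := by
    rw [hJ]
    simp only [Finset.Icc_eq_empty (show ¬ (1 : ℕ) ≤ 0 by omega), Finset.prod_empty, one_mul,
      cl_zero, Nat.sub_zero]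
    rw [setIntegral_const, smul_eq_mul]
    have hv := SglY_vol m
    rw [setIntegral_const, smul_eq_mul, mul_one] at hv
    rw [hv, one_mul]
  have hJn : J n = ∫ a in Cu m, ∏ i ∈ Finset.Icc 1 n, th (cl μ (SS G (ep θ) a) p i) := by
    rw [hJ]
    simp only [Nat.sub_self, gg, mul_one]
  have hfin := hind n le_rfl
  rw [hJ0, hJn] at hfin
  refine hfin.trans ?_
  have hEE : EE θ B n m G μ y p = ∑ i ∈ Finset.range n, P i := EE_eq θ B n m G μ y p
  have hEE0 : 0 ≤ EE θ B n m G μ y p := EE_nonneg θ B n m G μ hy0.le p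
  rw [← hEE]
  have hlogy0 : 0 ≤ Real.log y := by linarith
  have hB0 : (0 : ℝ) ≤ B := Nat.cast_nonneg B
  refine add_le_add (mul_le_mul_of_nonneg_right ?_ hEE0) ?_
  · calc Real.log X ^ n * (R ^ n * B) ≤ (2 * Real.log y) ^ n * (R ^ n * B) :=
          mul_le_mul_of_nonneg_right (pow_le_pow_left₀ hΛ0 hL2 n) (by positivity)
      _ = Real.log y ^ n * (2 ^ n * R ^ n * B) := by rw [mul_pow]; ring
      _ ≤ Real.log y ^ n * Real.log y :=
          mul_le_mul_of_nonneg_left hlogy (pow_nonneg hlogy0 n)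
      _ = Real.log y ^ (n + 1) := by rw [pow_succ]
      _ ≤ Real.log y ^ (2 * n + 2) := pow_le_pow_right₀ hly1 (by omega)
  · have hΛn : Real.log X ^ n ≤ Real.log X ^ (n + 1) := pow_le_pow_right₀ hL1 (by omega)
    have hq : y ^ (-(1 / 4) : ℝ) ≤ y ^ (-η) :=
      Real.rpow_le_rpow_of_exponent_le hy1 (by linarith)
    have hyη : 0 < y ^ (-η) := Real.rpow_pos_of_pos hy0 _
    have hn0 : (0 : ℝ) ≤ n := Nat.cast_nonneg n
    have s1 : Real.log X ^ n * y ^ (-(1 / 4) : ℝ) ≤ Real.log X ^ (n + 1) * y ^ (-η) :=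
      mul_le_mul hΛn hq (Real.rpow_nonneg hy0.le _) (pow_nonneg hΛ0 _)
    have s2 : Real.log X ^ n * (Real.log X * R ^ n) * y ^ (-η) =
        R ^ n * (Real.log X ^ (n + 1) * y ^ (-η)) := by rw [pow_succ]; ring
    calc (n : ℝ) * (Real.log X ^ n * y ^ (-(1 / 4) : ℝ) +
          Real.log X ^ n * (Real.log X * R ^ n) * y ^ (-η))
        ≤ n * (Real.log X ^ (n + 1) * y ^ (-η) + R ^ n * (Real.log X ^ (n + 1) * y ^ (-η))) := by
          rw [s2]
          exact mul_le_mul_of_nonneg_left (by linarith) hn0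
      _ = (n + n * R ^ n) * (Real.log X ^ (n + 1) * y ^ (-η)) := by ring
      _ ≤ y ^ (η / 8) * (y ^ (η / 8) * y ^ (-η)) := by
          refine mul_le_mul hpowy (mul_le_mul_of_nonneg_right hLpow hyη.le) ?_
            (Real.rpow_nonneg hy0.le _)
          exact mul_nonneg (pow_nonneg hΛ0 _) hyη.le
      _ = y ^ (-(3 / 4 * η)) := by
          rw [← Real.rpow_add hy0, ← Real.rpow_add hy0]
          congr 1
          ring
      _ ≤ y ^ (-(η / 2)) := Real.rpow_le_rpow_of_exponent_le hy1 (by linarith)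

end Pool.Agent.PCy
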