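import Pool.Agent.PCy.BasY
import Pool.Agent.ASC.Final

/-!
# The prime number theorem for almost all short intervals, in residue classes

Restatement of `ASC.short_class` (helper70).
-/

namespace Pool.Agent.PCy

open MeasureTheory

theorem shortB (B : ℕ) (hB : 0 < B) (θ : ℝ) (h : 1 / 2 < θ) (h1 : θ < 1) (A : ℕ) :
    ∃ X0 : ℝ, 3 ≤ X0 ∧ ∀ X ≥ X0, ∀ h : ℝ, X ^ θ ≤ h → h ≤ X → ∀ b : ℕ, Nat.Coprime b B →
      (∫ x in Set.Ioc X (2 * X), (RR B b h x) ^ 2) ≤ X * h ^ 2 / Real.log X ^ A := by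
  obtain ⟨X0, _, H⟩ := ASC.short_class hB h h1 A
  refine ⟨max X0 3, le_max_right _ _, ?_⟩
  intro X hX k hk hk2 b hb
  have h3 := H X k ((le_max_left _ _).trans hX) hk hk2 b hb
  rw [← integral_Icc_eq_integral_Ioc]
  exact h3

end Pool.Agent.PCy
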